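import Mathlib

set_option autoImplicit false

/-!
# Five unit spheres in three dimensions

If every four of five unit spheres in `ℝ³` have a common point then all five have one.
-/

namespace Pool.Agent.X160.UnitSpheres

open Complex ComplexConjugate

/-- The moment identities. -/
lemma moments (p c : Fin 4 → Fin 3 → ℝ) (w : Fin 4 → ℝ)
    (h : ∀ i j, w i * (∑ k, p i k ^ 2 - 2 * ∑ k, p i k * c j k) = if i = j then 1 else 0) :
    (∑ i, w i * ∑ k, p i k ^ 2 = 1) ∧ (∀ k, ∑ i, w i * p i k = 0) ∧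
    (∀ k, ∑ i, w i * (∑ l, p i l ^ 2) * c i k = 0) ∧
    (∀ k l, ∑ i, w i * p i k * c i l = if k = l then -1 / 2 else 0) := by
  let A : Matrix (Fin 4) (Fin 4) ℝ :=
    fun i => (Fin.cons (w i * ∑ k, p i k ^ 2) (fun k => w i * p i k) : Fin 4 → ℝ)
  let B : Matrix (Fin 4) (Fin 4) ℝ :=
    fun r j => (Fin.cons (1 : ℝ) (fun k => -2 * c j k) : Fin 4 → ℝ) r
  have hAB : A * B = 1 := by
    ext i j
    rw [Matrix.mul_apply, Fin.sum_univ_succ, Matrix.one_apply, ← h i j]
    simp only [A, B, Fin.cons_zero, Fin.cons_succ, Fin.sum_univ_three]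
    ring
  have hBA : B * A = 1 := mul_eq_one_comm.1 hAB
  have key : ∀ r s, ∑ i, B r i * A i s = if r = s then 1 else 0 := by
    intro r s
    rw [← Matrix.mul_apply, hBA, Matrix.one_apply]
  refine ⟨?_, ?_, ?_, ?_⟩
  · have := key 0 0
    simpa [A, B] using this
  · intro k
    have := key 0 k.succ
    rw [if_neg (Fin.succ_ne_zero k).symm] at this
    simpa [A, B] using this
  · intro k
    have := key k.succ 0
    rw [if_neg (Fin.succ_ne_zero k)] at this
    simp only [A, B, Fin.cons_zero, Fin.cons_succ] at this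
    have h2 : ∑ i, w i * (∑ l, p i l ^ 2) * c i k =
        (-1 / 2) * ∑ i, -2 * c i k * (w i * ∑ k, p i k ^ 2) := by
      rw [Finset.mul_sum]
      exact Finset.sum_congr rfl fun i _ => by ring
    rw [h2, this]
    simp
  · intro k l
    have := key l.succ k.succ
    simp only [A, B, Fin.cons_succ, Fin.succ_inj] at this
    have h2 : ∑ i, w i * p i k * c i l =
        (-1 / 2) * ∑ i, -2 * c i l * (w i * p i k) := by
      rw [Finset.mul_sum]
      exact Finset.sum_congr rfl fun i _ => by ring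
    rw [h2, this]
    by_cases hkl : k = l
    · subst hkl; simp
    · rw [if_neg hkl, if_neg (Ne.symm hkl)]; simp

/-- The spinor of a unit vector. -/
lemma spinor (x y z : ℝ) (h : x ^ 2 + y ^ 2 + z ^ 2 = 1) :
    ∃ a b : ℂ, a * conj a = 1 + z ∧ b * conj b = 1 - z ∧ a * conj b = x - y * I ∧
      b * conj a = x + y * I := by
  by_cases hz : 1 + z = 0
  · have hz' : z = -1 := by linarith
    subst hz'
    have hx : x = 0 := by nlinarith [sq_nonneg x, sq_nonneg y]
    have hy : y = 0 := by nlinarith [sq_nonneg x, sq_nonneg y]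
    subst hx hy
    refine ⟨0, (Real.sqrt 2 : ℝ), by simp, ?_, by simp, by simp⟩
    rw [conj_ofReal, ← ofReal_mul, Real.mul_self_sqrt (by norm_num)]
    push_cast
    norm_num
  · have hpos : 0 < 1 + z := by
      have : -1 ≤ z := by nlinarith [sq_nonneg x, sq_nonneg y]
      rcases this.lt_or_eq with h1 | h1
      · linarith
      · exact absurd (by linarith) hz
    have hs : (Real.sqrt (1 + z)) * (Real.sqrt (1 + z)) = 1 + z := Real.mul_self_sqrt hpos.le
    have hs0 : Real.sqrt (1 + z) ≠ 0 := (Real.sqrt_pos.2 hpos).ne'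
    set s := Real.sqrt (1 + z) with hsdef
    have hsC : (s : ℂ) ≠ 0 := by exact_mod_cast hs0
    have hs2 : (s : ℂ) * s = 1 + z := by exact_mod_cast hs
    have hzC : (1 + z : ℂ) ≠ 0 := by exact_mod_cast hz
    have hC : (x : ℂ) ^ 2 + y ^ 2 + z ^ 2 = 1 := by exact_mod_cast h
    refine ⟨s, (x + y * I) / s, ?_, ?_, ?_, ?_⟩
    · rw [conj_ofReal, hs2]
    · simp only [map_div₀, map_add, map_mul, conj_ofReal, conj_I]
      rw [div_mul_div_comm, hs2, div_eq_iff hzC]
      linear_combination hC + (-(y : ℂ) ^ 2) * I_sq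
    · simp only [map_div₀, map_add, map_mul, conj_ofReal, conj_I]
      field_simp
      ring
    · rw [conj_ofReal]
      field_simp

/-- The linear functional given by two spinors. -/
noncomputable def ell (a b u v : ℂ) (z : Fin 4 → ℂ) : ℂ :=
  conj a * ((z 0 + z 3) * u + (z 1 - I * z 2) * v) +
    conj b * ((z 1 + I * z 2) * u + (z 0 - z 3) * v)

/-- The coefficients of the functional. -/
noncomputable def coef (a b u v : ℂ) : Fin 4 → ℂ :=
  ![conj a * u + conj b * v, conj a * v + conj b * u, I * (conj b * u - conj a * v),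
    conj a * u - conj b * v]

lemma ell_eq (a b u v : ℂ) (z : Fin 4 → ℂ) : ell a b u v z = ∑ k, coef a b u v k * z k := by
  simp only [ell, coef, Fin.sum_univ_four, Matrix.cons_val_zero, Matrix.cons_val_one,
    Matrix.cons_val]
  ring

/-- The squared norm of the functional, expressed by the two unit vectors. -/
noncomputable def E (q c : Fin 3 → ℝ) (z : Fin 4 → ℂ) : ℂ :=
  (1 - q 2) * ((1 + c 2) * ((z 0 + z 3) * (conj (z 0) + conj (z 3))) +
      (1 - c 2) * ((z 1 - I * z 2) * (conj (z 1) + I * conj (z 2))) +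
      (c 0 - c 1 * I) * ((z 0 + z 3) * (conj (z 1) + I * conj (z 2))) +
      (c 0 + c 1 * I) * ((z 1 - I * z 2) * (conj (z 0) + conj (z 3)))) +
  (1 + q 2) * ((1 + c 2) * ((z 1 + I * z 2) * (conj (z 1) - I * conj (z 2))) +
      (1 - c 2) * ((z 0 - z 3) * (conj (z 0) - conj (z 3))) +
      (c 0 - c 1 * I) * ((z 1 + I * z 2) * (conj (z 0) - conj (z 3))) +
      (c 0 + c 1 * I) * ((z 0 - z 3) * (conj (z 1) - I * conj (z 2)))) +
  (-q 0 - q 1 * I) * ((1 + c 2) * ((z 0 + z 3) * (conj (z 1) - I * conj (z 2))) +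
      (1 - c 2) * ((z 1 - I * z 2) * (conj (z 0) - conj (z 3))) +
      (c 0 - c 1 * I) * ((z 0 + z 3) * (conj (z 0) - conj (z 3))) +
      (c 0 + c 1 * I) * ((z 1 - I * z 2) * (conj (z 1) - I * conj (z 2)))) +
  (-q 0 + q 1 * I) * ((1 + c 2) * ((z 1 + I * z 2) * (conj (z 0) + conj (z 3))) +
      (1 - c 2) * ((z 0 - z 3) * (conj (z 1) + I * conj (z 2))) +
      (c 0 - c 1 * I) * ((z 1 + I * z 2) * (conj (z 1) + I * conj (z 2))) +
      (c 0 + c 1 * I) * ((z 0 - z 3) * (conj (z 0) + conj (z 3))))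

lemma ell_sq (q c : Fin 3 → ℝ) (a b u v : ℂ) (z : Fin 4 → ℂ)
    (ha : a * conj a = 1 - q 2) (hb : b * conj b = 1 + q 2)
    (hab : a * conj b = -q 0 + q 1 * I) (hba : b * conj a = -q 0 - q 1 * I)
    (hu : u * conj u = 1 + c 2) (hv : v * conj v = 1 - c 2)
    (huv : u * conj v = c 0 - c 1 * I) (hvu : v * conj u = c 0 + c 1 * I) :
    ell a b u v z * conj (ell a b u v z) = E q c z := by
  unfold ell E
  simp only [map_add, map_mul, map_sub, conj_I, Complex.conj_conj]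
  rw [← ha, ← hb, ← hab, ← hba, ← hu, ← hv, ← huv, ← hvu]
  ring


/-- The squared norm of the functional as a bilinear expression. -/
lemma E_eq (q c : Fin 3 → ℝ) (z : Fin 4 → ℂ) (y : Fin 4 → ℂ) (hy : ∀ k, y k = conj (z k)) :
    E q c z = 2 * (z 0 * y 0 + z 1 * y 1 + z 2 * y 2 + z 3 * y 3) +
      2 * (y 0 * z 1 + z 0 * y 1 + I * (y 2 * z 3 - y 3 * z 2)) * c 0 +
      2 * (y 0 * z 2 + z 0 * y 2 + I * (y 3 * z 1 - y 1 * z 3)) * c 1 +
      2 * (y 0 * z 3 + z 0 * y 3 + I * (y 1 * z 2 - y 2 * z 1)) * c 2 -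
      2 * (y 0 * z 1 + z 0 * y 1 + I * (z 2 * y 3 - z 3 * y 2)) * q 0 -
      2 * (y 0 * z 2 + z 0 * y 2 + I * (z 3 * y 1 - z 1 * y 3)) * q 1 -
      2 * (y 0 * z 3 + z 0 * y 3 + I * (z 1 * y 2 - z 2 * y 1)) * q 2 -
      2 * (z 0 * y 0 - (z 1 * y 1 + z 2 * y 2 + z 3 * y 3) + 2 * z 1 * y 1) * (q 0 * c 0) -
      2 * (z 0 * y 0 - (z 1 * y 1 + z 2 * y 2 + z 3 * y 3) + 2 * z 2 * y 2) * (q 1 * c 1) -
      2 * (z 0 * y 0 - (z 1 * y 1 + z 2 * y 2 + z 3 * y 3) + 2 * z 3 * y 3) * (q 2 * c 2) -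
      2 * (z 1 * y 2 + y 1 * z 2 + I * (z 0 * y 3 - y 0 * z 3)) * (q 0 * c 1) -
      2 * (z 1 * y 2 + y 1 * z 2 - I * (z 0 * y 3 - y 0 * z 3)) * (q 1 * c 0) -
      2 * (z 2 * y 3 + y 2 * z 3 + I * (z 0 * y 1 - y 0 * z 1)) * (q 1 * c 2) -
      2 * (z 2 * y 3 + y 2 * z 3 - I * (z 0 * y 1 - y 0 * z 1)) * (q 2 * c 1) -
      2 * (z 1 * y 3 + y 1 * z 3 - I * (z 0 * y 2 - y 0 * z 2)) * (q 0 * c 2) -
      2 * (z 1 * y 3 + y 1 * z 3 + I * (z 0 * y 2 - y 0 * z 2)) * (q 2 * c 0) := by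
  unfold E
  rw [← hy 0, ← hy 1, ← hy 2, ← hy 3]
  ring_nf
  simp only [I_sq, I_pow_four]
  ring

/-- The sum of the functionals. -/
lemma sum_E (q c : Fin 4 → Fin 3 → ℝ) (f : Fin 3 → ℝ) (w : Fin 4 → ℝ) (W : ℝ)
    (h0 : ∑ i, w i = W) (h1 : ∀ k, ∑ i, w i * c i k = W * f k)
    (h2 : ∀ k, ∑ i, w i * q i k = -W * f k)
    (h3 : ∀ k l, ∑ i, w i * q i k * c i l = (if k = l then -1 / 2 else 0) - W * f k * f l)
    (hW : W * (1 - (f 0 ^ 2 + f 1 ^ 2 + f 2 ^ 2)) = 1) (z : Fin 4 → ℂ) :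
    ∑ i, (w i : ℂ) * E (q i) (c i) z = ∑ k, z k * conj (z k) +
      4 * W * ((z 0 + f 0 * z 1 + f 1 * z 2 + f 2 * z 3) *
        conj (z 0 + f 0 * z 1 + f 1 * z 2 + f 2 * z 3)) := by
  have gW : (W : ℂ) * (1 - (f 0 ^ 2 + f 1 ^ 2 + f 2 ^ 2)) = 1 := by exact_mod_cast hW
  have g0 : ∑ i, (w i : ℂ) = W := by exact_mod_cast h0
  have g1 : ∀ k, ∑ i, (w i : ℂ) * c i k = W * f k := fun k => by exact_mod_cast h1 k
  have g2 : ∀ k, ∑ i, (w i : ℂ) * q i k = -W * f k := fun k => by exact_mod_cast h2 k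
  have g3 : ∀ k l, ∑ i, (w i : ℂ) * q i k * c i l =
      (if k = l then -1 / 2 else 0) - W * f k * f l := fun k l => by
    have := congrArg (fun x : ℝ => (x : ℂ)) (h3 k l)
    push_cast at this
    rw [this]
    split_ifs <;> simp
  have e00 := g3 0 0
  have e11 := g3 1 1
  have e22 := g3 2 2
  have e01 := g3 0 1
  have e10 := g3 1 0
  have e12 := g3 1 2
  have e21 := g3 2 1
  have e02 := g3 0 2
  have e20 := g3 2 0
  have c0 := g1 0
  have c1 := g1 1
  have c2 := g1 2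
  have q0 := g2 0
  have q1 := g2 1
  have q2 := g2 2
  rw [if_pos rfl] at e00 e11 e22
  rw [if_neg (by decide)] at e01 e10 e12 e21 e02 e20
  simp only [E_eq _ _ z (fun k => conj (z k)) (fun _ => rfl), Fin.sum_univ_four, map_add, map_mul,
    conj_ofReal] at *
  generalize conj (z 0) = y0
  generalize conj (z 1) = y1
  generalize conj (z 2) = y2
  generalize conj (z 3) = y3
  linear_combination 2 * (z 0 * y0 + z 1 * y1 + z 2 * y2 + z 3 * y3) * g0 +
      2 * (y0 * z 1 + z 0 * y1 + I * (y2 * z 3 - y3 * z 2)) * c0 +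
      2 * (y0 * z 2 + z 0 * y2 + I * (y3 * z 1 - y1 * z 3)) * c1 +
      2 * (y0 * z 3 + z 0 * y3 + I * (y1 * z 2 - y2 * z 1)) * c2 -
      2 * (y0 * z 1 + z 0 * y1 + I * (z 2 * y3 - z 3 * y2)) * q0 -
      2 * (y0 * z 2 + z 0 * y2 + I * (z 3 * y1 - z 1 * y3)) * q1 -
      2 * (y0 * z 3 + z 0 * y3 + I * (z 1 * y2 - z 2 * y1)) * q2 -
      2 * (z 0 * y0 - (z 1 * y1 + z 2 * y2 + z 3 * y3) + 2 * z 1 * y1) * e00 -
      2 * (z 0 * y0 - (z 1 * y1 + z 2 * y2 + z 3 * y3) + 2 * z 2 * y2) * e11 -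
      2 * (z 0 * y0 - (z 1 * y1 + z 2 * y2 + z 3 * y3) + 2 * z 3 * y3) * e22 -
      2 * (z 1 * y2 + y1 * z 2 + I * (z 0 * y3 - y0 * z 3)) * e01 -
      2 * (z 1 * y2 + y1 * z 2 - I * (z 0 * y3 - y0 * z 3)) * e10 -
      2 * (z 2 * y3 + y2 * z 3 + I * (z 0 * y1 - y0 * z 1)) * e12 -
      2 * (z 2 * y3 + y2 * z 3 - I * (z 0 * y1 - y0 * z 1)) * e21 -
      2 * (z 1 * y3 + y1 * z 3 - I * (z 0 * y2 - y0 * z 2)) * e02 -
      2 * (z 1 * y3 + y1 * z 3 + I * (z 0 * y2 - y0 * z 2)) * e20 -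
      2 * (z 0 * y0 - (z 1 * y1 + z 2 * y2 + z 3 * y3)) * gW


/-- The weights are positive. -/
lemma weight_pos (q c : Fin 4 → Fin 3 → ℝ) (f : Fin 3 → ℝ) (w : Fin 4 → ℝ) (W : ℝ)
    (hq : ∀ i, q i 0 ^ 2 + q i 1 ^ 2 + q i 2 ^ 2 = 1)
    (hc : ∀ i, c i 0 ^ 2 + c i 1 ^ 2 + c i 2 ^ 2 = 1)
    (h0 : ∑ i, w i = W) (h1 : ∀ k, ∑ i, w i * c i k = W * f k)
    (h2 : ∀ k, ∑ i, w i * q i k = -W * f k)
    (h3 : ∀ k l, ∑ i, w i * q i k * c i l = (if k = l then -1 / 2 else 0) - W * f k * f l)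
    (hW : W * (1 - (f 0 ^ 2 + f 1 ^ 2 + f 2 ^ 2)) = 1) (hWpos : 0 < W) (i₀ : Fin 4) :
    0 < w i₀ := by
  have hsq : ∀ i, (-q i 0) ^ 2 + (-q i 1) ^ 2 + (-q i 2) ^ 2 = 1 := fun i => by
    rw [← hq i]; ring
  choose a b ha hb hab hba using fun i => spinor _ _ _ (hsq i)
  choose u v hu hv huv hvu using fun i => spinor _ _ _ (hc i)
  have hE : ∀ i z, E (q i) (c i) z = (normSq (ell (a i) (b i) (u i) (v i) z) : ℂ) := by
    intro i z
    rw [normSq_eq_conj_mul_self, mul_comm]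
    symm
    apply ell_sq
    · rw [ha]; push_cast; ring
    · rw [hb]; push_cast; ring
    · rw [hab]; push_cast; ring
    · rw [hba]; push_cast; ring
    · rw [hu]
    · rw [hv]
    · rw [huv]
    · rw [hvu]
  -- a common zero of the other functionals
  obtain ⟨z, hz, hMz⟩ : ∃ z : Fin 4 → ℂ, z ≠ 0 ∧ ∀ i, i ≠ i₀ →
      ell (a i) (b i) (u i) (v i) z = 0 := by
    let M : Matrix (Fin 4) (Fin 4) ℂ :=
      fun i k => if i = i₀ then 0 else coef (a i) (b i) (u i) (v i) k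
    have hdet : M.det = 0 := Matrix.det_eq_zero_of_row_eq_zero i₀ fun k => by simp [M]
    obtain ⟨z, hz, hMz⟩ := Matrix.exists_mulVec_eq_zero_iff.2 hdet
    refine ⟨z, hz, fun i hi => ?_⟩
    have := congrFun hMz i
    simp only [Matrix.mulVec, dotProduct, M, if_neg hi, Pi.zero_apply] at this
    rw [ell_eq, this]
  have hsum := sum_E q c f w W h0 h1 h2 h3 hW z
  have hL : ∑ i, (w i : ℂ) * E (q i) (c i) z =
      ((w i₀ * normSq (ell (a i₀) (b i₀) (u i₀) (v i₀) z) : ℝ) : ℂ) := by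
    rw [Finset.sum_eq_single i₀]
    · rw [hE]; push_cast; ring
    · intro i _ hi
      rw [hE, hMz i hi]
      simp
    · simp
  have hR : ∑ k, z k * conj (z k) +
      4 * W * ((z 0 + f 0 * z 1 + f 1 * z 2 + f 2 * z 3) *
        conj (z 0 + f 0 * z 1 + f 1 * z 2 + f 2 * z 3)) =
      ((∑ k, normSq (z k) + 4 * W * normSq (z 0 + f 0 * z 1 + f 1 * z 2 + f 2 * z 3) : ℝ) : ℂ) := by
    push_cast
    simp only [normSq_eq_conj_mul_self]
    congr 1
    · exact Finset.sum_congr rfl fun k _ => by ring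
    · ring
  rw [hL, hR] at hsum
  have hreal : w i₀ * normSq (ell (a i₀) (b i₀) (u i₀) (v i₀) z) =
      ∑ k, normSq (z k) + 4 * W * normSq (z 0 + f 0 * z 1 + f 1 * z 2 + f 2 * z 3) := by
    exact_mod_cast hsum
  have hpos : 0 < ∑ k, normSq (z k) := by
    obtain ⟨k, hk⟩ := Function.ne_iff.1 hz
    exact Finset.sum_pos' (fun k _ => normSq_nonneg _) ⟨k, Finset.mem_univ _, normSq_pos.2 hk⟩
  have h5 : 0 ≤ 4 * W * normSq (z 0 + f 0 * z 1 + f 1 * z 2 + f 2 * z 3) :=
    mul_nonneg (by linarith) (normSq_nonneg _)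
  have h6 : 0 < w i₀ * normSq (ell (a i₀) (b i₀) (u i₀) (v i₀) z) := by
    rw [hreal]; linarith
  by_contra hneg
  push Not at hneg
  exact absurd h6 (not_lt.2 (mul_nonpos_of_nonpos_of_nonneg hneg (normSq_nonneg _)))

/-- The main lemma in coordinates. -/
lemma frame (p c : Fin 4 → Fin 3 → ℝ) (f : Fin 3 → ℝ) (w : Fin 4 → ℝ)
    (hc : ∀ i, c i 0 ^ 2 + c i 1 ^ 2 + c i 2 ^ 2 = 1)
    (hp : ∀ i, (p i 0 - f 0) ^ 2 + (p i 1 - f 1) ^ 2 + (p i 2 - f 2) ^ 2 = 1)
    (h : ∀ i j, w i * ((p i 0 - c j 0) ^ 2 + (p i 1 - c j 1) ^ 2 + (p i 2 - c j 2) ^ 2 - 1) =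
      if i = j then 1 else 0) :
    (1 - (f 0 ^ 2 + f 1 ^ 2 + f 2 ^ 2)) * ∑ i, w i = 1 ∧
      ¬ 0 < 1 - (f 0 ^ 2 + f 1 ^ 2 + f 2 ^ 2) := by
  obtain ⟨m1, m2, m3, m4⟩ := moments p c w (by
    intro i j
    rw [← h i j]
    congr 1
    have := hc j
    simp only [Fin.sum_univ_three]
    linear_combination -this)
  have hpsq : ∀ i, ∑ k, p i k ^ 2 =
      2 * (p i 0 * f 0 + p i 1 * f 1 + p i 2 * f 2) + (1 - (f 0 ^ 2 + f 1 ^ 2 + f 2 ^ 2)) := by
    intro i
    rw [Fin.sum_univ_three]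
    linear_combination hp i
  set D := 1 - (f 0 ^ 2 + f 1 ^ 2 + f 2 ^ 2) with hD
  have hW0 : D * ∑ i, w i = 1 := by
    have a0 := m2 0
    have a1 := m2 1
    have a2 := m2 2
    simp only [hpsq] at m1
    simp only [Fin.sum_univ_four] at *
    linear_combination m1 - 2 * f 0 * a0 - 2 * f 1 * a1 - 2 * f 2 * a2
  refine ⟨hW0, fun hDpos => ?_⟩
  set W := ∑ i, w i with hWdef
  have hWpos : 0 < W := by
    by_contra hneg
    push Not at hneg
    nlinarith
  have h1 : ∀ k, ∑ i, w i * c i k = W * f k := by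
    intro k
    have b3 := m3 k
    simp only [hpsq] at b3
    have d0 := m4 0 k
    have d1 := m4 1 k
    have d2 := m4 2 k
    have key : D * ∑ i, w i * c i k = f k := by
      have e : D * ∑ i, w i * c i k = ∑ i, w i * (2 * (p i 0 * f 0 + p i 1 * f 1 + p i 2 * f 2) + D) * c i k
          - 2 * f 0 * ∑ i, w i * p i 0 * c i k - 2 * f 1 * ∑ i, w i * p i 1 * c i k
          - 2 * f 2 * ∑ i, w i * p i 2 * c i k := by
        simp only [Fin.sum_univ_four]
        ring
      rw [e, b3, d0, d1, d2]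
      fin_cases k <;> simp <;> ring
    have : W * (D * ∑ i, w i * c i k) = W * f k := by rw [key]
    rw [← this, ← mul_assoc, mul_comm W D, hW0, one_mul]
  have h2 : ∀ k, ∑ i, w i * (p i k - f k) = -W * f k := by
    intro k
    have : ∑ i, w i * (p i k - f k) = ∑ i, w i * p i k - (∑ i, w i) * f k := by
      rw [Finset.sum_mul, ← Finset.sum_sub_distrib]
      exact Finset.sum_congr rfl fun i _ => by ring
    rw [this, m2 k, ← hWdef]
    ring
  have h3 : ∀ k l, ∑ i, w i * (p i k - f k) * c i l =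
      (if k = l then -1 / 2 else 0) - W * f k * f l := by
    intro k l
    have : ∑ i, w i * (p i k - f k) * c i l =
        ∑ i, w i * p i k * c i l - f k * ∑ i, w i * c i l := by
      rw [Finset.mul_sum, ← Finset.sum_sub_distrib]
      exact Finset.sum_congr rfl fun i _ => by ring
    rw [this, m4 k l, h1 l]
    ring
  have hpos : ∀ i, 0 < w i := fun i =>
    weight_pos (fun i k => p i k - f k) c f w W hp hc rfl h1 h2 h3
      (by rw [mul_comm]; exact hW0) hWpos i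
  -- the final contradiction
  have hterm : ∀ i, 0 ≤ w i * (1 + ((p i 0 - f 0) * c i 0 + (p i 1 - f 1) * c i 1 +
      (p i 2 - f 2) * c i 2)) := by
    intro i
    refine mul_nonneg (hpos i).le ?_
    nlinarith [hp i, hc i, sq_nonneg (p i 0 - f 0 + c i 0), sq_nonneg (p i 1 - f 1 + c i 1),
      sq_nonneg (p i 2 - f 2 + c i 2)]
  have hsum := Finset.sum_nonneg fun i (_ : i ∈ Finset.univ) => hterm i
  have heq : ∑ i, w i * (1 + ((p i 0 - f 0) * c i 0 + (p i 1 - f 1) * c i 1 +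
      (p i 2 - f 2) * c i 2)) = -1 / 2 := by
    have e0 := h3 0 0
    have e1 := h3 1 1
    have e2 := h3 2 2
    rw [if_pos rfl] at e0 e1 e2
    have : ∑ i, w i * (1 + ((p i 0 - f 0) * c i 0 + (p i 1 - f 1) * c i 1 +
      (p i 2 - f 2) * c i 2)) = ∑ i, w i + ∑ i, w i * (p i 0 - f 0) * c i 0 +
        ∑ i, w i * (p i 1 - f 1) * c i 1 + ∑ i, w i * (p i 2 - f 2) * c i 2 := by
      rw [← Finset.sum_add_distrib, ← Finset.sum_add_distrib, ← Finset.sum_add_distrib]
      exact Finset.sum_congr rfl fun i _ => by ring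
    rw [this, e0, e1, e2, ← hWdef]
    linear_combination hW0
  linarith


/-- **Five unit spheres.** If `p i` is on the unit spheres with centres `c j`, `j ≠ i`, then one of
the points is on all five spheres. -/
theorem five (c p : Fin 5 → EuclideanSpace ℝ (Fin 3))
    (h : ∀ i j, i ≠ j → dist (p i) (c j) = 1) : ∃ i, dist (p i) (c i) = 1 := by
  by_contra hne
  push Not at hne
  have hd : ∀ x y : EuclideanSpace ℝ (Fin 3), dist x y ^ 2 =
      (x 0 - y 0) ^ 2 + (x 1 - y 1) ^ 2 + (x 2 - y 2) ^ 2 := by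
    intro x y
    rw [EuclideanSpace.dist_eq, Real.sq_sqrt (Finset.sum_nonneg fun i _ => sq_nonneg _),
      Fin.sum_univ_three]
    simp only [Real.dist_eq, sq_abs]
  have hd1 : ∀ i j, i ≠ j → (p i 0 - c j 0) ^ 2 + (p i 1 - c j 1) ^ 2 + (p i 2 - c j 2) ^ 2 = 1 := by
    intro i j hij
    rw [← hd, h i j hij, one_pow]
  have hd2 : ∀ i, (p i 0 - c i 0) ^ 2 + (p i 1 - c i 1) ^ 2 + (p i 2 - c i 2) ^ 2 - 1 ≠ 0 := by
    intro i h0
    apply hne i
    rw [← hd] at h0
    have h1 : dist (p i) (c i) ^ 2 = 1 := by linarith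
    exact (sq_eq_sq₀ dist_nonneg zero_le_one).1 (by rw [h1, one_pow])
  let t : Fin 5 → ℝ := fun i => (p i 0 - c i 0) ^ 2 + (p i 1 - c i 1) ^ 2 + (p i 2 - c i 2) ^ 2 - 1
  have hfr : ∀ k : Fin 5, (-(t k)) * ∑ i, (t (k.succAbove i))⁻¹ = 1 ∧ ¬ 0 < -(t k) := by
    intro k
    have := frame (fun i l => p (k.succAbove i) l - p k l) (fun i l => c (k.succAbove i) l - p k l)
      (fun l => c k l - p k l) (fun i => (t (k.succAbove i))⁻¹)
      (by
        intro i
        have := hd1 k (k.succAbove i) (Fin.succAbove_ne k i).symm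
        simp only
        linear_combination this)
      (by
        intro i
        have := hd1 (k.succAbove i) k (Fin.succAbove_ne k i)
        simp only
        linear_combination this)
      (by
        intro i j
        simp only
        by_cases hij : i = j
        · subst hij
          rw [if_pos rfl]
          have : (p (k.succAbove i) 0 - p k 0 - (c (k.succAbove i) 0 - p k 0)) ^ 2 +
              (p (k.succAbove i) 1 - p k 1 - (c (k.succAbove i) 1 - p k 1)) ^ 2 +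
              (p (k.succAbove i) 2 - p k 2 - (c (k.succAbove i) 2 - p k 2)) ^ 2 - 1 =
              t (k.succAbove i) := by
            simp only [t]; ring
          rw [this]
          exact inv_mul_cancel₀ (hd2 _)
        · rw [if_neg hij]
          have := hd1 (k.succAbove i) (k.succAbove j) (fun h => hij (Fin.succAbove_right_injective h))
          have h2 : (p (k.succAbove i) 0 - p k 0 - (c (k.succAbove j) 0 - p k 0)) ^ 2 +
              (p (k.succAbove i) 1 - p k 1 - (c (k.succAbove j) 1 - p k 1)) ^ 2 +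
              (p (k.succAbove i) 2 - p k 2 - (c (k.succAbove j) 2 - p k 2)) ^ 2 - 1 = 0 := by
            linear_combination this
          rw [h2, mul_zero])
    have e : 1 - ((c k 0 - p k 0) ^ 2 + (c k 1 - p k 1) ^ 2 + (c k 2 - p k 2) ^ 2) = -(t k) := by
      simp only [t]; ring
    simp only at this
    rw [e] at this
    exact this
  have htpos : ∀ k, 0 < t k := by
    intro k
    have h1 := (hfr k).2
    push Not at h1
    exact lt_of_le_of_ne (by linarith) (hd2 k).symm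
  have h1 := (hfr 0).1
  have h2 : 0 ≤ ∑ i, (t ((0 : Fin 5).succAbove i))⁻¹ :=
    Finset.sum_nonneg fun i _ => (inv_pos.2 (htpos _)).le
  have h3 := htpos 0
  nlinarith


/-- Five centres in a family all of whose quadruples have a common point. -/
lemma five_set (S : Set (EuclideanSpace ℝ (Fin 3)))
    (h : ∀ T : Set (EuclideanSpace ℝ (Fin 3)), T ⊆ S → T.encard = 4 →
        ∃ p : EuclideanSpace ℝ (Fin 3), ∀ c ∈ T, p ∈ Metric.sphere c 1)
    (T : Set (EuclideanSpace ℝ (Fin 3))) (hT : T ⊆ S) (hT5 : T.encard = 5) :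
    ∃ p : EuclideanSpace ℝ (Fin 3), ∀ c ∈ T, p ∈ Metric.sphere c 1 := by
  have hfin : T.Finite := Set.finite_of_encard_eq_coe hT5
  have hcard : Nat.card T = 5 := by
    rw [Nat.card_coe_set_eq, Set.ncard_eq_toFinset_card _ hfin]
    have := hfin.encard_eq_coe_toFinset_card
    rw [hT5] at this
    exact_mod_cast this.symm
  have := hfin.to_subtype
  let e : Fin 5 ≃ T := (Finite.equivFinOfCardEq hcard).symm
  have hp : ∀ i : Fin 5, ∃ p : EuclideanSpace ℝ (Fin 3), ∀ j, i ≠ j → dist p (e j) = 1 := by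
    intro i
    obtain ⟨p, hp⟩ := h (T \ {(e i : EuclideanSpace ℝ (Fin 3))}) (Set.sdiff_subset.trans hT) (by
      have h1 := Set.encard_sdiff_singleton_add_one (e i).2
      rw [hT5] at h1
      have h2 : (5 : ℕ∞) = 4 + 1 := by norm_num
      rw [h2] at h1
      exact ENat.add_left_injective_of_ne_top (by simp) h1)
    refine ⟨p, fun j hij => ?_⟩
    have := hp (e j) ⟨(e j).2, fun h1 => hij (e.injective (Subtype.ext h1)).symm⟩
    exact this
  choose p hp using hp
  obtain ⟨i, hi⟩ := five (fun j => (e j : EuclideanSpace ℝ (Fin 3))) p (fun i j hij => hp i j hij)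
  refine ⟨p i, fun c hc => ?_⟩
  obtain ⟨j, hj⟩ := e.surjective ⟨c, hc⟩
  rw [Metric.mem_sphere]
  by_cases hij : i = j
  · subst hij
    have : (e i : EuclideanSpace ℝ (Fin 3)) = c := by rw [hj]
    rw [← this]; exact hi
  · have : (e j : EuclideanSpace ℝ (Fin 3)) = c := by rw [hj]
    rw [← this]; exact hp i j hij

/-- The coefficients of the equation of the unit sphere with centre `c`. -/
noncomputable def eqn (c : EuclideanSpace ℝ (Fin 3)) : Fin 5 → ℝ :=
  ![1, -2 * c 0, -2 * c 1, -2 * c 2, c 0 ^ 2 + c 1 ^ 2 + c 2 ^ 2 - 1]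

lemma mem_sphere_iff (c x : EuclideanSpace ℝ (Fin 3)) : x ∈ Metric.sphere c 1 ↔
    ∑ k, eqn c k * (![x 0 ^ 2 + x 1 ^ 2 + x 2 ^ 2, x 0, x 1, x 2, 1] : Fin 5 → ℝ) k = 0 := by
  rw [Metric.mem_sphere]
  have hd : dist x c ^ 2 = (x 0 - c 0) ^ 2 + (x 1 - c 1) ^ 2 + (x 2 - c 2) ^ 2 := by
    rw [EuclideanSpace.dist_eq, Real.sq_sqrt (Finset.sum_nonneg fun i _ => sq_nonneg _),
      Fin.sum_univ_three]
    simp only [Real.dist_eq, sq_abs]
  have h1 : dist x c = 1 ↔ dist x c ^ 2 = 1 := by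
    constructor
    · intro h; rw [h, one_pow]
    · intro h
      exact (sq_eq_sq₀ dist_nonneg zero_le_one).1 (by rw [h, one_pow])
  rw [h1, hd]
  simp only [eqn, Fin.sum_univ_five, Matrix.cons_val_zero, Matrix.cons_val_one, Matrix.cons_val]
  constructor <;> intro h <;> linear_combination h

lemma eqn_injective : Function.Injective eqn := by
  intro c c' h
  have h1 := congrFun h 1
  have h2 := congrFun h 2
  have h3 := congrFun h 3
  simp only [eqn, Matrix.cons_val_one, Matrix.cons_val] at h1 h2 h3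
  ext i
  fin_cases i
  · simp only [Fin.zero_eta]; linarith
  · simp only [Fin.mk_one]; linarith
  · simp only [Fin.reduceFinMk]; linarith

/-- The reduction of the general case to families of five spheres. -/
theorem all (S : Set (EuclideanSpace ℝ (Fin 3))) (hS : 5 ≤ S.encard)
    (h : ∀ T : Set (EuclideanSpace ℝ (Fin 3)), T ⊆ S → T.encard = 5 →
        ∃ p : EuclideanSpace ℝ (Fin 3), ∀ c ∈ T, p ∈ Metric.sphere c 1) :
    ∃ p : EuclideanSpace ℝ (Fin 3), ∀ c ∈ S, p ∈ Metric.sphere c 1 := by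
  obtain ⟨b, hbS, hspan, hlin⟩ := exists_linearIndependent ℝ (eqn '' S)
  obtain ⟨T₀, hT₀S, hT₀⟩ : ∃ T₀ ⊆ S, eqn '' T₀ = b := Set.subset_image_iff.1 hbS
  have hb5 : b.encard ≤ 5 := by
    have hf : b.Finite := hlin.setFinite
    have := hf.fintype
    have h1 := hlin.fintype_card_le_finrank
    rw [Module.finrank_fin_fun] at h1
    rw [Set.encard_eq_coe_toFinset_card, Set.toFinset_card]
    exact_mod_cast h1
  have hT₀5 : T₀.encard ≤ 5 := by
    rw [← eqn_injective.encard_image, hT₀]; exact hb5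
  obtain ⟨T, hT₀T, hTS, hT5⟩ := Set.exists_superset_subset_encard_eq hT₀S hT₀5 hS
  obtain ⟨p, hp⟩ := h T hTS hT5
  refine ⟨p, fun c hc => ?_⟩
  rw [mem_sphere_iff]
  -- the equations that `p` satisfies form a subspace
  let φ : (Fin 5 → ℝ) →ₗ[ℝ] ℝ :=
    { toFun := fun v => ∑ k, v k *
        (![p 0 ^ 2 + p 1 ^ 2 + p 2 ^ 2, p 0, p 1, p 2, 1] : Fin 5 → ℝ) k
      map_add' := fun u v => by
        rw [← Finset.sum_add_distrib]
        exact Finset.sum_congr rfl fun k _ => by simp only [Pi.add_apply]; ring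
      map_smul' := fun a v => by
        simp only [RingHom.id_apply, smul_eq_mul]
        rw [Finset.mul_sum]
        exact Finset.sum_congr rfl fun k _ => by simp only [Pi.smul_apply, smul_eq_mul]; ring }
  have hker : Submodule.span ℝ b ≤ LinearMap.ker φ := by
    rw [Submodule.span_le]
    intro v hv
    rw [← hT₀] at hv
    obtain ⟨c', hc', rfl⟩ := hv
    exact (mem_sphere_iff c' p).1 (hp c' (hT₀T hc'))
  have hmem : eqn c ∈ Submodule.span ℝ b := by
    rw [hspan]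
    exact Submodule.subset_span (Set.mem_image_of_mem _ hc)
  exact hker hmem

end Pool.Agent.X160.UnitSpheres
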