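import Mathlib

/-! The edges at a vertex of a pointed polyhedral cone generate the tangent cone. -/

namespace Pool.Agent.X160.Cp

set_option maxHeartbeats 400000

variable {V : Type} [Fintype V] [DecidableEq V] {E : Type} [AddCommGroup E] [Module ℝ E]

/-- nonnegative combinations -/
noncomputable def L (n : V → E) (c : V → ℝ) : E := ∑ w, c w • n w

theorem L_add (n : V → E) (c d : V → ℝ) : L n (c + d) = L n c + L n d := by
  unfold L
  rw [← Finset.sum_add_distrib]
  exact Finset.sum_congr rfl fun w _ => add_smul _ _ _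

theorem L_smul (n : V → E) (r : ℝ) (c : V → ℝ) : L n (r • c) = r • L n c := by
  unfold L
  rw [Finset.smul_sum]
  exact Finset.sum_congr rfl fun w _ => by simp [mul_smul]

theorem L_single (n : V → E) (u : V) (r : ℝ) : L n (Pi.single u r) = r • n u := by
  unfold L
  rw [Finset.sum_eq_single u]
  · simp
  · intro w _ hw
    simp [hw]
  · simp

theorem L_sum (n : V → E) {ι : Type} (s : Finset ι) (f : ι → V → ℝ) :
    L n (∑ i ∈ s, f i) = ∑ i ∈ s, L n (f i) := by
  classical
  induction s using Finset.induction_on with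
  | empty => simp [L]
  | insert a s ha ih => rw [Finset.sum_insert ha, Finset.sum_insert ha, L_add, ih]

/-- `u` is a neighbour of `v`: nonnegative combinations lying in the cone of `n v`, `n u` only
involve `v` and `u`. -/
def AdjC (n : V → E) (v u : V) : Prop :=
  ∀ c : V → ℝ, 0 ≤ c → ∀ a b : ℝ, 0 ≤ a → 0 ≤ b → L n c = a • n v + b • n u →
    ∀ w, w ≠ v → w ≠ u → c w = 0

theorem P2' {n : V → E} (P2 : ∀ v, ∀ c : V → ℝ, 0 ≤ c → L n c = n v → ∀ w, w ≠ v → c w = 0)
    {v : V} {c : V → ℝ} (hc : 0 ≤ c) {t : ℝ} (ht : 0 < t) (h : L n c = t • n v) :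
    ∀ w, w ≠ v → c w = 0 := by
  intro w hw
  have h1 : L n (t⁻¹ • c) = n v := by
    rw [L_smul, h, smul_smul, inv_mul_cancel₀ ht.ne', one_smul]
  have h2 : 0 ≤ t⁻¹ • c := by
    intro x
    have := hc x
    simp only [Pi.zero_apply, Pi.smul_apply, smul_eq_mul] at *
    positivity
  have h3 := P2 v _ h2 h1 w hw
  simp only [Pi.smul_apply, smul_eq_mul, mul_eq_zero] at h3
  rcases h3 with h3 | h3
  · exact absurd h3 (inv_ne_zero ht.ne')
  · exact h3

/-- generation of all vertices from `S` modulo `v` -/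
def Gen (n : V → E) (v : V) (S : Finset V) : Prop :=
  ∀ w, w ≠ v → ∃ d : V → ℝ, 0 ≤ d ∧ (∀ u, u ∉ S → d u = 0) ∧ ∃ t : ℝ, 0 ≤ t ∧
    L n d = n w + t • n v

theorem not_adj {n : V → E} (P1 : ∀ c : V → ℝ, 0 ≤ c → L n c = 0 → c = 0)
    (P2 : ∀ v, ∀ c : V → ℝ, 0 ≤ c → L n c = n v → ∀ w, w ≠ v → c w = 0) {v u : V} (huv : u ≠ v)
    (hna : ¬ AdjC n v u) :
    ∃ c : V → ℝ, 0 ≤ c ∧ c v = 0 ∧ c u = 0 ∧ ∃ m : ℝ, 0 < m ∧ L n c = n u + m • n v := by
  unfold AdjC at hna
  push Not at hna
  obtain ⟨c, hc, a, b, ha, hb, hL, w0, hw0v, hw0u, hw0⟩ := hna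
  have hw0p : 0 < c w0 := lt_of_le_of_ne (hc w0) (Ne.symm hw0)
  -- remove the coefficients at `v`, `u`
  set c' : V → ℝ := fun w => if w = v ∨ w = u then 0 else c w with hc'
  have hc'0 : 0 ≤ c' := by
    intro w
    rw [hc']
    simp only [Pi.zero_apply]
    split_ifs
    · exact le_refl _
    · exact hc w
  have hc'v : c' v = 0 := by simp [hc']
  have hc'u : c' u = 0 := by simp [hc']
  have hc'w : c' w0 = c w0 := by simp [hc', hw0v, hw0u]
  have hdec : c = c' + Pi.single v (c v) + Pi.single u (c u) := by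
    funext w
    by_cases h1 : w = v
    · subst h1
      simp [hc'v, Ne.symm huv]
    · by_cases h2 : w = u
      · subst h2
        simp [hc'u, h1]
      · simp [hc', h1, h2]
  have hL' : L n c' = (a - c v) • n v + (b - c u) • n u := by
    rw [hdec, L_add, L_add, L_single, L_single] at hL
    simp only [sub_smul]
    have : L n c' + c v • n v + c u • n u = a • n v + b • n u := hL
    rw [← sub_eq_zero] at this ⊢
    rw [← this]
    abel
  -- signs
  have hbpos : 0 < b - c u := by
    by_contra hb'
    push Not at hb'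
    have hx : L n (c' + Pi.single u (c u - b)) = (a - c v) • n v := by
      rw [L_add, L_single, hL']
      rw [← sub_eq_zero]
      simp only [sub_smul]
      abel
    have hx0 : 0 ≤ c' + Pi.single u (c u - b) := by
      refine add_nonneg hc'0 ?_
      rw [Pi.single_nonneg]
      linarith
    rcases le_or_gt (a - c v) 0 with h1 | h1
    · have hy : L n (c' + Pi.single u (c u - b) + Pi.single v (c v - a)) = 0 := by
        rw [L_add, hx, L_single, ← add_smul]
        ring_nf
        simp
      have hy0 : 0 ≤ c' + Pi.single u (c u - b) + Pi.single v (c v - a) := by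
        refine add_nonneg hx0 ?_
        rw [Pi.single_nonneg]
        linarith
      have := congrFun (P1 _ hy0 hy) w0
      simp [hw0v, hw0u, hc'w] at this
      exact hw0 this
    · have := P2' P2 hx0 h1 hx w0 hw0v
      simp [hw0u, hc'w] at this
      exact hw0 this
  have hapos : 0 < a - c v := by
    by_contra ha'
    push Not at ha'
    have hx : L n (c' + Pi.single v (c v - a)) = (b - c u) • n u := by
      rw [L_add, L_single, hL']
      rw [← sub_eq_zero]
      simp only [sub_smul]
      abel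
    have hx0 : 0 ≤ c' + Pi.single v (c v - a) := by
      refine add_nonneg hc'0 ?_
      rw [Pi.single_nonneg]
      linarith
    have := P2' P2 hx0 hbpos hx w0 hw0u
    simp [hw0v, hc'w] at this
    exact hw0 this
  refine ⟨(b - c u)⁻¹ • c', ?_, ?_, ?_, (b - c u)⁻¹ * (a - c v), by positivity, ?_⟩
  · intro w
    have := hc'0 w
    simp only [Pi.zero_apply, Pi.smul_apply, smul_eq_mul] at *
    positivity
  · simp [hc'v]
  · simp [hc'u]
  · rw [L_smul, hL', smul_add, smul_smul, smul_smul, inv_mul_cancel₀ hbpos.ne', one_smul, add_comm]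

theorem gen_erase {n : V → E} (P1 : ∀ c : V → ℝ, 0 ≤ c → L n c = 0 → c = 0)
    (P2 : ∀ v, ∀ c : V → ℝ, 0 ≤ c → L n c = n v → ∀ w, w ≠ v → c w = 0) {v u : V} {S : Finset V}
    (hG : Gen n v S) (hv : v ∉ S) (hu : u ∈ S) (hna : ¬ AdjC n v u) : Gen n v (S.erase u) := by
  have huv : u ≠ v := fun h => hv (h ▸ hu)
  obtain ⟨a, ha0, hav, -, m, hm, hLa⟩ := not_adj P1 P2 huv hna
  -- choose the representations of all vertices
  have hch : ∀ w : V, ∃ d : V → ℝ, ∃ t : ℝ, 0 ≤ d ∧ (∀ u, u ∉ S → d u = 0) ∧ 0 ≤ t ∧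
      (w ≠ v → L n d = n w + t • n v) := by
    intro w
    by_cases hw : w = v
    · exact ⟨0, 0, le_refl _, fun _ _ => rfl, le_refl _, fun h => absurd hw h⟩
    · obtain ⟨d, h1, h2, t, h3, h4⟩ := hG w hw
      exact ⟨d, t, h1, h2, h3, fun _ => h4⟩
  choose d t hd0 hdS ht0 hdL using hch
  set D : V → ℝ := ∑ w, a w • d w with hD
  set M : ℝ := m + ∑ w, a w * t w with hM
  have hD0 : 0 ≤ D := Finset.sum_nonneg fun w _ => smul_nonneg (ha0 w) (hd0 w)
  have hDS : ∀ s, s ∉ S → D s = 0 := by
    intro s hs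
    rw [hD, Finset.sum_apply]
    refine Finset.sum_eq_zero fun w _ => ?_
    simp [hdS w s hs]
  have hM0 : 0 < M := by
    have : 0 ≤ ∑ w, a w * t w := Finset.sum_nonneg fun w _ => mul_nonneg (ha0 w) (ht0 w)
    linarith
  have hLD : L n D = n u + M • n v := by
    rw [hD, L_sum]
    have h1 : ∀ w ∈ Finset.univ, L n (a w • d w) = a w • n w + (a w * t w) • n v := by
      intro w _
      rw [L_smul]
      by_cases hw : w = v
      · subst hw
        simp [hav]
      · rw [hdL w hw, smul_add, smul_smul]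
    rw [Finset.sum_congr rfl h1, Finset.sum_add_distrib, ← Finset.sum_smul]
    have h2 : ∑ w, a w • n w = n u + m • n v := hLa
    rw [h2, hM, add_smul, add_assoc]
  have hDu : D u < 1 := by
    by_contra hc
    push Not at hc
    -- `M n_v = (D_u - 1) n_u + ∑ ...`
    have h1 : L n (D + Pi.single u (-1)) = M • n v := by
      rw [L_add, L_single, hLD]
      simp
    have h0 : 0 ≤ D + Pi.single u (-1) := by
      intro w
      by_cases hw : w = u
      · subst hw
        simpa using hc
      · have := hD0 w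
        simpa [hw] using this
    have h2 := P2' P2 h0 hM0 h1
    have h3 : D + Pi.single u (-1) = 0 := by
      funext w
      by_cases hw : w = v
      · subst hw
        simp [hDS w hv, Ne.symm huv]
      · exact h2 w hw
    rw [h3] at h1
    have h4 : L n (Pi.single v M) = 0 := by
      rw [L_single, ← h1]
      simp [L]
    have h5 : 0 ≤ (Pi.single v M : V → ℝ) := by
      rw [Pi.single_nonneg]
      exact hM0.le
    have := congrFun (P1 _ h5 h4) v
    simp at this
    linarith
  -- the representation of `u` without `u`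
  set r : ℝ := (1 - D u)⁻¹ with hr
  have hr0 : 0 < r := by
    rw [hr]
    exact inv_pos.2 (by linarith)
  set D' : V → ℝ := r • (D + Pi.single u (-(D u))) with hD'
  have hD'0 : 0 ≤ D' := by
    refine smul_nonneg hr0.le ?_
    intro w
    by_cases hw : w = u
    · subst hw
      simp
    · have := hD0 w
      simpa [hw] using this
  have hD'S : ∀ s, s ∉ S.erase u → D' s = 0 := by
    intro s hs
    by_cases hsu : s = u
    · subst hsu
      simp [hD']
    · have : s ∉ S := fun h => hs (Finset.mem_erase.2 ⟨hsu, h⟩)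
      simp [hD', hDS s this, hsu]
  have hLD' : L n D' = n u + (r * M) • n v := by
    rw [hD', L_smul, L_add, L_single, hLD]
    have h1 : r • n u = n u + (r * D u) • n u := by
      have : r = 1 + r * D u := by
        have : r * (1 - D u) = 1 := by
          rw [hr]
          exact inv_mul_cancel₀ (by linarith)
        linarith
      conv_lhs => rw [this]
      rw [add_smul, one_smul]
    rw [smul_add, smul_add, h1, smul_smul, smul_smul]
    simp only [mul_neg, neg_smul]
    abel
  intro w hw
  refine ⟨(d w + Pi.single u (-(d w u))) + d w u • D', ?_, ?_, t w + d w u * (r * M), ?_, ?_⟩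
  · refine add_nonneg ?_ (smul_nonneg (hd0 w u) hD'0)
    intro x
    by_cases hx : x = u
    · subst hx
      simp
    · have := hd0 w x
      simpa [hx] using this
  · intro s hs
    have h1 := hD'S s hs
    by_cases hsu : s = u
    · subst hsu
      simp [h1]
    · have : s ∉ S := fun h => hs (Finset.mem_erase.2 ⟨hsu, h⟩)
      simp [h1, hdS w s this, hsu]
  · have := ht0 w
    have := hd0 w u
    simp only [Pi.zero_apply] at this
    positivity
  · rw [L_add, L_add, L_single, L_smul, hLD', hdL w hw, smul_add, smul_smul, add_smul]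
    simp only [neg_smul]
    abel

theorem edge {n : V → E} (P1 : ∀ c : V → ℝ, 0 ≤ c → L n c = 0 → c = 0)
    (P2 : ∀ v, ∀ c : V → ℝ, 0 ≤ c → L n c = n v → ∀ w, w ≠ v → c w = 0) (v : V) :
    ∀ w, w ≠ v → ∃ d : V → ℝ, 0 ≤ d ∧ (∀ u, d u ≠ 0 → u ≠ v ∧ AdjC n v u) ∧
      ∃ t : ℝ, 0 ≤ t ∧ L n d = n w + t • n v := by
  have main : ∀ k : ℕ, ∀ S : Finset V, S.card = k → v ∉ S → Gen n v S →
      ∃ S' : Finset V, v ∉ S' ∧ Gen n v S' ∧ ∀ u ∈ S', AdjC n v u := by
    intro k
    induction k with
    | zero =>
      intro S hS hv hG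
      rw [Finset.card_eq_zero] at hS
      subst hS
      exact ⟨∅, hv, hG, by simp⟩
    | succ k ih =>
      intro S hS hv hG
      by_cases hall : ∀ u ∈ S, AdjC n v u
      · exact ⟨S, hv, hG, hall⟩
      · push Not at hall
        obtain ⟨u, hu, hna⟩ := hall
        refine ih (S.erase u) ?_ (fun h => hv (Finset.mem_of_mem_erase h))
          (gen_erase P1 P2 hG hv hu hna)
        rw [Finset.card_erase_of_mem hu, hS]
        rfl
  obtain ⟨S, hv, hG, hS⟩ := main _ (Finset.univ.erase v) rfl (by simp) (by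
    intro w hw
    refine ⟨Pi.single w 1, ?_, ?_, 0, le_refl _, ?_⟩
    · rw [Pi.single_nonneg]
      exact zero_le_one
    · intro u hu
      have : u = v := by
        by_contra h
        exact hu (by simp [h])
      subst this
      simp [Ne.symm hw]
    · rw [L_single]
      simp)
  intro w hw
  obtain ⟨d, h1, h2, t, h3, h4⟩ := hG w hw
  refine ⟨d, h1, ?_, t, h3, h4⟩
  intro u hu
  have huS : u ∈ S := by
    by_contra h
    exact hu (h2 u h)
  exact ⟨fun h => hv (h ▸ huS), hS u huS⟩

end Pool.Agent.X160.Cp
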