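import Pool.Agent.X160.Cp

/-! Shallow circle polyhedra: definitions and the positive part. -/

namespace Pool.Agent.X160.Cq

open Pool.Agent.X160.Cp

set_option maxHeartbeats 400000

/-- Lorentz form. -/
def lor (u v : Fin 4 → ℝ) : ℝ := u 0 * v 0 + u 1 * v 1 + u 2 * v 2 - u 3 * v 3

/-- oriented disk -/
def disk (n : Fin 4 → ℝ) : Set (Fin 3 → ℝ) :=
  {p | p 0 ^ 2 + p 1 ^ 2 + p 2 ^ 2 = 1 ∧ 0 < n 0 * p 0 + n 1 * p 1 + n 2 * p 2 - n 3}

/-- inversive distance -/
noncomputable def inv (m n : Fin 4 → ℝ) : ℝ :=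
  -lor m n / (Real.sqrt (lor m m) * Real.sqrt (lor n n))

theorem lor_add (x y z : Fin 4 → ℝ) : lor x (y + z) = lor x y + lor x z := by
  simp [lor]; ring

theorem lor_smul (x y : Fin 4 → ℝ) (r : ℝ) : lor x (r • y) = r * lor x y := by
  simp [lor]; ring

theorem lor_comm (x y : Fin 4 → ℝ) : lor x y = lor y x := by
  simp [lor]; ring

theorem lor_sum {V : Type} [Fintype V] (x : Fin 4 → ℝ) (n : V → Fin 4 → ℝ) (c : V → ℝ) :
    lor x (L n c) = ∑ w, c w * lor x (n w) := by
  have : lor x (L n c) = (LinearMap.mk (AddHom.mk (fun y => lor x y) (lor_add x))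
      (fun r y => lor_smul x y r) : (Fin 4 → ℝ) →ₗ[ℝ] ℝ) (L n c) := rfl
  rw [this, L, map_sum]
  refine Finset.sum_congr rfl fun w _ => ?_
  rw [map_smul]
  rfl

theorem cs3 (a b c x y z : ℝ) : (a * x + b * y + c * z) ^ 2 ≤
    (a ^ 2 + b ^ 2 + c ^ 2) * (x ^ 2 + y ^ 2 + z ^ 2) := by
  nlinarith [sq_nonneg (a * y - b * x), sq_nonneg (a * z - c * x), sq_nonneg (b * z - c * y)]

/-- a future causal vector is nonpositive on the future light cone -/
theorem causal {s : Fin 4 → ℝ} (hs : lor s s ≤ 0) (h3 : 0 < s 3) {p : Fin 3 → ℝ}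
    (hp : p 0 ^ 2 + p 1 ^ 2 + p 2 ^ 2 = 1) : s 0 * p 0 + s 1 * p 1 + s 2 * p 2 - s 3 ≤ 0 := by
  have h1 := cs3 (s 0) (s 1) (s 2) (p 0) (p 1) (p 2)
  rw [hp, mul_one] at h1
  simp only [lor] at hs
  have h2 : (s 0 * p 0 + s 1 * p 1 + s 2 * p 2) ^ 2 ≤ s 3 ^ 2 := by nlinarith
  have := abs_le_of_sq_le_sq h2 h3.le
  linarith [(abs_le.1 this).2]

theorem causal2 {s r : Fin 4 → ℝ} (hs : lor s s ≤ 0) (h3 : 0 < s 3) (hr : lor r r ≤ 0)
    (hr3 : r 3 < 0) : 0 ≤ lor s r := by
  have h1 := cs3 (s 0) (s 1) (s 2) (r 0) (r 1) (r 2)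
  simp only [lor] at *
  have h2 : (s 0 * r 0 + s 1 * r 1 + s 2 * r 2) ^ 2 ≤ (s 3 * (-r 3)) ^ 2 := by
    have a1 : s 0 ^ 2 + s 1 ^ 2 + s 2 ^ 2 ≤ s 3 ^ 2 := by nlinarith
    have a2 : r 0 ^ 2 + r 1 ^ 2 + r 2 ^ 2 ≤ r 3 ^ 2 := by nlinarith
    have a3 : 0 ≤ r 0 ^ 2 + r 1 ^ 2 + r 2 ^ 2 := by positivity
    have := mul_le_mul a1 a2 a3 (by positivity)
    nlinarith
  have h4 := abs_le_of_sq_le_sq h2 (by nlinarith)
  linarith [(abs_le.1 h4).1]

section
variable {V : Type} [Fintype V]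

/-- the normalising factor -/
noncomputable def al (n : V → Fin 4 → ℝ) (v : V) : ℝ := (Real.sqrt (lor (n v) (n v)))⁻¹

/-- the sum of the normalised vectors -/
noncomputable def sm (n : V → Fin 4 → ℝ) (v w : V) : Fin 4 → ℝ := al n v • n v + al n w • n w

/-- normalised Gram matrix -/
noncomputable def gr (n : V → Fin 4 → ℝ) (v w : V) : ℝ := al n v * al n w * lor (n v) (n w)

variable {n : V → Fin 4 → ℝ}

theorem al_pos (hs : ∀ v, 0 < lor (n v) (n v)) (v : V) : 0 < al n v :=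
  inv_pos.2 (Real.sqrt_pos.2 (hs v))

theorem gr_self (hs : ∀ v, 0 < lor (n v) (n v)) (v : V) : gr n v v = 1 := by
  have h1 : Real.sqrt (lor (n v) (n v)) ≠ 0 := (Real.sqrt_pos.2 (hs v)).ne'
  have h2 : lor (n v) (n v) = Real.sqrt (lor (n v) (n v)) * Real.sqrt (lor (n v) (n v)) :=
    (Real.mul_self_sqrt (hs v).le).symm
  unfold gr al
  conv_lhs => rw [h2]
  have h3 : Real.sqrt (Real.sqrt (lor (n v) (n v)) * Real.sqrt (lor (n v) (n v))) =
      Real.sqrt (lor (n v) (n v)) := by rw [← h2]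
  rw [h3]
  field_simp

theorem gr_comm (v w : V) : gr n v w = gr n w v := by
  unfold gr
  rw [lor_comm]
  ring

theorem inv_eq (hs : ∀ v, 0 < lor (n v) (n v)) (v w : V) : inv (n v) (n w) = -gr n v w := by
  have h1 : Real.sqrt (lor (n v) (n v)) ≠ 0 := (Real.sqrt_pos.2 (hs v)).ne'
  have h2 : Real.sqrt (lor (n w) (n w)) ≠ 0 := (Real.sqrt_pos.2 (hs w)).ne'
  unfold inv gr al
  field_simp

theorem lor_sm (v w v' w' : V) : lor (sm n v w) (sm n v' w') =
    gr n v v' + gr n v w' + gr n w v' + gr n w w' := by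
  unfold sm gr
  rw [lor_add, lor_smul, lor_smul, lor_comm _ (n v'), lor_comm _ (n w'), lor_add, lor_add,
    lor_smul, lor_smul, lor_smul, lor_smul, lor_comm (n v') (n v), lor_comm (n v') (n w),
    lor_comm (n w') (n v), lor_comm (n w') (n w)]
  ring

theorem sm_causal (hs : ∀ v, 0 < lor (n v) (n v)) {v w : V} (h : gr n v w ≤ -1) :
    lor (sm n v w) (sm n v w) ≤ 0 := by
  rw [lor_sm, gr_self hs, gr_self hs, gr_comm w v]
  linarith

/-- no mixture of future and past -/
theorem no_mix (hs : ∀ v, 0 < lor (n v) (n v)) (hneg : ∀ v w, v ≠ w → gr n v w < 0)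
    {v w v' w' : V} (hvw : v ≠ w) (hvw' : v' ≠ w') (h : gr n v w ≤ -1) (h' : gr n v' w' ≤ -1)
    (h3 : 0 < sm n v w 3) (h3' : sm n v' w' 3 < 0) : False := by
  classical
  have key := causal2 (sm_causal hs h) h3 (sm_causal hs h') h3'
  rw [lor_sm] at key
  by_cases e1 : v = v'
  · subst e1
    by_cases e2 : w = w'
    · subst e2
      linarith
    · have a1 := gr_self hs v
      have a2 := gr_comm (n := n) w v
      have a3 := hneg w w' e2
      linarith
  · by_cases e3 : v = w'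
    · subst e3
      by_cases e4 : w = v'
      · subst e4
        have : sm n w v 3 = sm n v w 3 := by
          simp [sm]
          ring
        linarith
      · have a1 := gr_self hs v
        have a2 := gr_comm (n := n) w v
        have a3 := hneg w v' e4
        have a4 := gr_comm (n := n) v v'
        linarith
    · have b1 := hneg v v' e1
      have b2 := hneg v w' e3
      by_cases e5 : w = v'
      · subst e5
        have a1 := gr_self hs w
        linarith
      · by_cases e6 : w = w'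
        · subst e6
          have a1 := gr_self hs w
          have a2 := gr_comm (n := n) w v'
          linarith
        · have b3 := hneg w v' e5
          have b4 := hneg w w' e6
          linarith

theorem disj_of_pos (hs : ∀ v, 0 < lor (n v) (n v)) {v w : V} (h : gr n v w ≤ -1)
    (h3 : 0 < sm n v w 3) : disk (n v) ∩ disk (n w) = ∅ := by
  rw [Set.eq_empty_iff_forall_notMem]
  rintro p ⟨⟨hp, h1⟩, ⟨-, h2⟩⟩
  have := causal (sm_causal hs h) h3 hp
  have a1 := mul_pos (al_pos hs v) h1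
  have a2 := mul_pos (al_pos hs w) h2
  simp only [sm, Pi.add_apply, Pi.smul_apply, smul_eq_mul] at this
  nlinarith

theorem disj_of_neg (hs : ∀ v, 0 < lor (n v) (n v)) {v w : V} (h : gr n v w ≤ -1)
    (h3 : sm n v w 3 < 0) : disk (-n v) ∩ disk (-n w) = ∅ := by
  rw [Set.eq_empty_iff_forall_notMem]
  rintro p ⟨⟨hp, h1⟩, ⟨-, h2⟩⟩
  have hc : lor (-sm n v w) (-sm n v w) ≤ 0 := by
    have := sm_causal hs h
    simp only [lor, Pi.neg_apply] at *
    linarith
  have := causal hc (by simpa using h3) hp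
  have a1 := mul_pos (al_pos hs v) h1
  have a2 := mul_pos (al_pos hs w) h2
  simp only [sm, Pi.add_apply, Pi.smul_apply, smul_eq_mul, Pi.neg_apply] at this a1 a2
  nlinarith

theorem sm_ne (hs : ∀ v, 0 < lor (n v) (n v))
    (P1 : ∀ c : V → ℝ, 0 ≤ c → L n c = 0 → c = 0) {v w : V} (hvw : v ≠ w)
    (h : gr n v w ≤ -1) : sm n v w 3 ≠ 0 := by
  classical
  intro h3
  have hc := sm_causal hs h
  simp only [lor, h3] at hc
  have h0 : sm n v w 0 = 0 := by nlinarith [sq_nonneg (sm n v w 0), sq_nonneg (sm n v w 1), sq_nonneg (sm n v w 2)]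
  have h1 : sm n v w 1 = 0 := by nlinarith [sq_nonneg (sm n v w 0), sq_nonneg (sm n v w 1), sq_nonneg (sm n v w 2)]
  have h2 : sm n v w 2 = 0 := by nlinarith [sq_nonneg (sm n v w 0), sq_nonneg (sm n v w 1), sq_nonneg (sm n v w 2)]
  have hz : sm n v w = 0 := by
    funext i
    fin_cases i
    · exact h0
    · exact h1
    · exact h2
    · exact h3
  have hL : L n (Pi.single v (al n v) + Pi.single w (al n w)) = 0 := by
    rw [L_add, L_single, L_single]
    exact hz
  have hnn : 0 ≤ (Pi.single v (al n v) + Pi.single w (al n w) : V → ℝ) := by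
    refine add_nonneg ?_ ?_
    · rw [Pi.single_nonneg]
      exact (al_pos hs v).le
    · rw [Pi.single_nonneg]
      exact (al_pos hs w).le
  have := congrFun (P1 _ hnn hL) v
  simp [hvw] at this
  exact (al_pos hs v).ne' this

/-- the negative off-diagonal entries -/
theorem neg_all [DecidableEq V] (hs : ∀ v, 0 < lor (n v) (n v))
    (P1 : ∀ c : V → ℝ, 0 ≤ c → L n c = 0 → c = 0)
    (P2 : ∀ v, ∀ c : V → ℝ, 0 ≤ c → L n c = n v → ∀ w, w ≠ v → c w = 0)
    (hadj : ∀ v u, u ≠ v → AdjC n v u → lor (n v) (n u) < 0) :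
    ∀ v w, v ≠ w → lor (n v) (n w) < 0 := by
  intro v w hvw
  obtain ⟨d, hd0, hd, t, ht, hL⟩ := edge P1 P2 v w (Ne.symm hvw)
  have h1 : lor (n v) (L n d) = ∑ u, d u * lor (n v) (n u) := lor_sum _ _ _
  rw [hL, lor_add, lor_smul] at h1
  have h2 : ∀ u, d u * lor (n v) (n u) ≤ 0 := by
    intro u
    by_cases hu : d u = 0
    · rw [hu, zero_mul]
    · obtain ⟨h3, h4⟩ := hd u hu
      have h5 := hadj v u h3 h4
      have h6 := hd0 u
      simp only [Pi.zero_apply] at h6
      nlinarith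
  have h7 : ∃ u, d u ≠ 0 := by
    by_contra hc
    push Not at hc
    have hdz : d = 0 := funext hc
    rw [hdz] at hL
    have hz : L n (Pi.single w 1 + Pi.single v t) = 0 := by
      rw [L_add, L_single, L_single, one_smul, ← hL]
      simp [L]
    have hnn : 0 ≤ (Pi.single w 1 + Pi.single v t : V → ℝ) := by
      refine add_nonneg ?_ ?_
      · rw [Pi.single_nonneg]
        exact zero_le_one
      · rw [Pi.single_nonneg]
        exact ht
    have := congrFun (P1 _ hnn hz) w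
    simp [Ne.symm hvw] at this
  obtain ⟨u, hu⟩ := h7
  have h8 : d u * lor (n v) (n u) < 0 := by
    obtain ⟨h3, h4⟩ := hd u hu
    have h5 := hadj v u h3 h4
    have h6 : 0 < d u := lt_of_le_of_ne (hd0 u) (Ne.symm hu)
    nlinarith
  have h9 : ∑ u, d u * lor (n v) (n u) < 0 :=
    Finset.sum_neg' (fun u _ => h2 u) ⟨u, Finset.mem_univ u, h8⟩
  have h10 := mul_nonneg ht (hs v).le
  linarith

end

end Pool.Agent.X160.Cq
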