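import Pool.Agent.X160.Cq

/-! Shallow circle polyhedra: cones, adjacency, the dichotomy, and the octahedral example. -/

namespace Pool.Agent.X160.Cr

open Pool.Agent.X160.Cp Pool.Agent.X160.Cq

set_option maxHeartbeats 1000000

section
variable {V : Type} [Fintype V]

/-- The convex polyhedral cone generated by the vectors `n v`. -/
def cone (n : V → Fin 4 → ℝ) : Set (Fin 4 → ℝ) :=
  {x | ∃ c : V → ℝ, (∀ v, 0 ≤ c v) ∧ x = ∑ v, c v • n v}

/-- The (at most) two-dimensional cone spanned by two vectors. -/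
def cone2 (a b : Fin 4 → ℝ) : Set (Fin 4 → ℝ) :=
  {x | ∃ s t : ℝ, 0 ≤ s ∧ 0 ≤ t ∧ x = s • a + t • b}

/-- A convex c-polyhedron, given by the vectors `n v` spanning its vertex rays: a pointed convex
polyhedral cone in `ℝ^{3,1}` with nonempty interior whose extreme rays are the rays spanned by the
`n v`, which are spacelike and pairwise non-proportional. -/
structure IsConvexCPolyhedron (n : V → Fin 4 → ℝ) : Prop where
  spacelike : ∀ v, 0 < lor (n v) (n v)
  span_top : Submodule.span ℝ (Set.range n) = ⊤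
  pointed : ∀ x, x ∈ cone n → -x ∈ cone n → x = 0
  extreme : ∀ v, ∀ x ∈ cone n, ∀ y ∈ cone n, x + y = n v → ∃ t : ℝ, x = t • n v
  distinct : ∀ v w, v ≠ w → ∀ t : ℝ, n v ≠ t • n w

/-- `v` and `w` are adjacent: the cone spanned by `n v` and `n w` is a face (an edge of the
polyhedron) of the cone. -/
def Adj (n : V → Fin 4 → ℝ) (v w : V) : Prop :=
  v ≠ w ∧ ∀ x ∈ cone n, ∀ y ∈ cone n, x + y ∈ cone2 (n v) (n w) →
    x ∈ cone2 (n v) (n w) ∧ y ∈ cone2 (n v) (n w)

/-- The two conditions of shallowness for one pair of disks. -/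
def ShallowPair (m n : Fin 4 → ℝ) : Prop :=
  0 < inv m n ∧ (1 ≤ inv m n → disk m ∩ disk n = ∅)

/-- locally shallow: the conditions hold for adjacent pairs -/
def LocallyShallow (n : V → Fin 4 → ℝ) : Prop :=
  ∀ v w, Adj n v w → ShallowPair (n v) (n w)

/-- globally shallow: the conditions hold for all pairs -/
def GloballyShallow (n : V → Fin 4 → ℝ) : Prop :=
  ∀ v w, v ≠ w → ShallowPair (n v) (n w)

/-- Every facet hyperplane meets the interior of the light cone. -/
def Hyperbolic (n : V → Fin 4 → ℝ) : Prop :=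
  ∀ y : Fin 4 → ℝ, (∀ v, 0 ≤ lor y (n v)) →
    Module.finrank ℝ (Submodule.span ℝ (n '' {v | lor y (n v) = 0})) = 3 →
      ∃ z, lor z z < 0 ∧ lor y z = 0

variable {n : V → Fin 4 → ℝ}

theorem mem_cone {c : V → ℝ} (hc : 0 ≤ c) : L n c ∈ cone n := ⟨c, hc, rfl⟩

theorem p1 (h : IsConvexCPolyhedron n) : ∀ c : V → ℝ, 0 ≤ c → L n c = 0 → c = 0 := by
  classical
  intro c hc hL
  funext v
  have h1 : c v • n v ∈ cone n := by
    rw [← L_single]
    refine mem_cone ?_
    rw [Pi.single_nonneg]
    exact hc v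
  have h2 : -(c v • n v) ∈ cone n := by
    have : -(c v • n v) = L n (c + Pi.single v (-(c v))) := by
      rw [L_add, hL, L_single]
      simp
    rw [this]
    refine mem_cone ?_
    intro w
    by_cases hw : w = v
    · subst hw
      simp
    · have := hc w
      simpa [hw] using this
  have h3 := h.pointed _ h1 h2
  rcases smul_eq_zero.1 h3 with h4 | h4
  · exact h4
  · exfalso
    have := h.spacelike v
    rw [h4] at this
    simp [lor] at this

theorem p2 (h : IsConvexCPolyhedron n) :
    ∀ v, ∀ c : V → ℝ, 0 ≤ c → L n c = n v → ∀ w, w ≠ v → c w = 0 := by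
  classical
  intro v c hc hL w hw
  have h1 : c w • n w ∈ cone n := by
    rw [← L_single]
    refine mem_cone ?_
    rw [Pi.single_nonneg]
    exact hc w
  have h2 : L n (c + Pi.single w (-(c w))) ∈ cone n := by
    refine mem_cone ?_
    intro x
    by_cases hx : x = w
    · subst hx
      simp
    · have := hc x
      simpa [hx] using this
  obtain ⟨t, ht⟩ := h.extreme v _ h1 _ h2 (by
    rw [L_add, hL, L_single]
    simp)
  by_contra hcw
  apply h.distinct w v hw ((c w)⁻¹ * t)
  rw [mul_smul, ← ht, smul_smul, inv_mul_cancel₀ hcw, one_smul]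

theorem adj_of_adjC {v u : V} (huv : u ≠ v) (hA : AdjC n v u) : Adj n v u := by
  classical
  refine ⟨Ne.symm huv, ?_⟩
  have aux : ∀ c : V → ℝ, 0 ≤ c → (∀ w, w ≠ v → w ≠ u → c w = 0) →
      L n c ∈ cone2 (n v) (n u) := by
    intro c hc hz
    refine ⟨c v, c u, hc v, hc u, ?_⟩
    have : c = Pi.single v (c v) + Pi.single u (c u) := by
      funext w
      by_cases h1 : w = v
      · subst h1
        simp [Ne.symm huv]
      · by_cases h2 : w = u
        · subst h2
          simp [h1]
        · simp [h1, h2, hz w h1 h2]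
    conv_lhs => rw [this]
    rw [L_add, L_single, L_single]
  rintro x ⟨c, hc, rfl⟩ y ⟨d, hd, rfl⟩ ⟨a, b, ha, hb, hab⟩
  have hsum : L n (c + d) = a • n v + b • n u := by
    rw [L_add]
    exact hab
  have hz := hA (c + d) (add_nonneg hc hd) a b ha hb hsum
  have hz' : ∀ w, w ≠ v → w ≠ u → c w = 0 ∧ d w = 0 := by
    intro w h1 h2
    have h3 := hz w h1 h2
    have h4 := hc w
    have h5 := hd w
    simp only [Pi.add_apply] at h3
    constructor <;> linarith
  exact ⟨aux c hc fun w h1 h2 => (hz' w h1 h2).1, aux d hd fun w h1 h2 => (hz' w h1 h2).2⟩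

theorem lor_neg_of_inv (hs : ∀ v, 0 < lor (n v) (n v)) {v w : V} (h : 0 < inv (n v) (n w)) :
    lor (n v) (n w) < 0 := by
  rw [inv_eq hs] at h
  unfold gr at h
  have := mul_pos (al_pos hs v) (al_pos hs w)
  by_contra hc
  push Not at hc
  nlinarith [mul_nonneg this.le hc]

theorem gr_neg_of_lor (hs : ∀ v, 0 < lor (n v) (n v)) {v w : V} (h : lor (n v) (n w) < 0) :
    gr n v w < 0 := by
  unfold gr
  have := mul_pos (al_pos hs v) (al_pos hs w)
  nlinarith

theorem gr_all (h : IsConvexCPolyhedron n) (hl : LocallyShallow n) :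
    ∀ v w, v ≠ w → gr n v w < 0 := by
  classical
  intro v w hvw
  refine gr_neg_of_lor h.spacelike ?_
  refine neg_all h.spacelike (p1 h) (p2 h) ?_ v w hvw
  intro v u huv hA
  exact lor_neg_of_inv h.spacelike (hl v u (adj_of_adjC huv hA)).1

theorem inv_pos_all (h : IsConvexCPolyhedron n) (hl : LocallyShallow n) :
    ∀ v w, v ≠ w → 0 < inv (n v) (n w) := by
  intro v w hvw
  rw [inv_eq h.spacelike]
  have := gr_all h hl v w hvw
  linarith

theorem glob_of_pos (h : IsConvexCPolyhedron n) (hl : LocallyShallow n)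
    (hp : ∀ v w, v ≠ w → gr n v w ≤ -1 → 0 < sm n v w 3) : GloballyShallow n := by
  intro v w hvw
  refine ⟨inv_pos_all h hl v w hvw, fun h1 => ?_⟩
  rw [inv_eq h.spacelike] at h1
  have h2 : gr n v w ≤ -1 := by linarith
  exact disj_of_pos h.spacelike h2 (hp v w hvw h2)

theorem dichotomy (h : IsConvexCPolyhedron n) (hl : LocallyShallow n) :
    GloballyShallow n ∨ GloballyShallow (fun v => -n v) := by
  by_cases hp : ∀ v w, v ≠ w → gr n v w ≤ -1 → 0 < sm n v w 3
  · exact Or.inl (glob_of_pos h hl hp)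
  · right
    push Not at hp
    obtain ⟨v0, w0, hvw0, hg0, h0⟩ := hp
    have h0' : sm n v0 w0 3 < 0 :=
      lt_of_le_of_ne h0 (sm_ne h.spacelike (p1 h) hvw0 hg0)
    intro v w hvw
    have hinv : inv (-n v) (-n w) = inv (n v) (n w) := by
      simp [inv, lor]
    refine ⟨?_, fun h1 => ?_⟩
    · rw [hinv]
      exact inv_pos_all h hl v w hvw
    · rw [hinv, inv_eq h.spacelike] at h1
      have h2 : gr n v w ≤ -1 := by linarith
      refine disj_of_neg h.spacelike h2 ?_
      rcases lt_or_gt_of_ne (sm_ne h.spacelike (p1 h) hvw h2) with h3 | h3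
      · exact h3
      · exfalso
        exact no_mix h.spacelike (gr_all h hl) hvw hvw0 h2 hg0 h3 h0'

theorem glob_of_future (h : IsConvexCPolyhedron n) (hl : LocallyShallow n)
    (hf : ∀ x ∈ cone n, lor x x ≤ 0 → 0 ≤ x 3) : GloballyShallow n := by
  classical
  refine glob_of_pos h hl ?_
  intro v w hvw hg
  refine lt_of_le_of_ne ?_ (Ne.symm (sm_ne h.spacelike (p1 h) hvw hg))
  refine hf _ ?_ (sm_causal h.spacelike hg)
  have : sm n v w = L n (Pi.single v (al n v) + Pi.single w (al n w)) := by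
    rw [L_add, L_single, L_single]
    rfl
  rw [this]
  refine mem_cone (add_nonneg ?_ ?_)
  · rw [Pi.single_nonneg]
    exact (al_pos h.spacelike v).le
  · rw [Pi.single_nonneg]
    exact (al_pos h.spacelike w).le

end

end Pool.Agent.X160.Cr
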