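import Pool.Agent.X160.Cr

/-! The complementary octahedral circle polyhedron. -/

namespace Pool.Agent.X160.Cs

open Pool.Agent.X160.Cp Pool.Agent.X160.Cq Pool.Agent.X160.Cr

set_option maxHeartbeats 2000000

/-- six large disks, the complements of six small disks centred at the vertices of the
octahedron -/
def oct : Fin 6 → Fin 4 → ℝ :=
  ![![-3, 0, 0, -2], ![3, 0, 0, -2], ![0, -3, 0, -2], ![0, 3, 0, -2], ![0, 0, -3, -2],
    ![0, 0, 3, -2]]

theorem c0 (c : Fin 6 → ℝ) : (∑ v, c v • oct v) 0 = 3 * (c 1 - c 0) := by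
  simp [Fin.sum_univ_six, oct]
  ring

theorem c1 (c : Fin 6 → ℝ) : (∑ v, c v • oct v) 1 = 3 * (c 3 - c 2) := by
  simp [Fin.sum_univ_six, oct]
  ring

theorem c2 (c : Fin 6 → ℝ) : (∑ v, c v • oct v) 2 = 3 * (c 5 - c 4) := by
  simp [Fin.sum_univ_six, oct]
  ring

theorem c3 (c : Fin 6 → ℝ) :
    (∑ v, c v • oct v) 3 = -2 * (c 0 + c 1 + c 2 + c 3 + c 4 + c 5) := by
  simp [Fin.sum_univ_six, oct]
  ring

theorem self (v : Fin 6) : lor (oct v) (oct v) = 5 := by
  fin_cases v <;> simp [oct, lor] <;> norm_num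

theorem mem_c (v : Fin 6) : oct v ∈ cone oct := by
  refine ⟨Pi.single v 1, fun w => ?_, ?_⟩
  · by_cases h : w = v
    · subst h
      simp
    · simp [h]
  · rw [Finset.sum_eq_single v]
    · simp
    · intro w _ hw
      simp [hw]
    · simp

theorem poly : IsConvexCPolyhedron oct where
  spacelike v := by rw [self]; norm_num
  span_top := by
    rw [eq_top_iff]
    intro x _
    have hm : ∀ v, oct v ∈ Submodule.span ℝ (Set.range oct) := fun v =>
      Submodule.subset_span ⟨v, rfl⟩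
    have hx : x = (x 0 / 6) • (oct 1 - oct 0) + (x 1 / 6) • (oct 3 - oct 2) +
        (x 2 / 6) • (oct 5 - oct 4) + (-(x 3) / 4) • (oct 0 + oct 1) := by
      funext i
      fin_cases i <;> simp [oct] <;> ring
    rw [hx]
    exact Submodule.add_mem _ (Submodule.add_mem _ (Submodule.add_mem _
      (Submodule.smul_mem _ _ (Submodule.sub_mem _ (hm 1) (hm 0)))
      (Submodule.smul_mem _ _ (Submodule.sub_mem _ (hm 3) (hm 2))))
      (Submodule.smul_mem _ _ (Submodule.sub_mem _ (hm 5) (hm 4))))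
      (Submodule.smul_mem _ _ (Submodule.add_mem _ (hm 0) (hm 1)))
  pointed := by
    rintro x ⟨c, hc, rfl⟩ ⟨d, hd, hcd⟩
    have h3 := congrFun hcd 3
    rw [Pi.neg_apply, c3, c3] at h3
    have a := hc
    have b := hd
    have e : ∀ v, c v = 0 := by
      intro v
      have := a 0; have := a 1; have := a 2; have := a 3; have := a 4; have := a 5
      have := b 0; have := b 1; have := b 2; have := b 3; have := b 4; have := b 5
      fin_cases v <;> simp only [Fin.zero_eta, Fin.mk_one, Fin.reduceFinMk] <;> linarith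
    simp [e]
  extreme := by
    rintro v x ⟨c, hc, rfl⟩ y ⟨d, hd, rfl⟩ h
    have h0 := congrFun h 0
    have h1 := congrFun h 1
    have h2 := congrFun h 2
    have h3 := congrFun h 3
    rw [Pi.add_apply, c0, c0] at h0
    rw [Pi.add_apply, c1, c1] at h1
    rw [Pi.add_apply, c2, c2] at h2
    rw [Pi.add_apply, c3, c3] at h3
    refine ⟨c v, ?_⟩
    have e : ∀ w, w ≠ v → c w = 0 := by
      intro w hw
      have := hc 0; have := hc 1; have := hc 2; have := hc 3; have := hc 4; have := hc 5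
      have := hd 0; have := hd 1; have := hd 2; have := hd 3; have := hd 4; have := hd 5
      fin_cases v <;> simp [oct] at h0 h1 h2 h3 hw <;> fin_cases w <;>
        simp only [Fin.zero_eta, Fin.mk_one, Fin.reduceFinMk, ne_eq, not_true_eq_false] at hw ⊢ <;>
        linarith
    rw [Finset.sum_eq_single v]
    · intro w _ hw
      rw [e w hw, zero_smul]
    · simp
  distinct := by
    intro v w hvw t h
    have h0 := congrFun h 0
    have h1 := congrFun h 1
    have h2 := congrFun h 2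
    have h3 := congrFun h 3
    fin_cases v <;> fin_cases w <;> simp [oct] at h0 h1 h2 h3 hvw <;> linarith

theorem inv_val (v w : Fin 6) : inv (oct v) (oct w) = -lor (oct v) (oct w) / 5 := by
  unfold inv
  rw [self, self, Real.mul_self_sqrt (by norm_num)]

theorem not_adj_of {a b c d : Fin 6} (h : oct a + oct b = oct c + oct d)
    (i : Fin 4) (hc : oct c i ≠ 0) (ha : oct a i = 0) (hb : oct b i = 0) : ¬ Adj oct a b := by
  rintro ⟨-, hA⟩
  have := (hA (oct c) (mem_c c) (oct d) (mem_c d) ⟨1, 1, by norm_num, by norm_num, by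
    rw [one_smul, one_smul, h]⟩).1
  obtain ⟨s, t, -, -, hst⟩ := this
  have := congrFun hst i
  simp [ha, hb] at this
  exact hc this

theorem locally : LocallyShallow oct := by
  intro v w hA
  have hcase : (v = w) ∨ ¬ Adj oct v w ∨ lor (oct v) (oct w) = -4 := by
    fin_cases v <;> fin_cases w
    all_goals first
      | exact Or.inl rfl
      | (refine Or.inr (Or.inr ?_); simp [oct, lor]; norm_num; done)
      | (refine Or.inr (Or.inl (not_adj_of (c := 2) (d := 3) ?_ 1 ?_ ?_ ?_)) <;>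
          first | (funext i; fin_cases i <;> simp [oct]; done) | (simp [oct]; done))
      | (refine Or.inr (Or.inl (not_adj_of (c := 0) (d := 1) ?_ 0 ?_ ?_ ?_)) <;>
          first | (funext i; fin_cases i <;> simp [oct]; done) | (simp [oct]; done))
  rcases hcase with h | h | h
  · exact absurd h hA.1
  · exact absurd hA h
  · refine ⟨?_, ?_⟩
    · rw [inv_val, h]
      norm_num
    · rw [inv_val, h]
      intro h1
      norm_num at h1

theorem not_globally : ¬ GloballyShallow oct := by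
  intro h
  have h1 := (h 0 1 (by decide)).2 (by
    rw [inv_val]
    simp [oct, lor]
    norm_num)
  rw [Set.eq_empty_iff_forall_notMem] at h1
  apply h1 ![0, 1, 0]
  refine ⟨⟨?_, ?_⟩, ?_, ?_⟩ <;> simp [oct]

theorem two {y : Fin 4 → ℝ} {a b : Fin 6} (hT : ∀ v, lor y (oct v) = 0 → v = a ∨ v = b)
    (hf : Module.finrank ℝ (Submodule.span ℝ (oct '' {v | lor y (oct v) = 0})) = 3) : False := by
  classical
  have h1 : Submodule.span ℝ (oct '' {v | lor y (oct v) = 0}) ≤
      Submodule.span ℝ (({oct a, oct b} : Finset (Fin 4 → ℝ)) : Set (Fin 4 → ℝ)) := by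
    apply Submodule.span_mono
    rintro _ ⟨v, hv, rfl⟩
    rcases hT v hv with rfl | rfl <;> simp
  have h2 := Submodule.finrank_mono h1
  have h3 := finrank_span_finset_le_card (R := ℝ) ({oct a, oct b} : Finset (Fin 4 → ℝ))
  have h4 : ({oct a, oct b} : Finset (Fin 4 → ℝ)).card ≤ 2 := Finset.card_le_two
  unfold Set.finrank at h3
  omega

theorem lo (y : Fin 4 → ℝ) : lor y (oct 0) = 2 * y 3 - 3 * y 0 ∧ lor y (oct 1) = 2 * y 3 + 3 * y 0 ∧
    lor y (oct 2) = 2 * y 3 - 3 * y 1 ∧ lor y (oct 3) = 2 * y 3 + 3 * y 1 ∧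
    lor y (oct 4) = 2 * y 3 - 3 * y 2 ∧ lor y (oct 5) = 2 * y 3 + 3 * y 2 := by
  refine ⟨?_, ?_, ?_, ?_, ?_, ?_⟩ <;> simp [lor, oct] <;> ring

theorem hyperbolic : Hyperbolic oct := by
  intro y hy hf
  obtain ⟨l0, l1, l2, l3, l4, l5⟩ := lo y
  have g0 := hy 0; have g1 := hy 1; have g2 := hy 2; have g3 := hy 3; have g4 := hy 4
  have g5 := hy 5
  rw [l0] at g0; rw [l1] at g1; rw [l2] at g2; rw [l3] at g3; rw [l4] at g4; rw [l5] at g5
  have hy3 : 0 < y 3 := by
    by_contra hc
    push Not at hc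
    have h3 : y 3 = 0 := by linarith
    have h0 : y 0 = 0 := by linarith
    have h1 : y 1 = 0 := by linarith
    have h2 : y 2 = 0 := by linarith
    have hT : {v | lor y (oct v) = 0} = Set.univ := by
      rw [Set.eq_univ_iff_forall]
      intro v
      simp only [Set.mem_setOf_eq, lor, h0, h1, h2, h3]
      ring
    rw [hT, Set.image_univ, poly.span_top, finrank_top] at hf
    simp at hf
  have k : ∀ a b : Fin 6, (∀ v, lor y (oct v) = 0 → v = a ∨ v = b) → False := fun a b h =>
    two h hf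
  have t0 : 2 * y 3 - 3 * y 0 = 0 ∨ 2 * y 3 + 3 * y 0 = 0 := by
    by_contra hc
    push Not at hc
    have e2 : ∃ a : Fin 6, (lor y (oct 2) = 0 → 2 = a) ∧ (lor y (oct 3) = 0 → 3 = a) := by
      by_cases h : lor y (oct 2) = 0
      · exact ⟨2, fun _ => rfl, fun h' => by rw [l2] at h; rw [l3] at h'; linarith⟩
      · exact ⟨3, fun h' => absurd h' h, fun _ => rfl⟩
    have e4 : ∃ a : Fin 6, (lor y (oct 4) = 0 → 4 = a) ∧ (lor y (oct 5) = 0 → 5 = a) := by
      by_cases h : lor y (oct 4) = 0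
      · exact ⟨4, fun _ => rfl, fun h' => by rw [l4] at h; rw [l5] at h'; linarith⟩
      · exact ⟨5, fun h' => absurd h' h, fun _ => rfl⟩
    obtain ⟨a, ha2, ha3⟩ := e2
    obtain ⟨b, hb4, hb5⟩ := e4
    apply k a b
    intro v hv
    fin_cases v
    · exact absurd (l0 ▸ hv) hc.1
    · exact absurd (l1 ▸ hv) hc.2
    · exact Or.inl (ha2 hv)
    · exact Or.inl (ha3 hv)
    · exact Or.inr (hb4 hv)
    · exact Or.inr (hb5 hv)
  have t1 : 2 * y 3 - 3 * y 1 = 0 ∨ 2 * y 3 + 3 * y 1 = 0 := by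
    by_contra hc
    push Not at hc
    have e2 : ∃ a : Fin 6, (lor y (oct 0) = 0 → 0 = a) ∧ (lor y (oct 1) = 0 → 1 = a) := by
      by_cases h : lor y (oct 0) = 0
      · exact ⟨0, fun _ => rfl, fun h' => by rw [l0] at h; rw [l1] at h'; linarith⟩
      · exact ⟨1, fun h' => absurd h' h, fun _ => rfl⟩
    have e4 : ∃ a : Fin 6, (lor y (oct 4) = 0 → 4 = a) ∧ (lor y (oct 5) = 0 → 5 = a) := by
      by_cases h : lor y (oct 4) = 0
      · exact ⟨4, fun _ => rfl, fun h' => by rw [l4] at h; rw [l5] at h'; linarith⟩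
      · exact ⟨5, fun h' => absurd h' h, fun _ => rfl⟩
    obtain ⟨a, ha2, ha3⟩ := e2
    obtain ⟨b, hb4, hb5⟩ := e4
    apply k a b
    intro v hv
    fin_cases v
    · exact Or.inl (ha2 hv)
    · exact Or.inl (ha3 hv)
    · exact absurd (l2 ▸ hv) hc.1
    · exact absurd (l3 ▸ hv) hc.2
    · exact Or.inr (hb4 hv)
    · exact Or.inr (hb5 hv)
  have t2 : 2 * y 3 - 3 * y 2 = 0 ∨ 2 * y 3 + 3 * y 2 = 0 := by
    by_contra hc
    push Not at hc
    have e2 : ∃ a : Fin 6, (lor y (oct 0) = 0 → 0 = a) ∧ (lor y (oct 1) = 0 → 1 = a) := by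
      by_cases h : lor y (oct 0) = 0
      · exact ⟨0, fun _ => rfl, fun h' => by rw [l0] at h; rw [l1] at h'; linarith⟩
      · exact ⟨1, fun h' => absurd h' h, fun _ => rfl⟩
    have e4 : ∃ a : Fin 6, (lor y (oct 2) = 0 → 2 = a) ∧ (lor y (oct 3) = 0 → 3 = a) := by
      by_cases h : lor y (oct 2) = 0
      · exact ⟨2, fun _ => rfl, fun h' => by rw [l2] at h; rw [l3] at h'; linarith⟩
      · exact ⟨3, fun h' => absurd h' h, fun _ => rfl⟩
    obtain ⟨a, ha2, ha3⟩ := e2
    obtain ⟨b, hb4, hb5⟩ := e4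
    apply k a b
    intro v hv
    fin_cases v
    · exact Or.inl (ha2 hv)
    · exact Or.inl (ha3 hv)
    · exact Or.inr (hb4 hv)
    · exact Or.inr (hb5 hv)
    · exact absurd (l4 ▸ hv) hc.1
    · exact absurd (l5 ▸ hv) hc.2
  have q0 : y 0 ^ 2 = 4 / 9 * y 3 ^ 2 := by
    rcases t0 with h | h
    · have : y 0 = 2 / 3 * y 3 := by linarith
      rw [this]; ring
    · have : y 0 = -(2 / 3) * y 3 := by linarith
      rw [this]; ring
  have q1 : y 1 ^ 2 = 4 / 9 * y 3 ^ 2 := by
    rcases t1 with h | h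
    · have : y 1 = 2 / 3 * y 3 := by linarith
      rw [this]; ring
    · have : y 1 = -(2 / 3) * y 3 := by linarith
      rw [this]; ring
  have q2 : y 2 ^ 2 = 4 / 9 * y 3 ^ 2 := by
    rcases t2 with h | h
    · have : y 2 = 2 / 3 * y 3 := by linarith
      rw [this]; ring
    · have : y 2 = -(2 / 3) * y 3 := by linarith
      rw [this]; ring
  refine ⟨![y 0, y 1, y 2, 4 / 3 * y 3], ?_, ?_⟩
  · simp [lor]
    nlinarith
  · simp [lor]
    nlinarith

end Pool.Agent.X160.Cs
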