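import Mathlib

/-!
# Sign propagation for 5 x 5 determinants

`d5` is the determinant of five vectors of `ℝ⁵`.  The three term Grassmann-Plücker relation,
a verified checker for sign certificates (`Cert`), and its soundness theorem `run_sound`.
-/

namespace Pool.Agent.X160.Mw

/-- The determinant of five vectors. -/
noncomputable def d5 (x y z w u : Fin 5 → ℝ) : ℝ := (Matrix.of ![x, y, z, w, u]).det

theorem d5_swap1 (x y z w u : Fin 5 → ℝ) : d5 y x z w u = - d5 x y z w u := by
  have h := Matrix.det_permute (Equiv.swap (0 : Fin 5) 1) (Matrix.of ![x, y, z, w, u])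
  have h2 : (Matrix.of ![x, y, z, w, u]).submatrix (Equiv.swap (0 : Fin 5) 1) id
      = Matrix.of ![y, x, z, w, u] := by
    ext i j
    fin_cases i <;> rfl
  rw [h2, Equiv.Perm.sign_swap (by decide)] at h
  rw [d5, d5, h]
  simp

theorem d5_swap2 (x y z w u : Fin 5 → ℝ) : d5 x z y w u = - d5 x y z w u := by
  have h := Matrix.det_permute (Equiv.swap (1 : Fin 5) 2) (Matrix.of ![x, y, z, w, u])
  have h2 : (Matrix.of ![x, y, z, w, u]).submatrix (Equiv.swap (1 : Fin 5) 2) id
      = Matrix.of ![x, z, y, w, u] := by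
    ext i j
    fin_cases i <;> rfl
  rw [h2, Equiv.Perm.sign_swap (by decide)] at h
  rw [d5, d5, h]
  simp

theorem d5_swap3 (x y z w u : Fin 5 → ℝ) : d5 x y w z u = - d5 x y z w u := by
  have h := Matrix.det_permute (Equiv.swap (2 : Fin 5) 3) (Matrix.of ![x, y, z, w, u])
  have h2 : (Matrix.of ![x, y, z, w, u]).submatrix (Equiv.swap (2 : Fin 5) 3) id
      = Matrix.of ![x, y, w, z, u] := by
    ext i j
    fin_cases i <;> rfl
  rw [h2, Equiv.Perm.sign_swap (by decide)] at h
  rw [d5, d5, h]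
  simp

theorem d5_swap4 (x y z w u : Fin 5 → ℝ) : d5 x y z u w = - d5 x y z w u := by
  have h := Matrix.det_permute (Equiv.swap (3 : Fin 5) 4) (Matrix.of ![x, y, z, w, u])
  have h2 : (Matrix.of ![x, y, z, w, u]).submatrix (Equiv.swap (3 : Fin 5) 4) id
      = Matrix.of ![x, y, z, u, w] := by
    ext i j
    fin_cases i <;> rfl
  rw [h2, Equiv.Perm.sign_swap (by decide)] at h
  rw [d5, d5, h]
  simp

/-- The three term Grassmann-Plücker relation. -/
theorem gp (a b c x y z w : Fin 5 → ℝ) :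
    d5 a b c x y * d5 a b c z w - d5 a b c x z * d5 a b c y w
      + d5 a b c x w * d5 a b c y z = 0 := by
  set M : Matrix (Fin 5) (Fin 5) ℝ := Matrix.of ![a, b, c, x, y] with hM
  set N : Matrix (Fin 5) (Fin 5) ℝ := Matrix.of ![a, b, c, 0, z] with hN
  have hupd : ∀ u : Fin 5 → ℝ, N.updateRow 3 u = Matrix.of ![a, b, c, u, z] := by
    intro u
    ext i j
    fin_cases i <;> simp [hN, Matrix.updateRow]
  -- the linear functional u ↦ d5 a b c u z
  let φ : (Fin 5 → ℝ) →ₗ[ℝ] ℝ :=
    { toFun := fun u => (N.updateRow 3 u).det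
      map_add' := fun u v => Matrix.det_updateRow_add N 3 u v
      map_smul' := fun r u => by
        simpa using Matrix.det_updateRow_smul N 3 r u }
  have hφ : ∀ u, φ u = d5 a b c u z := by
    intro u
    show (N.updateRow 3 u).det = _
    rw [hupd, d5]
  have h0 : φ a = 0 := by
    show (N.updateRow 3 a).det = 0
    refine Matrix.det_zero_of_row_eq (i := 0) (j := 3) (by decide) ?_
    rw [hupd]; rfl
  have h1 : φ b = 0 := by
    show (N.updateRow 3 b).det = 0
    refine Matrix.det_zero_of_row_eq (i := 1) (j := 3) (by decide) ?_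
    rw [hupd]; rfl
  have h2 : φ c = 0 := by
    show (N.updateRow 3 c).det = 0
    refine Matrix.det_zero_of_row_eq (i := 2) (j := 3) (by decide) ?_
    rw [hupd]; rfl
  have hcr := Matrix.mulVec_cramer M.transpose w
  have hsum : M.transpose.mulVec (Matrix.cramer M.transpose w)
      = ∑ i, (Matrix.cramer M.transpose w i) • M i := by
    ext j
    simp [Matrix.mulVec, dotProduct, Matrix.transpose_apply, mul_comm]
  rw [hsum, Matrix.det_transpose] at hcr
  have hap := congrArg φ hcr
  rw [map_sum, map_smul] at hap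
  simp only [map_smul, Fin.sum_univ_five, Matrix.cramer_transpose_apply] at hap
  have e0 : M 0 = a := rfl
  have e1 : M 1 = b := rfl
  have e2 : M 2 = c := rfl
  have e3 : M 3 = x := rfl
  have e4 : M 4 = y := rfl
  have c3 : (M.updateRow 3 w).det = d5 a b c w y := by
    rw [d5]
    congr 1
    ext i j
    fin_cases i <;> simp [hM, Matrix.updateRow]
  have c4 : (M.updateRow 4 w).det = d5 a b c x w := by
    rw [d5]
    congr 1
    ext i j
    fin_cases i <;> simp [hM, Matrix.updateRow]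
  rw [e0, e1, e2, e3, e4, h0, h1, h2, c3, c4, hφ, hφ, hφ] at hap
  simp only [smul_eq_mul, mul_zero, zero_add] at hap
  have hMd : M.det = d5 a b c x y := rfl
  rw [hMd, d5_swap4 a b c z w, d5_swap4 a b c y w] at hap
  linarith

/-- A tuple of five indices. -/
structure K5 where
  a : ℕ
  b : ℕ
  c : ℕ
  d : ℕ
  e : ℕ

/-- Boolean equality of tuples. -/
def K5.eqb (x y : K5) : Bool :=
  Nat.beq x.a y.a && (Nat.beq x.b y.b && (Nat.beq x.c y.c && (Nat.beq x.d y.d && Nat.beq x.e y.e)))

theorem K5.eqb_eq {x y : K5} (h : K5.eqb x y = true) : x = y := by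
  cases x; cases y
  simp [K5.eqb] at h
  simp [h]

/-- The determinant of the vectors with the given indices. -/
noncomputable def D (v : ℕ → Fin 5 → ℝ) (t : K5) : ℝ := d5 (v t.a) (v t.b) (v t.c) (v t.d) (v t.e)

/-- compare-exchange at positions 1, 2 -/
def s1 (t : Bool × K5) : Bool × K5 :=
  cond (Nat.blt t.2.b t.2.a) (!t.1, ⟨t.2.b, t.2.a, t.2.c, t.2.d, t.2.e⟩) t
/-- compare-exchange at positions 2, 3 -/
def s2 (t : Bool × K5) : Bool × K5 :=
  cond (Nat.blt t.2.c t.2.b) (!t.1, ⟨t.2.a, t.2.c, t.2.b, t.2.d, t.2.e⟩) t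
/-- compare-exchange at positions 3, 4 -/
def s3 (t : Bool × K5) : Bool × K5 :=
  cond (Nat.blt t.2.d t.2.c) (!t.1, ⟨t.2.a, t.2.b, t.2.d, t.2.c, t.2.e⟩) t
/-- compare-exchange at positions 4, 5 -/
def s4 (t : Bool × K5) : Bool × K5 :=
  cond (Nat.blt t.2.e t.2.d) (!t.1, ⟨t.2.a, t.2.b, t.2.c, t.2.e, t.2.d⟩) t

/-- Sorting with parity. -/
def canon (t : K5) : Bool × K5 :=
  s1 (s2 (s1 (s3 (s2 (s1 (s4 (s3 (s2 (s1 (false, t))))))))))

/-- sign change -/
def flip (s : Bool) (x : SignType) : SignType := cond s (-x) x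

/-- sign of a signed tuple -/
noncomputable def sv (v : ℕ → Fin 5 → ℝ) (t : Bool × K5) : SignType :=
  flip t.1 (SignType.sign (D v t.2))

theorem flip_not (s : Bool) (x : SignType) : flip (!s) (-x) = flip s x := by
  cases s <;> simp [flip]

theorem sv_s1 (v : ℕ → Fin 5 → ℝ) (t : Bool × K5) : sv v (s1 t) = sv v t := by
  unfold s1
  cases h : Nat.blt t.2.b t.2.a
  · rfl
  · simp only [cond_true, sv, D]
    rw [d5_swap1, Left.sign_neg, flip_not]

theorem sv_s2 (v : ℕ → Fin 5 → ℝ) (t : Bool × K5) : sv v (s2 t) = sv v t := by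
  unfold s2
  cases h : Nat.blt t.2.c t.2.b
  · rfl
  · simp only [cond_true, sv, D]
    rw [d5_swap2, Left.sign_neg, flip_not]

theorem sv_s3 (v : ℕ → Fin 5 → ℝ) (t : Bool × K5) : sv v (s3 t) = sv v t := by
  unfold s3
  cases h : Nat.blt t.2.d t.2.c
  · rfl
  · simp only [cond_true, sv, D]
    rw [d5_swap3, Left.sign_neg, flip_not]

theorem sv_s4 (v : ℕ → Fin 5 → ℝ) (t : Bool × K5) : sv v (s4 t) = sv v t := by
  unfold s4
  cases h : Nat.blt t.2.e t.2.d
  · rfl
  · simp only [cond_true, sv, D]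
    rw [d5_swap4, Left.sign_neg, flip_not]

theorem sv_canon (v : ℕ → Fin 5 → ℝ) (t : K5) :
    sv v (canon t) = SignType.sign (D v t) := by
  unfold canon
  simp only [sv_s1, sv_s2, sv_s3, sv_s4]
  rfl

/-- A table of sign domains. -/
abbrev Table := List (K5 × List SignType)

/-- look up the domain of a tuple -/
def look : Table → K5 → List SignType
  | [], _ => [-1, 0, 1]
  | (k, d) :: r, t => cond (K5.eqb k t) d (look r t)

/-- every entry of the table is correct -/
def Inv (v : ℕ → Fin 5 → ℝ) (tab : Table) : Prop :=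
  ∀ p ∈ tab, SignType.sign (D v p.1) ∈ p.2

theorem look_sound {v : ℕ → Fin 5 → ℝ} {tab : Table} (h : Inv v tab) (t : K5) :
    SignType.sign (D v t) ∈ look tab t := by
  induction tab with
  | nil =>
    rcases SignType.trichotomy (SignType.sign (D v t)) with h1 | h1 | h1 <;> rw [h1] <;> simp [look]
  | cons p r ih =>
    obtain ⟨k, d⟩ := p
    unfold look
    cases hk : K5.eqb k t
    · exact ih (fun q hq => h q (List.mem_cons_of_mem _ hq))
    · have := K5.eqb_eq hk
      subst this
      exact h (k, d) List.mem_cons_self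

/-- the domain of an arbitrary (unsorted) tuple -/
def lookU (tab : Table) (t : K5) : List SignType :=
  (look tab (canon t).2).map (flip (canon t).1)

theorem lookU_sound {v : ℕ → Fin 5 → ℝ} {tab : Table} (h : Inv v tab) (t : K5) :
    SignType.sign (D v t) ∈ lookU tab t := by
  rw [lookU, List.mem_map]
  exact ⟨_, look_sound h _, sv_canon v t⟩

/-- add a domain for an arbitrary tuple -/
def addU (tab : Table) (t : K5) (d : List SignType) : Table :=
  ((canon t).2, d.map (flip (canon t).1)) :: tab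

theorem flip_flip (s : Bool) (x : SignType) : flip s (flip s x) = x := by
  cases s <;> simp [flip]

theorem addU_sound {v : ℕ → Fin 5 → ℝ} {tab : Table} (h : Inv v tab) (t : K5)
    (d : List SignType) (hd : SignType.sign (D v t) ∈ d) : Inv v (addU tab t d) := by
  intro p hp
  rw [addU, List.mem_cons] at hp
  rcases hp with rfl | hp
  · simp only [List.mem_map]
    refine ⟨_, hd, ?_⟩
    rw [← sv_canon v t, sv, flip_flip]
  · exact h p hp

/-- `x - y + z = 0` is possible for numbers with these signs -/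
def cons3 (x y z : SignType) : Bool :=
  (decide (x = 1) || (decide (y = -1) || decide (z = 1)))
    == (decide (x = -1) || (decide (y = 1) || decide (z = -1)))

theorem cons3_sound {x y z : ℝ} (h : x - y + z = 0) :
    cons3 (SignType.sign x) (SignType.sign y) (SignType.sign z) = true := by
  rcases lt_trichotomy x 0 with hx | hx | hx <;> rcases lt_trichotomy y 0 with hy | hy | hy <;>
    rcases lt_trichotomy z 0 with hz | hz | hz <;>
    first
    | (exfalso; linarith)
    | (simp only [hx, hy, hz, sign_neg, sign_pos, sign_zero]; decide)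

/-- select -/
def sel (n : ℕ) (x0 x1 x2 x3 x4 x5 : SignType) : SignType :=
  match n with
  | 0 => x0
  | 1 => x1
  | 2 => x2
  | 3 => x3
  | 4 => x4
  | _ => x5

/-- select -/
def selK (n : ℕ) (x0 x1 x2 x3 x4 x5 : K5) : K5 :=
  match n with
  | 0 => x0
  | 1 => x1
  | 2 => x2
  | 3 => x3
  | 4 => x4
  | _ => x5

/-- local consistency check -/
def chk (d0 d1 d2 d3 d4 d5 : List SignType) (n : ℕ) (new : List SignType) : Bool :=
  d0.all fun x0 => d1.all fun x1 => d2.all fun x2 => d3.all fun x3 => d4.all fun x4 =>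
    d5.all fun x5 =>
      (!(cons3 (x0 * x1) (x2 * x3) (x4 * x5))) || new.contains (sel n x0 x1 x2 x3 x4 x5)

/-- A certificate. -/
inductive Cert
  /-- the last entry has an empty domain -/
  | close : Cert
  /-- a Grassmann-Plücker step -/
  | gp (a b c p q r s : ℕ) (n : ℕ) (new : List SignType) (rest : Cert) : Cert
  /-- a facet step -/
  | fc (f g h i u w : ℕ) (rest : Cert) : Cert
  /-- a case distinction -/
  | split (a b c d e : ℕ) (d1 d2 : List SignType) (r1 r2 : Cert) : Cert

/-- membership of a tuple in a list -/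
def mem4 (f g h i : ℕ) : List (ℕ × ℕ × ℕ × ℕ) → Bool
  | [] => false
  | (f', g', h', i') :: r =>
    (Nat.beq f f' && (Nat.beq g g' && (Nat.beq h h' && Nat.beq i i'))) || mem4 f g h i r

theorem mem4_sound {f g h i : ℕ} {l : List (ℕ × ℕ × ℕ × ℕ)} (hm : mem4 f g h i l = true) :
    (f, g, h, i) ∈ l := by
  induction l with
  | nil => simp [mem4] at hm
  | cons p r ih =>
    obtain ⟨f', g', h', i'⟩ := p
    simp only [mem4, Bool.or_eq_true, Bool.and_eq_true, Nat.beq_eq] at hm
    rcases hm with hm | hm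
    · obtain ⟨rfl, rfl, rfl, rfl⟩ := hm
      exact List.mem_cons_self
    · exact List.mem_cons_of_mem _ (ih hm)

/-- `u` is an index below 12 outside the facet -/
def outb (f g h i u : ℕ) : Bool :=
  Nat.blt u 12 && (!(Nat.beq u f) && (!(Nat.beq u g) && (!(Nat.beq u h) && !(Nat.beq u i))))

/-- The facet hypothesis. -/
def FacetHyp (v : ℕ → Fin 5 → ℝ) (fac : List (ℕ × ℕ × ℕ × ℕ)) : Prop :=
  ∀ f g h i, (f, g, h, i) ∈ fac → ∀ u w, u < 12 → w < 12 →
    (u ≠ f ∧ u ≠ g ∧ u ≠ h ∧ u ≠ i) → (w ≠ f ∧ w ≠ g ∧ w ≠ h ∧ w ≠ i) →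
    0 < D v ⟨f, g, h, i, u⟩ * D v ⟨f, g, h, i, w⟩

/-- The checker. -/
def run (fac : List (ℕ × ℕ × ℕ × ℕ)) : Cert → Table → Bool
  | .close, tab => match tab with
    | (_, []) :: _ => true
    | _ => false
  | .gp a b c p q r s n new rest, tab =>
    chk (lookU tab ⟨a, b, c, p, q⟩) (lookU tab ⟨a, b, c, r, s⟩)
      (lookU tab ⟨a, b, c, p, r⟩) (lookU tab ⟨a, b, c, q, s⟩)
      (lookU tab ⟨a, b, c, p, s⟩) (lookU tab ⟨a, b, c, q, r⟩) n new &&
    run fac rest (addU tab (selK n ⟨a, b, c, p, q⟩ ⟨a, b, c, r, s⟩ ⟨a, b, c, p, r⟩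
      ⟨a, b, c, q, s⟩ ⟨a, b, c, p, s⟩ ⟨a, b, c, q, r⟩) new)
  | .fc f g h i u w rest, tab =>
    (mem4 f g h i fac && (outb f g h i u && outb f g h i w)) &&
    run fac rest (addU tab ⟨f, g, h, i, w⟩
      ((lookU tab ⟨f, g, h, i, u⟩).filter fun x =>
        !(decide (x = 0)) && (lookU tab ⟨f, g, h, i, w⟩).contains x))
  | .split a b c d e d1 d2 r1 r2, tab =>
    ([(-1 : SignType), 0, 1].all fun x => d1.contains x || d2.contains x) &&
    (run fac r1 (addU tab ⟨a, b, c, d, e⟩ d1) && run fac r2 (addU tab ⟨a, b, c, d, e⟩ d2))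

theorem outb_sound {f g h i u : ℕ} (ho : outb f g h i u = true) :
    u < 12 ∧ (u ≠ f ∧ u ≠ g ∧ u ≠ h ∧ u ≠ i) := by
  simp only [outb, Bool.and_eq_true, Bool.not_eq_true', Nat.blt_eq] at ho
  obtain ⟨h1, h2, h3, h4, h5⟩ := ho
  refine ⟨h1, ?_, ?_, ?_, ?_⟩
  · intro hh; subst hh; simp at h2
  · intro hh; subst hh; simp at h3
  · intro hh; subst hh; simp at h4
  · intro hh; subst hh; simp at h5

/-- Soundness of the checker. -/
theorem run_sound (v : ℕ → Fin 5 → ℝ) (fac : List (ℕ × ℕ × ℕ × ℕ)) (hf : FacetHyp v fac)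
    (c : Cert) : ∀ tab : Table, Inv v tab → run fac c tab = true → False := by
  induction c with
  | close =>
    intro tab hI hr
    match tab, hI, hr with
    | [], _, hr => simp [run] at hr
    | (k, []) :: r, hI, _ =>
      have := hI (k, []) List.mem_cons_self
      simp at this
    | (k, x :: y) :: r, _, hr => simp [run] at hr
  | gp a b c p q r s n new rest ih =>
    intro tab hI hr
    rw [run, Bool.and_eq_true] at hr
    obtain ⟨h1, h2⟩ := hr
    refine ih _ (addU_sound hI _ _ ?_) h2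
    have hc := gp (v a) (v b) (v c) (v p) (v q) (v r) (v s)
    have hc2 := cons3_sound hc
    rw [sign_mul, sign_mul, sign_mul] at hc2
    unfold chk at h1
    rw [List.all_eq_true] at h1
    have h1 := h1 _ (lookU_sound hI ⟨a, b, c, p, q⟩)
    rw [List.all_eq_true] at h1
    have h1 := h1 _ (lookU_sound hI ⟨a, b, c, r, s⟩)
    rw [List.all_eq_true] at h1
    have h1 := h1 _ (lookU_sound hI ⟨a, b, c, p, r⟩)
    rw [List.all_eq_true] at h1
    have h1 := h1 _ (lookU_sound hI ⟨a, b, c, q, s⟩)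
    rw [List.all_eq_true] at h1
    have h1 := h1 _ (lookU_sound hI ⟨a, b, c, p, s⟩)
    rw [List.all_eq_true] at h1
    have h1 := h1 _ (lookU_sound hI ⟨a, b, c, q, r⟩)
    have hc3 : cons3
        (SignType.sign (D v ⟨a, b, c, p, q⟩) * SignType.sign (D v ⟨a, b, c, r, s⟩))
        (SignType.sign (D v ⟨a, b, c, p, r⟩) * SignType.sign (D v ⟨a, b, c, q, s⟩))
        (SignType.sign (D v ⟨a, b, c, p, s⟩) * SignType.sign (D v ⟨a, b, c, q, r⟩)) = true := hc2
    rw [hc3] at h1
    simp only [Bool.not_true, Bool.false_or, List.contains_iff_mem] at h1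
    have hs : SignType.sign (D v (selK n ⟨a, b, c, p, q⟩ ⟨a, b, c, r, s⟩ ⟨a, b, c, p, r⟩
        ⟨a, b, c, q, s⟩ ⟨a, b, c, p, s⟩ ⟨a, b, c, q, r⟩))
        = sel n (SignType.sign (D v ⟨a, b, c, p, q⟩)) (SignType.sign (D v ⟨a, b, c, r, s⟩))
          (SignType.sign (D v ⟨a, b, c, p, r⟩)) (SignType.sign (D v ⟨a, b, c, q, s⟩))
          (SignType.sign (D v ⟨a, b, c, p, s⟩)) (SignType.sign (D v ⟨a, b, c, q, r⟩)) := by
      unfold selK sel
      split <;> rfl
    rw [hs]
    exact h1
  | fc f g h i u w rest ih =>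
    intro tab hI hr
    rw [run, Bool.and_eq_true, Bool.and_eq_true, Bool.and_eq_true] at hr
    obtain ⟨⟨h1, h2, h3⟩, h4⟩ := hr
    refine ih _ (addU_sound hI _ _ ?_) h4
    obtain ⟨hu, hu'⟩ := outb_sound h2
    obtain ⟨hw, hw'⟩ := outb_sound h3
    have hpos := hf f g h i (mem4_sound h1) u w hu hw hu' hw'
    have hsgn : SignType.sign (D v ⟨f, g, h, i, w⟩) = SignType.sign (D v ⟨f, g, h, i, u⟩)
        ∧ SignType.sign (D v ⟨f, g, h, i, w⟩) ≠ 0 := by
      rcases lt_trichotomy (D v ⟨f, g, h, i, w⟩) 0 with hx | hx | hx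
      · have : D v ⟨f, g, h, i, u⟩ < 0 := by
          by_contra hcon
          have := mul_nonpos_of_nonneg_of_nonpos (not_lt.mp hcon) hx.le
          linarith
        rw [sign_neg hx, sign_neg this]
        exact ⟨rfl, by decide⟩
      · rw [hx] at hpos
        simp at hpos
      · have : 0 < D v ⟨f, g, h, i, u⟩ := by
          by_contra hcon
          have := mul_nonpos_of_nonpos_of_nonneg (not_lt.mp hcon) hx.le
          linarith
        rw [sign_pos hx, sign_pos this]
        exact ⟨rfl, by decide⟩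
    rw [List.mem_filter]
    refine ⟨?_, ?_⟩
    · rw [hsgn.1]
      exact lookU_sound hI _
    · rw [Bool.and_eq_true]
      refine ⟨?_, ?_⟩
      · simpa using hsgn.2
      · rw [List.contains_iff_mem]
        exact lookU_sound hI _
  | split a b c d e d1 d2 r1 r2 ih1 ih2 =>
    intro tab hI hr
    rw [run, Bool.and_eq_true, Bool.and_eq_true] at hr
    obtain ⟨h1, h2, h3⟩ := hr
    rw [List.all_eq_true] at h1
    have h4 := h1 (SignType.sign (D v ⟨a, b, c, d, e⟩)) (by
      rcases SignType.trichotomy (SignType.sign (D v ⟨a, b, c, d, e⟩)) with h | h | h <;>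
        rw [h] <;> simp)
    rw [Bool.or_eq_true, List.contains_iff_mem, List.contains_iff_mem] at h4
    rcases h4 with h4 | h4
    · exact ih1 _ (addU_sound hI _ _ h4) h2
    · exact ih2 _ (addU_sound hI _ _ h4) h3

end Pool.Agent.X160.Mw
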