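import Pool.Agent.X160.Mwb

/-!
# From supporting hyperplanes to determinants

`facet_pos`: if all nonempty subsets of a four element set `{f, g, h, i}` are cut out by
supporting hyperplanes, then the determinants `(f, g, h, i, u)` have the same nonzero sign for
all other points `u`.
-/

namespace Pool.Agent.X160.Mw

/-- homogeneous coordinates -/
def hom (p : Fin 4 → ℝ) : Fin 5 → ℝ := Fin.cons 1 p

/-- the set `τ` is cut out by a supporting hyperplane of the points `pt` -/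
def Exposes {ι : Type*} (pt : ι → Fin 4 → ℝ) (τ : Set ι) (l : Fin 5 → ℝ) : Prop :=
  (∀ x ∈ τ, dotProduct (hom (pt x)) l = 0) ∧ (∀ x, x ∉ τ → 0 < dotProduct (hom (pt x)) l)

theorem det_facet {ι : Type*} (pt : ι → Fin 4 → ℝ) (f g h i : ι)
    (hfg : f ≠ g) (hfh : f ≠ h) (hfi : f ≠ i) (hgh : g ≠ h) (hgi : g ≠ i) (hhi : h ≠ i)
    (l1 l2 l3 l4 : Fin 5 → ℝ)
    (h1 : Exposes pt {f} l1) (h2 : Exposes pt {f, g} l2) (h3 : Exposes pt {f, g, h} l3)
    (h4 : Exposes pt {f, g, h, i} l4) (w : ι) (hwf : w ≠ f) (hwg : w ≠ g) (hwh : w ≠ h)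
    (hwi : w ≠ i) :
    0 < d5 (hom (pt f)) (hom (pt g)) (hom (pt h)) (hom (pt i)) (hom (pt w)) *
      (Matrix.of fun x c => (![Pi.single 0 1, l1, l2, l3, l4] : Fin 5 → Fin 5 → ℝ) c x :
        Matrix (Fin 5) (Fin 5) ℝ).det := by
  set L : Fin 5 → Fin 5 → ℝ := ![Pi.single 0 1, l1, l2, l3, l4] with hL
  set R : Fin 5 → Fin 5 → ℝ :=
    ![hom (pt f), hom (pt g), hom (pt h), hom (pt i), hom (pt w)] with hR
  have hprod : (Matrix.of R : Matrix (Fin 5) (Fin 5) ℝ)
      * (Matrix.of fun x c => L c x : Matrix (Fin 5) (Fin 5) ℝ)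
      = Matrix.of fun r c => dotProduct (R r) (L c) := by
    ext r c
    simp [Matrix.mul_apply, dotProduct]
  rw [d5, ← Matrix.det_mul, hprod]
  have f1 : dotProduct (hom (pt f)) l1 = 0 := h1.1 f (by simp)
  have f2 : dotProduct (hom (pt f)) l2 = 0 := h2.1 f (by simp)
  have f3 : dotProduct (hom (pt f)) l3 = 0 := h3.1 f (by simp)
  have f4 : dotProduct (hom (pt f)) l4 = 0 := h4.1 f (by simp)
  have g1 : 0 < dotProduct (hom (pt g)) l1 := h1.2 g (by simpa using hfg.symm)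
  have g2 : dotProduct (hom (pt g)) l2 = 0 := h2.1 g (by simp)
  have g3 : dotProduct (hom (pt g)) l3 = 0 := h3.1 g (by simp)
  have g4 : dotProduct (hom (pt g)) l4 = 0 := h4.1 g (by simp)
  have h2' : 0 < dotProduct (hom (pt h)) l2 := h2.2 h (by simp [hfh.symm, hgh.symm])
  have h3' : dotProduct (hom (pt h)) l3 = 0 := h3.1 h (by simp)
  have h4' : dotProduct (hom (pt h)) l4 = 0 := h4.1 h (by simp)
  have i3 : 0 < dotProduct (hom (pt i)) l3 := h3.2 i (by simp [hfi.symm, hgi.symm, hhi.symm])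
  have i4 : dotProduct (hom (pt i)) l4 = 0 := h4.1 i (by simp)
  have w4 : 0 < dotProduct (hom (pt w)) l4 := h4.2 w (by simp [hwf, hwg, hwh, hwi])
  have f0 : dotProduct (hom (pt f)) (Pi.single 0 1) = 1 := by
    rw [dotProduct_single]
    simp [hom]
  have hlow : (Matrix.of fun r c => dotProduct (R r) (L c) :
      Matrix (Fin 5) (Fin 5) ℝ).IsLowerTriangular := by
    intro r c hrc
    have hrc' : r < c := hrc
    show dotProduct (R r) (L c) = 0
    fin_cases r <;> fin_cases c <;>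
      first
      | exact absurd hrc' (by decide)
      | exact f1
      | exact f2
      | exact f3
      | exact f4
      | exact g2
      | exact g3
      | exact g4
      | exact h3'
      | exact h4'
      | exact i4
  rw [Matrix.det_of_isLowerTriangular _ hlow, Fin.prod_univ_five]
  show 0 < dotProduct (hom (pt f)) (Pi.single 0 1) * dotProduct (hom (pt g)) l1
    * dotProduct (hom (pt h)) l2 * dotProduct (hom (pt i)) l3 * dotProduct (hom (pt w)) l4
  rw [f0]
  positivity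

theorem facet_pos {ι : Type*} (pt : ι → Fin 4 → ℝ) (f g h i : ι)
    (hfg : f ≠ g) (hfh : f ≠ h) (hfi : f ≠ i) (hgh : g ≠ h) (hgi : g ≠ i) (hhi : h ≠ i)
    (h1 : ∃ l, Exposes pt {f} l) (h2 : ∃ l, Exposes pt {f, g} l)
    (h3 : ∃ l, Exposes pt {f, g, h} l) (h4 : ∃ l, Exposes pt {f, g, h, i} l)
    (u w : ι) (huf : u ≠ f) (hug : u ≠ g) (huh : u ≠ h) (hui : u ≠ i)
    (hwf : w ≠ f) (hwg : w ≠ g) (hwh : w ≠ h) (hwi : w ≠ i) :
    0 < d5 (hom (pt f)) (hom (pt g)) (hom (pt h)) (hom (pt i)) (hom (pt u)) *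
      d5 (hom (pt f)) (hom (pt g)) (hom (pt h)) (hom (pt i)) (hom (pt w)) := by
  obtain ⟨l1, h1⟩ := h1
  obtain ⟨l2, h2⟩ := h2
  obtain ⟨l3, h3⟩ := h3
  obtain ⟨l4, h4⟩ := h4
  have hu := det_facet pt f g h i hfg hfh hfi hgh hgi hhi l1 l2 l3 l4 h1 h2 h3 h4 u huf hug huh hui
  have hw := det_facet pt f g h i hfg hfh hfi hgh hgi hhi l1 l2 l3 l4 h1 h2 h3 h4 w hwf hwg hwh hwi
  set N := (Matrix.of fun x c => (![Pi.single 0 1, l1, l2, l3, l4] : Fin 5 → Fin 5 → ℝ) c x :
        Matrix (Fin 5) (Fin 5) ℝ).det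
  set A := d5 (hom (pt f)) (hom (pt g)) (hom (pt h)) (hom (pt i)) (hom (pt u))
  set B := d5 (hom (pt f)) (hom (pt g)) (hom (pt h)) (hom (pt i)) (hom (pt w))
  have hAB : 0 < (A * B) * (N * N) := by
    have := mul_pos hu hw
    nlinarith
  have hN : 0 < N * N := by
    rcases lt_trichotomy N 0 with hN | hN | hN
    · exact mul_pos_of_neg_of_neg hN hN
    · rw [hN] at hu; simp at hu
    · exact mul_pos hN hN
  exact (mul_pos_iff_of_pos_right hN).mp hAB

end Pool.Agent.X160.Mw
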