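import Mathlib

set_option autoImplicit false

namespace Pool.Agent.X160.Nta

abbrev E : Type := EuclideanSpace ℝ (Fin 4)

variable {ι : Type}

def Facet (N : ι → E) (c : ℝ) (i : ι) : Set E :=
  {x | inner ℝ (N i) x = c ∧ ∀ j, inner ℝ (N j) x ≤ c}

def dual (N : ι → E) (c : ℝ) : SimpleGraph ι where
  Adj i j := i ≠ j ∧ ∃ x y z : E, x ∈ Facet N c i ∩ Facet N c j ∧
    y ∈ Facet N c i ∩ Facet N c j ∧ z ∈ Facet N c i ∩ Facet N c j ∧
    AffineIndependent ℝ ![x, y, z]
  symm := ⟨by
    rintro i j ⟨h, x, y, z, hx, hy, hz, ha⟩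
    exact ⟨h.symm, x, y, z, hx.symm, hy.symm, hz.symm, ha⟩⟩
  loopless := ⟨fun i h => h.1 rfl⟩

structure IsUnfolding (N : ι → E) (c : ℝ) (T : SimpleGraph ι) (r : ι)
    (g : ι → E → E) : Prop where
  tree : T.IsTree
  le : T ≤ dual N c
  isom : ∀ i, Isometry (g i)
  root : ∀ i x, inner ℝ (N i) x = c → inner ℝ (N r) (g i x) = c
  agree : ∀ i j, T.Adj i j → ∀ x ∈ Facet N c i ∩ Facet N c j, g i x = g j x
  opp : ∀ i j, T.Adj i j → ∀ x ∈ Facet N c i, ∀ y ∈ Facet N c j,
    ∃ z, inner ℝ (N i) z = c ∧ inner ℝ (N j) z = c ∧ g i z ∈ segment ℝ (g i x) (g j y)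

def IsAllNet (N : ι → E) (c : ℝ) : Prop :=
  ∀ (T : SimpleGraph ι) (r : ι) (g : ι → E → E), IsUnfolding N c T r g →
    ∀ i j, i ≠ j → Disjoint (g i '' intrinsicInterior ℝ (Facet N c i))
      (g j '' intrinsicInterior ℝ (Facet N c j))

/-- points strictly inside a facet are in its relative interior -/
theorem mem_relint [Finite ι] {N : ι → E} {c : ℝ} {i : ι} {x : E}
    (h1 : inner ℝ (N i) x = c) (h2 : ∀ j, j ≠ i → inner ℝ (N j) x < c) :
    x ∈ intrinsicInterior ℝ (Facet N c i) := by
  have hx : x ∈ Facet N c i := by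
    refine ⟨h1, fun j => ?_⟩
    by_cases h : j = i
    · subst h; exact h1.le
    · exact (h2 j h).le
  rw [mem_intrinsicInterior]
  refine ⟨⟨x, subset_affineSpan ℝ _ hx⟩, ?_, rfl⟩
  rw [mem_interior]
  refine ⟨{y | ∀ j, j ≠ i → inner ℝ (N j) (y : E) < c}, ?_, ?_, ?_⟩
  · intro y hy
    have hyi : inner ℝ (N i) (y : E) = c := by
      have : affineSpan ℝ (Facet N c i) ≤
          AffineSubspace.comap ((innerₛₗ ℝ (N i)).toAffineMap)
            (AffineSubspace.mk' c ⊥) := by
        rw [affineSpan_le]
        intro z hz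
        simp only [SetLike.mem_coe, AffineSubspace.mem_comap, AffineSubspace.mem_mk']
        have := hz.1
        simp [this]
      have h3 := this y.2
      simp only [AffineSubspace.mem_comap, AffineSubspace.mem_mk'] at h3
      have h4 : inner ℝ (N i) (y : E) - c = 0 := by simpa using h3
      linarith
    refine ⟨hyi, fun j => ?_⟩
    by_cases h : j = i
    · subst h; exact hyi.le
    · exact (hy j h).le
  · have : {y : affineSpan ℝ (Facet N c i) | ∀ j, j ≠ i → inner ℝ (N j) (y : E) < c} =
        ⋂ j, {y : affineSpan ℝ (Facet N c i) | j ≠ i → inner ℝ (N j) (y : E) < c} := by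
      ext y; simp
    rw [this]
    refine isOpen_iInter_of_finite fun j => ?_
    by_cases h : j = i
    · simp [h]
    · simp only [ne_eq, h, not_false_eq_true, forall_const]
      exact isOpen_lt (by fun_prop) continuous_const
  · exact h2

/-- the fold: reflection across the bisecting hyperplane -/
noncomputable def R (c s : ℝ) (w x : E) : E := x - ((inner ℝ w x - 2 * c) / s) • w

theorem R_affine (c s : ℝ) (w x y : E) (a b : ℝ) (hab : a + b = 1) :
    R c s w (a • x + b • y) = a • R c s w x + b • R c s w y := by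
  unfold R
  have hb : b = 1 - a := by linarith
  subst hb
  rw [inner_add_right, inner_smul_right, inner_smul_right]
  module

theorem R_isom (c s : ℝ) (w : E) (hw : inner ℝ w w = 2 * s) (hs : s ≠ 0) :
    Isometry (R c s w) := by
  refine Isometry.of_dist_eq fun x y => ?_
  rw [dist_eq_norm, dist_eq_norm]
  have h : R c s w x - R c s w y = (x - y) - (inner ℝ w (x - y) / s) • w := by
    unfold R
    rw [inner_sub_right]
    module
  rw [h]
  have h2 : ‖(x - y) - (inner ℝ w (x - y) / s) • w‖ ^ 2 = ‖x - y‖ ^ 2 := by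
    rw [@norm_sub_sq_real, norm_smul, mul_pow, ← real_inner_self_eq_norm_sq w, hw,
      inner_smul_right, real_inner_comm w (x - y)]
    simp only [Real.norm_eq_abs, sq_abs]
    field_simp
    ring
  have h3 := congrArg Real.sqrt h2
  rwa [Real.sqrt_sq (norm_nonneg _), Real.sqrt_sq (norm_nonneg _)] at h3

/-! ### the spanning tree of a parent function -/

def ptree (r : ι) (par : ι → ι) (hne : ∀ i, i ≠ r → par i ≠ i) : SimpleGraph ι where
  Adj i j := (i ≠ r ∧ par i = j) ∨ (j ≠ r ∧ par j = i)
  symm := ⟨by
    rintro i j (h | h)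
    · exact Or.inr h
    · exact Or.inl h⟩
  loopless := ⟨by
    rintro i (h | h)
    · exact hne i h.1 h.2
    · exact hne i h.1 h.2⟩

theorem ptree_isTree [Finite ι] (r : ι) (par : ι → ι) (dep : ι → ℕ) (hr : dep r = 0)
    (hd : ∀ i, i ≠ r → dep i = dep (par i) + 1) (hne : ∀ i, i ≠ r → par i ≠ i) :
    (ptree r par hne).IsTree := by
  classical
  haveI := Fintype.ofFinite ι
  rw [SimpleGraph.isTree_iff_connected_and_card]
  constructor
  · have hreach : ∀ n, ∀ i, dep i = n → (ptree r par hne).Reachable i r := by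
      intro n
      induction n with
      | zero =>
        intro i hi
        by_cases h : i = r
        · subst h; exact SimpleGraph.Reachable.refl _
        · have := hd i h; omega
      | succ n ih =>
        intro i hi
        by_cases h : i = r
        · subst h; exact SimpleGraph.Reachable.refl _
        · have h1 := hd i h
          have h2 := ih (par i) (by omega)
          have h3 : (ptree r par hne).Adj i (par i) := Or.inl ⟨h, rfl⟩
          exact h3.reachable.trans h2
    haveI : Nonempty ι := ⟨r⟩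
    exact SimpleGraph.Connected.mk fun i j =>
      (hreach _ i rfl).trans (hreach _ j rfl).symm
  · let f : {i // i ≠ r} → (ptree r par hne).edgeSet := fun i =>
      ⟨s(i.1, par i.1), by
        rw [SimpleGraph.mem_edgeSet]
        exact Or.inl ⟨i.2, rfl⟩⟩
    have hf : Function.Bijective f := by
      constructor
      · intro i j hij
        have h1 : s(i.1, par i.1) = s(j.1, par j.1) := congrArg Subtype.val hij
        rw [Sym2.eq_iff] at h1
        rcases h1 with h1 | h1
        · exact Subtype.ext h1.1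
        · exfalso
          have h2 := hd i.1 i.2
          have h3 := hd j.1 j.2
          rw [← h1.1] at h3
          rw [h1.2] at h2
          omega
      · rintro ⟨e, he⟩
        induction e using Sym2.ind with
        | _ a b =>
          rw [SimpleGraph.mem_edgeSet] at he
          rcases he with h | h
          · exact ⟨⟨a, h.1⟩, Subtype.ext (by simp [f, h.2])⟩
          · exact ⟨⟨b, h.1⟩, Subtype.ext (by simp [f, h.2, Sym2.eq_swap])⟩
    rw [← Nat.card_congr (Equiv.ofBijective f hf), Nat.card_eq_fintype_card,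
      Nat.card_eq_fintype_card]
    have : Fintype.card {i // i ≠ r} = Fintype.card ι - 1 := by
      rw [Fintype.card_subtype, Finset.filter_ne', Finset.card_erase_of_mem (Finset.mem_univ _),
        Finset.card_univ]
    rw [this]
    have : 0 < Fintype.card ι := Fintype.card_pos_iff.2 ⟨r⟩
    omega

/-! ### the placements -/

open Classical in
noncomputable def G (N : ι → E) (c s : ℝ) (r : ι) (par : ι → ι) : ℕ → ι → E → E
  | 0, _, x => x
  | n + 1, i, x => if i = r then x else G N c s r par n (par i) (R c s (N i + N (par i)) x)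

theorem main [Finite ι] (N : ι → E) (c K k : ℝ) (hKk : 0 < K + k)
    (hK : ∀ i, inner ℝ (N i) (N i) = K) (r : ι) (par : ι → ι) (dep : ι → ℕ) (hr : dep r = 0)
    (hd : ∀ i, i ≠ r → dep i = dep (par i) + 1)
    (hk : ∀ i, i ≠ r → inner ℝ (N i) (N (par i)) = k)
    (hadj : ∀ i, i ≠ r → ∃ x y z : E, x ∈ Facet N c i ∩ Facet N c (par i) ∧
      y ∈ Facet N c i ∩ Facet N c (par i) ∧ z ∈ Facet N c i ∩ Facet N c (par i) ∧
      AffineIndependent ℝ ![x, y, z])
    (j : ι) (hj : j ≠ r) (x y : E)
    (hx : inner ℝ (N r) x = c) (hx' : ∀ i, i ≠ r → inner ℝ (N i) x < c)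
    (hy : inner ℝ (N j) y = c) (hy' : ∀ i, i ≠ j → inner ℝ (N i) y < c)
    (hxy : G N c (K + k) r par (dep j) j y = x) : ¬ IsAllNet N c := by
  classical
  intro hall
  have hne : ∀ i, i ≠ r → par i ≠ i := by
    intro i hi h
    have := hd i hi
    rw [h] at this
    omega
  set g : ι → E → E := fun i => G N c (K + k) r par (dep i) i with hg
  have g_r : ∀ x, g r x = x := by
    intro x; simp only [hg, hr, G]
  have g_s : ∀ i, i ≠ r → ∀ x, g i x = g (par i) (R c (K + k) (N i + N (par i)) x) := by
    intro i hi x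
    simp only [hg]
    rw [hd i hi]
    simp only [G, hi, if_false]
  -- inner products
  have hw1 : ∀ i, i ≠ r → inner ℝ (N i) (N i + N (par i)) = K + k := by
    intro i hi; rw [inner_add_right, hK, hk i hi]
  have hw2 : ∀ i, i ≠ r → inner ℝ (N (par i)) (N i + N (par i)) = K + k := by
    intro i hi; rw [inner_add_right, hK, real_inner_comm, hk i hi, add_comm]
  have hww : ∀ i, i ≠ r → inner ℝ (N i + N (par i)) (N i + N (par i)) = 2 * (K + k) := by
    intro i hi; rw [inner_add_left, hw1 i hi, hw2 i hi]; ring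
  have hRp : ∀ i, i ≠ r → ∀ x, inner ℝ (N (par i)) (R c (K + k) (N i + N (par i)) x)
      = 2 * c - inner ℝ (N i) x := by
    intro i hi x
    unfold R
    rw [inner_sub_right, inner_smul_right, hw2 i hi, div_mul_cancel₀ _ hKk.ne', inner_add_left]
    ring
  have hRi : ∀ i, i ≠ r → ∀ x, inner ℝ (N i) (R c (K + k) (N i + N (par i)) x)
      = 2 * c - inner ℝ (N (par i)) x := by
    intro i hi x
    unfold R
    rw [inner_sub_right, inner_smul_right, hw1 i hi, div_mul_cancel₀ _ hKk.ne', inner_add_left]
    ring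
  have hRfix : ∀ i, i ≠ r → ∀ x, inner ℝ (N i) x = c → inner ℝ (N (par i)) x = c →
      R c (K + k) (N i + N (par i)) x = x := by
    intro i hi x h1 h2
    unfold R
    rw [inner_add_left, h1, h2, show c + c - 2 * c = 0 by ring]
    simp
  have ind : ∀ n, ∀ i, dep i = n → Isometry (g i) ∧
      (∀ x, inner ℝ (N i) x = c → inner ℝ (N r) (g i x) = c) ∧
      (∀ (x y : E) (a b : ℝ), a + b = 1 → g i (a • x + b • y) = a • g i x + b • g i y) := by
    intro n
    induction n with
    | zero =>
      intro i hi
      have h : i = r := by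
        by_contra h
        have := hd i h
        omega
      subst h
      have h2 : g i = id := by funext x; exact g_r x
      rw [h2]
      exact ⟨isometry_id, fun x hx => hx, fun x y a b _ => rfl⟩
    | succ n ih =>
      intro i hi
      have h : i ≠ r := by
        rintro rfl
        omega
      have h1 := hd i h
      obtain ⟨i1, i2, i3⟩ := ih (par i) (by omega)
      have h2 : g i = g (par i) ∘ R c (K + k) (N i + N (par i)) := by
        funext x; exact g_s i h x
      rw [h2]
      refine ⟨i1.comp (R_isom _ _ _ (hww i h) hKk.ne'), ?_, ?_⟩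
      · intro x hx
        apply i2
        rw [hRp i h, hx]
        ring
      · intro x y a b hab
        simp only [Function.comp]
        rw [R_affine _ _ _ _ _ _ _ hab, i3 _ _ _ _ hab]
  -- the opposite side condition for child i and parent
  have hopp : ∀ i, i ≠ r → ∀ x ∈ Facet N c (par i), ∀ y ∈ Facet N c i,
      ∃ z, inner ℝ (N i) z = c ∧ inner ℝ (N (par i)) z = c ∧
        g (par i) z ∈ segment ℝ (g (par i) x) (g i y) := by
    intro i hi x hx y hy
    have h1 : inner ℝ (N (par i)) (R c (K + k) (N i + N (par i)) y) = c := by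
      rw [hRp i hi, hy.1]; ring
    have h2 : c ≤ inner ℝ (N i) (R c (K + k) (N i + N (par i)) y) := by
      rw [hRi i hi]; linarith [hy.2 (par i)]
    have h3 : inner ℝ (N i) x ≤ c := hx.2 i
    set y' := R c (K + k) (N i + N (par i)) y with hy'
    have haff := (ind _ (par i) rfl).2.2
    rcases eq_or_lt_of_le h3 with h4 | h4
    · refine ⟨x, h4, hx.1, ?_⟩
      exact left_mem_segment ℝ _ _
    · set p := c - inner ℝ (N i) x with hp
      set q := inner ℝ (N i) y' - c with hq
      have hp0 : 0 < p := by rw [hp]; linarith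
      have hq0 : 0 ≤ q := by rw [hq]; linarith
      have hpq : 0 < p + q := by linarith
      refine ⟨(q / (p + q)) • x + (p / (p + q)) • y', ?_, ?_, ?_⟩
      · rw [inner_add_right, inner_smul_right, inner_smul_right]
        have e1 : inner ℝ (N i) x = c - p := by rw [hp]; ring
        have e2 : inner ℝ (N i) y' = c + q := by rw [hq]; ring
        rw [e1, e2]
        field_simp
        ring
      · rw [inner_add_right, inner_smul_right, inner_smul_right, hx.1, h1]
        field_simp
        ring
      · rw [haff _ _ _ _ (by field_simp; ring), g_s i hi y]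
        exact ⟨q / (p + q), p / (p + q), by positivity, by positivity, by field_simp; ring, rfl⟩
  have hunf : IsUnfolding N c (ptree r par hne) r g := by
    refine ⟨ptree_isTree r par dep hr hd hne, ?_, fun i => (ind _ i rfl).1,
      fun i => (ind _ i rfl).2.1, ?_, ?_⟩
    · rintro i j (⟨h1, h2⟩ | ⟨h1, h2⟩)
      · subst h2
        exact ⟨(hne i h1).symm, hadj i h1⟩
      · subst h2
        exact (dual N c).symm.symm _ _ ⟨(hne j h1).symm, hadj j h1⟩
    · rintro i j (⟨h1, h2⟩ | ⟨h1, h2⟩) x hx
      · subst h2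
        rw [g_s i h1, hRfix i h1 x hx.1.1 hx.2.1]
      · subst h2
        rw [g_s j h1, hRfix j h1 x hx.2.1 hx.1.1]
    · rintro i j (⟨h1, h2⟩ | ⟨h1, h2⟩) x hx y hy
      · subst h2
        obtain ⟨z, z1, z2, z3⟩ := hopp i h1 y hy x hx
        refine ⟨z, z1, z2, ?_⟩
        rw [segment_symm, g_s i h1 z, hRfix i h1 z z1 z2]
        exact z3
      · subst h2
        obtain ⟨z, z1, z2, z3⟩ := hopp j h1 x hx y hy
        exact ⟨z, z2, z1, z3⟩
  have hdis := hall _ r g hunf j r hj
  rw [Set.disjoint_left] at hdis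
  refine hdis ⟨y, mem_relint hy hy', rfl⟩ ⟨x, mem_relint hx hx', ?_⟩
  rw [g_r]
  exact hxy.symm

end Pool.Agent.X160.Nta
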