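import Pool.Agent.X160.Nta

set_option autoImplicit false

namespace Pool.Agent.X160.Nta

/-- the number `a + b φ` of `ℤ[φ]` -/
structure Z where
  a : ℤ
  b : ℤ
deriving DecidableEq

namespace Z

noncomputable def val (x : Z) : ℝ := x.a + x.b * Real.goldenRatio

def add (x y : Z) : Z := ⟨x.a + y.a, x.b + y.b⟩
def sub (x y : Z) : Z := ⟨x.a - y.a, x.b - y.b⟩
def mul (x y : Z) : Z := ⟨x.a * y.a + x.b * y.b, x.a * y.b + x.b * y.a + x.b * y.b⟩

def pos (x : Z) : Bool :=
  if 0 ≤ x.b then decide (0 < 1000000000 * x.a + 1618033988 * x.b)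
  else decide (0 < 1000000000 * x.a + 1618033989 * x.b)

theorem val_add (x y : Z) : (x.add y).val = x.val + y.val := by
  simp only [val, add]; push_cast; ring

theorem val_sub (x y : Z) : (x.sub y).val = x.val - y.val := by
  simp only [val, sub]; push_cast; ring

theorem val_mul (x y : Z) : (x.mul y).val = x.val * y.val := by
  simp only [val, mul]; push_cast
  linear_combination (-(x.b : ℝ) * y.b) * Real.goldenRatio_sq

theorem phi_lo : (1.618033988 : ℝ) < Real.goldenRatio := by
  have : (2.236067976 : ℝ) < Real.sqrt 5 := by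
    rw [Real.lt_sqrt (by norm_num)]; norm_num
  unfold Real.goldenRatio; linarith

theorem phi_hi : Real.goldenRatio < (1.618033989 : ℝ) := by
  have : Real.sqrt 5 < (2.236067978 : ℝ) := by
    rw [Real.sqrt_lt' (by norm_num)]; norm_num
  unfold Real.goldenRatio; linarith

theorem val_pos {x : Z} (h : x.pos = true) : 0 < x.val := by
  have h1 := phi_lo
  have h2 := phi_hi
  unfold pos at h
  unfold val
  split_ifs at h with hb
  · have h3 : (0 : ℤ) < 1000000000 * x.a + 1618033988 * x.b := by simpa using h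
    have h4 : (0 : ℝ) < 1000000000 * (x.a : ℝ) + 1618033988 * x.b := by exact_mod_cast h3
    have h5 : (0 : ℝ) ≤ x.b := by exact_mod_cast hb
    nlinarith
  · have h3 : (0 : ℤ) < 1000000000 * x.a + 1618033989 * x.b := by simpa using h
    have h4 : (0 : ℝ) < 1000000000 * (x.a : ℝ) + 1618033989 * x.b := by exact_mod_cast h3
    have h5 : (x.b : ℝ) < 0 := by exact_mod_cast not_le.1 hb
    nlinarith

end Z

/-- a vector of `ℤ[φ]⁴` -/
structure Q where
  x : Z
  y : Z
  z : Z
  w : Z
deriving DecidableEq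

namespace Q

def add (p q : Q) : Q := ⟨p.x.add q.x, p.y.add q.y, p.z.add q.z, p.w.add q.w⟩
def dot (p q : Q) : Z :=
  (((p.x.mul q.x).add (p.y.mul q.y)).add (p.z.mul q.z)).add (p.w.mul q.w)

noncomputable def vec (p : Q) : E := !₂[p.x.val, p.y.val, p.z.val, p.w.val]

theorem inner_vec (p q : Q) : inner ℝ p.vec q.vec = (p.dot q).val := by
  simp only [vec, dot, Z.val_add, Z.val_mul]
  simp [PiLp.inner_apply, Fin.sum_univ_four]
  ring

theorem vec_add (p q : Q) : (p.add q).vec = p.vec + q.vec := by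
  ext i
  fin_cases i <;> simp [vec, add, Z.val_add]

theorem vec_sub_x (p q : Q) : p.vec - q.vec =
    !₂[p.x.val - q.x.val, p.y.val - q.y.val, p.z.val - q.z.val, p.w.val - q.w.val] := by
  ext i
  fin_cases i <;> simp [vec]

end Q

/-- the integer form of `R y₁ = y₀` with `y = Y / D` -/
def foldOk (c s : Z) (D : Z) (w Y1 Y0 : Q) : Bool :=
  let t := (w.dot Y1).sub ((Z.mul ⟨2, 0⟩ D).mul c)
  decide (s.mul (Y1.x.sub Y0.x) = t.mul w.x) && decide (s.mul (Y1.y.sub Y0.y) = t.mul w.y) &&
  decide (s.mul (Y1.z.sub Y0.z) = t.mul w.z) && decide (s.mul (Y1.w.sub Y0.w) = t.mul w.w)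

theorem R_eval {c s D : Z} {w Y1 Y0 : Q} (h : foldOk c s D w Y1 Y0 = true) (hs : s.val ≠ 0)
    (hD : D.val ≠ 0) :
    R c.val s.val w.vec (D.val⁻¹ • Y1.vec) = D.val⁻¹ • Y0.vec := by
  simp only [foldOk, Bool.and_eq_true, decide_eq_true_eq] at h
  obtain ⟨⟨⟨h1, h2⟩, h3⟩, h4⟩ := h
  have e1 := congrArg Z.val h1
  have e2 := congrArg Z.val h2
  have e3 := congrArg Z.val h3
  have e4 := congrArg Z.val h4
  simp only [Z.val_mul, Z.val_sub] at e1 e2 e3 e4
  have e5 : (Z.mk 2 0).val = 2 := by simp [Z.val]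
  rw [e5] at e1 e2 e3 e4
  unfold R
  rw [inner_smul_right, Q.inner_vec]
  ext i
  fin_cases i
  · simp [Q.vec]
    field_simp
    linear_combination e1
  · simp [Q.vec]
    field_simp
    linear_combination e2
  · simp [Q.vec]
    field_simp
    linear_combination e3
  · simp [Q.vec]
    field_simp
    linear_combination e4

theorem G_chain {ι : Type} (N : ι → E) (c s : ℝ) (r : ι) (par : ι → ι) (p : ℕ → ι) (Y : ℕ → E)
    (n : ℕ) (hne : ∀ k < n, p (k + 1) ≠ r) (hpar : ∀ k < n, par (p (k + 1)) = p k)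
    (hR : ∀ k < n, R c s (N (p (k + 1)) + N (p k)) (Y (k + 1)) = Y k) :
    G N c s r par n (p n) (Y n) = Y 0 := by
  induction n with
  | zero => rfl
  | succ n ih =>
    simp only [G]
    rw [if_neg (hne n (by omega)), hpar n (by omega), hR n (by omega)]
    exact ih (fun k hk => hne k (by omega)) (fun k hk => hpar k (by omega))
      (fun k hk => hR k (by omega))

/-- three distinct points of equal norm are affinely independent -/
theorem affInd {x y z : E} {ρ : ℝ} (hx : inner ℝ x x = ρ) (hy : inner ℝ y y = ρ)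
    (hz : inner ℝ z z = ρ) (hxy : x ≠ y) (hxz : x ≠ z) (hyz : y ≠ z) :
    AffineIndependent ℝ ![x, y, z] := by
  have hc : EuclideanGeometry.Cospherical ({x, y, z} : Set E) := by
    refine ⟨0, Real.sqrt ρ, ?_⟩
    intro p hp
    rw [dist_zero_right]
    rcases hp with rfl | rfl | rfl
    · rw [← hx, real_inner_self_eq_norm_sq, Real.sqrt_sq (norm_nonneg _)]
    · rw [← hy, real_inner_self_eq_norm_sq, Real.sqrt_sq (norm_nonneg _)]
    · rw [← hz, real_inner_self_eq_norm_sq, Real.sqrt_sq (norm_nonneg _)]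
  exact hc.affineIndependent_of_ne hxy hxz hyz

end Pool.Agent.X160.Nta
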