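import Pool.Agent.X160.Ntb

set_option autoImplicit false

namespace Pool.Agent.X160.Nta

theorem finish {ι : Type} [Finite ι] (N : ι → E) (q : ι → Q) (hq : ∀ i, N i = (q i).vec)
    (c K k : Z) (hKk : 0 < (K.add k).val)
    (hK : ∀ i, inner ℝ (N i) (N i) = K.val) (r : ι) (par : ι → ι) (dep : ι → ℕ)
    (hr : dep r = 0) (hd : ∀ i, i ≠ r → dep i = dep (par i) + 1)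
    (hk : ∀ i, i ≠ r → inner ℝ (N i) (N (par i)) = k.val)
    (hadj : ∀ i, i ≠ r → ∃ x y z : E, x ∈ Facet N c.val i ∩ Facet N c.val (par i) ∧
      y ∈ Facet N c.val i ∩ Facet N c.val (par i) ∧
      z ∈ Facet N c.val i ∩ Facet N c.val (par i) ∧ AffineIndependent ℝ ![x, y, z])
    (D : Z) (hD : 0 < D.val) (n : ℕ) (p : ℕ → ι) (Y : ℕ → Q) (hp0 : p 0 = r)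
    (hpn : dep (p n) = n) (hn : p n ≠ r)
    (hne : ∀ j < n, p (j + 1) ≠ r) (hpar : ∀ j < n, par (p (j + 1)) = p j)
    (hfold : ∀ j < n,
      foldOk c (K.add k) D ((q (p (j + 1))).add (q (p j))) (Y (j + 1)) (Y j) = true)
    (hx : (q r).dot (Y 0) = c.mul D)
    (hx' : ∀ i, i ≠ r → ((c.mul D).sub ((q i).dot (Y 0))).pos = true)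
    (hy : (q (p n)).dot (Y n) = c.mul D)
    (hy' : ∀ i, i ≠ p n → ((c.mul D).sub ((q i).dot (Y n))).pos = true) :
    ¬ IsAllNet N c.val := by
  have hin : ∀ i y, inner ℝ (N i) (D.val⁻¹ • Q.vec y) = D.val⁻¹ * ((q i).dot y).val := by
    intro i y
    rw [inner_smul_right, hq, Q.inner_vec]
  have heq : ∀ i y, (q i).dot y = c.mul D → inner ℝ (N i) (D.val⁻¹ • Q.vec y) = c.val := by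
    intro i y h
    rw [hin, h, Z.val_mul]
    field_simp
  have hlt : ∀ i y, ((c.mul D).sub ((q i).dot y)).pos = true →
      inner ℝ (N i) (D.val⁻¹ • Q.vec y) < c.val := by
    intro i y h
    have h1 := Z.val_pos h
    rw [Z.val_sub, Z.val_mul] at h1
    rw [hin, inv_mul_lt_iff₀ hD]
    linarith
  refine main N c.val K.val k.val (by rw [← Z.val_add]; exact hKk) hK r par dep hr hd hk hadj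
    (p n) hn (D.val⁻¹ • (Y 0).vec) (D.val⁻¹ • (Y n).vec) (heq _ _ hx)
    (fun i hi => hlt _ _ (hx' i hi)) (heq _ _ hy) (fun i hi => hlt _ _ (hy' i hi)) ?_
  rw [hpn]
  refine G_chain N c.val (K.val + k.val) r par p (fun j => D.val⁻¹ • (Y j).vec) n hne hpar ?_
  intro j hj
  rw [hq, hq, ← Q.vec_add, ← Z.val_add]
  exact R_eval (hfold j hj) hKk.ne' hD.ne'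

/-! ### the normals -/

def sg : List ℤ := [1, -1]

def o : Z := ⟨0, 0⟩

def L8 : List Q := sg.flatMap fun s =>
  [⟨⟨2 * s, 0⟩, o, o, o⟩, ⟨o, ⟨2 * s, 0⟩, o, o⟩, ⟨o, o, ⟨2 * s, 0⟩, o⟩, ⟨o, o, o, ⟨2 * s, 0⟩⟩]

def L16 : List Q := sg.flatMap fun a => sg.flatMap fun b => sg.flatMap fun c => sg.map fun d =>
  ⟨⟨a, 0⟩, ⟨b, 0⟩, ⟨c, 0⟩, ⟨d, 0⟩⟩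

def L96 : List Q := sg.flatMap fun s => sg.flatMap fun t => sg.flatMap fun u =>
  [⟨⟨0, s⟩, ⟨t, 0⟩, ⟨-u, u⟩, o⟩, ⟨⟨0, s⟩, o, ⟨t, 0⟩, ⟨-u, u⟩⟩, ⟨⟨0, s⟩, ⟨-u, u⟩, o, ⟨t, 0⟩⟩,
    ⟨⟨t, 0⟩, ⟨0, s⟩, o, ⟨-u, u⟩⟩, ⟨⟨-u, u⟩, ⟨0, s⟩, ⟨t, 0⟩, o⟩, ⟨o, ⟨0, s⟩, ⟨-u, u⟩, ⟨t, 0⟩⟩,
    ⟨⟨t, 0⟩, ⟨-u, u⟩, ⟨0, s⟩, o⟩, ⟨o, ⟨t, 0⟩, ⟨0, s⟩, ⟨-u, u⟩⟩, ⟨⟨-u, u⟩, o, ⟨0, s⟩, ⟨t, 0⟩⟩,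
    ⟨⟨t, 0⟩, o, ⟨-u, u⟩, ⟨0, s⟩⟩, ⟨⟨-u, u⟩, ⟨t, 0⟩, o, ⟨0, s⟩⟩, ⟨o, ⟨-u, u⟩, ⟨t, 0⟩, ⟨0, s⟩⟩]

def q24 (i : ℕ) : Q := (L8 ++ L16).getD i ⟨o, o, o, o⟩

def q120 (i : ℕ) : Q := (L8 ++ L16 ++ L96).getD i ⟨o, o, o, o⟩

noncomputable def N24 (i : Fin 24) : E := (q24 i).vec

noncomputable def N120 (i : Fin 120) : E := (q120 i).vec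

def Cell : Type := {t : Fin 120 × Fin 120 × Fin 120 × Fin 120 //
  (t.1 < t.2.1 ∧ t.2.1 < t.2.2.1 ∧ t.2.2.1 < t.2.2.2) ∧
  inner ℝ (N120 t.1) (N120 t.2.1) = 2 * Real.goldenRatio ∧
  inner ℝ (N120 t.1) (N120 t.2.2.1) = 2 * Real.goldenRatio ∧
  inner ℝ (N120 t.1) (N120 t.2.2.2) = 2 * Real.goldenRatio ∧
  inner ℝ (N120 t.2.1) (N120 t.2.2.1) = 2 * Real.goldenRatio ∧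
  inner ℝ (N120 t.2.1) (N120 t.2.2.2) = 2 * Real.goldenRatio ∧
  inner ℝ (N120 t.2.2.1) (N120 t.2.2.2) = 2 * Real.goldenRatio}

noncomputable def N600 (t : Cell) : E :=
  N120 t.1.1 + N120 t.1.2.1 + N120 t.1.2.2.1 + N120 t.1.2.2.2

/-! ### the 24-cell -/

def par24 : List ℕ := [12, 16, 20, 16, 16, 12, 22, 17, 2, 2, 3, 1, 3, 12, 3, 5, 16, 16, 16, 1, 22, 5, 5, 5]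

def dep24 : List ℕ := [3, 1, 6, 1, 1, 3, 5, 2, 7, 7, 2, 2, 2, 3, 2, 4, 0, 1, 1, 2, 5, 4, 4, 4]

def tri24 : List (Q × Q × Q) := [(⟨⟨1,0⟩,⟨-1,0⟩,⟨0,0⟩,⟨0,0⟩⟩, ⟨⟨1,0⟩,⟨0,0⟩,⟨1,0⟩,⟨0,0⟩⟩, ⟨⟨1,0⟩,⟨0,0⟩,⟨0,0⟩,⟨1,0⟩⟩),
  (⟨⟨-1,0⟩,⟨1,0⟩,⟨0,0⟩,⟨0,0⟩⟩, ⟨⟨0,0⟩,⟨1,0⟩,⟨1,0⟩,⟨0,0⟩⟩, ⟨⟨0,0⟩,⟨1,0⟩,⟨0,0⟩,⟨1,0⟩⟩),
  (⟨⟨-1,0⟩,⟨0,0⟩,⟨1,0⟩,⟨0,0⟩⟩, ⟨⟨0,0⟩,⟨-1,0⟩,⟨1,0⟩,⟨0,0⟩⟩, ⟨⟨0,0⟩,⟨0,0⟩,⟨1,0⟩,⟨1,0⟩⟩),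
  (⟨⟨-1,0⟩,⟨0,0⟩,⟨0,0⟩,⟨1,0⟩⟩, ⟨⟨0,0⟩,⟨1,0⟩,⟨0,0⟩,⟨1,0⟩⟩, ⟨⟨0,0⟩,⟨0,0⟩,⟨1,0⟩,⟨1,0⟩⟩),
  (⟨⟨-1,0⟩,⟨1,0⟩,⟨0,0⟩,⟨0,0⟩⟩, ⟨⟨-1,0⟩,⟨0,0⟩,⟨1,0⟩,⟨0,0⟩⟩, ⟨⟨-1,0⟩,⟨0,0⟩,⟨0,0⟩,⟨1,0⟩⟩),
  (⟨⟨1,0⟩,⟨-1,0⟩,⟨0,0⟩,⟨0,0⟩⟩, ⟨⟨0,0⟩,⟨-1,0⟩,⟨1,0⟩,⟨0,0⟩⟩, ⟨⟨0,0⟩,⟨-1,0⟩,⟨0,0⟩,⟨1,0⟩⟩),
  (⟨⟨-1,0⟩,⟨0,0⟩,⟨-1,0⟩,⟨0,0⟩⟩, ⟨⟨0,0⟩,⟨-1,0⟩,⟨-1,0⟩,⟨0,0⟩⟩, ⟨⟨0,0⟩,⟨0,0⟩,⟨-1,0⟩,⟨1,0⟩⟩),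
  (⟨⟨-1,0⟩,⟨0,0⟩,⟨0,0⟩,⟨-1,0⟩⟩, ⟨⟨0,0⟩,⟨1,0⟩,⟨0,0⟩,⟨-1,0⟩⟩, ⟨⟨0,0⟩,⟨0,0⟩,⟨1,0⟩,⟨-1,0⟩⟩),
  (⟨⟨1,0⟩,⟨0,0⟩,⟨1,0⟩,⟨0,0⟩⟩, ⟨⟨0,0⟩,⟨1,0⟩,⟨1,0⟩,⟨0,0⟩⟩, ⟨⟨0,0⟩,⟨0,0⟩,⟨1,0⟩,⟨1,0⟩⟩),
  (⟨⟨1,0⟩,⟨0,0⟩,⟨1,0⟩,⟨0,0⟩⟩, ⟨⟨0,0⟩,⟨1,0⟩,⟨1,0⟩,⟨0,0⟩⟩, ⟨⟨0,0⟩,⟨0,0⟩,⟨1,0⟩,⟨-1,0⟩⟩),
  (⟨⟨1,0⟩,⟨0,0⟩,⟨0,0⟩,⟨1,0⟩⟩, ⟨⟨0,0⟩,⟨1,0⟩,⟨0,0⟩,⟨1,0⟩⟩, ⟨⟨0,0⟩,⟨0,0⟩,⟨-1,0⟩,⟨1,0⟩⟩),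
  (⟨⟨1,0⟩,⟨1,0⟩,⟨0,0⟩,⟨0,0⟩⟩, ⟨⟨0,0⟩,⟨1,0⟩,⟨-1,0⟩,⟨0,0⟩⟩, ⟨⟨0,0⟩,⟨1,0⟩,⟨0,0⟩,⟨-1,0⟩⟩),
  (⟨⟨1,0⟩,⟨0,0⟩,⟨0,0⟩,⟨1,0⟩⟩, ⟨⟨0,0⟩,⟨-1,0⟩,⟨0,0⟩,⟨1,0⟩⟩, ⟨⟨0,0⟩,⟨0,0⟩,⟨1,0⟩,⟨1,0⟩⟩),
  (⟨⟨1,0⟩,⟨-1,0⟩,⟨0,0⟩,⟨0,0⟩⟩, ⟨⟨1,0⟩,⟨0,0⟩,⟨1,0⟩,⟨0,0⟩⟩, ⟨⟨0,0⟩,⟨-1,0⟩,⟨1,0⟩,⟨0,0⟩⟩),
  (⟨⟨1,0⟩,⟨0,0⟩,⟨0,0⟩,⟨1,0⟩⟩, ⟨⟨0,0⟩,⟨-1,0⟩,⟨0,0⟩,⟨1,0⟩⟩, ⟨⟨0,0⟩,⟨0,0⟩,⟨-1,0⟩,⟨1,0⟩⟩),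
  (⟨⟨1,0⟩,⟨-1,0⟩,⟨0,0⟩,⟨0,0⟩⟩, ⟨⟨0,0⟩,⟨-1,0⟩,⟨-1,0⟩,⟨0,0⟩⟩, ⟨⟨0,0⟩,⟨-1,0⟩,⟨0,0⟩,⟨-1,0⟩⟩),
  (⟨⟨-1,0⟩,⟨1,0⟩,⟨0,0⟩,⟨0,0⟩⟩, ⟨⟨-1,0⟩,⟨0,0⟩,⟨1,0⟩,⟨0,0⟩⟩, ⟨⟨-1,0⟩,⟨0,0⟩,⟨0,0⟩,⟨1,0⟩⟩),
  (⟨⟨-1,0⟩,⟨1,0⟩,⟨0,0⟩,⟨0,0⟩⟩, ⟨⟨-1,0⟩,⟨0,0⟩,⟨1,0⟩,⟨0,0⟩⟩, ⟨⟨0,0⟩,⟨1,0⟩,⟨1,0⟩,⟨0,0⟩⟩),
  (⟨⟨-1,0⟩,⟨1,0⟩,⟨0,0⟩,⟨0,0⟩⟩, ⟨⟨-1,0⟩,⟨0,0⟩,⟨0,0⟩,⟨1,0⟩⟩, ⟨⟨0,0⟩,⟨1,0⟩,⟨0,0⟩,⟨1,0⟩⟩),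
  (⟨⟨-1,0⟩,⟨1,0⟩,⟨0,0⟩,⟨0,0⟩⟩, ⟨⟨0,0⟩,⟨1,0⟩,⟨-1,0⟩,⟨0,0⟩⟩, ⟨⟨0,0⟩,⟨1,0⟩,⟨0,0⟩,⟨-1,0⟩⟩),
  (⟨⟨-1,0⟩,⟨-1,0⟩,⟨0,0⟩,⟨0,0⟩⟩, ⟨⟨-1,0⟩,⟨0,0⟩,⟨0,0⟩,⟨1,0⟩⟩, ⟨⟨0,0⟩,⟨-1,0⟩,⟨0,0⟩,⟨1,0⟩⟩),
  (⟨⟨-1,0⟩,⟨-1,0⟩,⟨0,0⟩,⟨0,0⟩⟩, ⟨⟨0,0⟩,⟨-1,0⟩,⟨1,0⟩,⟨0,0⟩⟩, ⟨⟨0,0⟩,⟨-1,0⟩,⟨0,0⟩,⟨-1,0⟩⟩),
  (⟨⟨-1,0⟩,⟨-1,0⟩,⟨0,0⟩,⟨0,0⟩⟩, ⟨⟨0,0⟩,⟨-1,0⟩,⟨-1,0⟩,⟨0,0⟩⟩, ⟨⟨0,0⟩,⟨-1,0⟩,⟨0,0⟩,⟨1,0⟩⟩),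
  (⟨⟨-1,0⟩,⟨-1,0⟩,⟨0,0⟩,⟨0,0⟩⟩, ⟨⟨0,0⟩,⟨-1,0⟩,⟨-1,0⟩,⟨0,0⟩⟩, ⟨⟨0,0⟩,⟨-1,0⟩,⟨0,0⟩,⟨-1,0⟩⟩)]

def path24 : List ℕ := [16, 3, 12, 5, 22, 20, 2, 8]

def pts24 : List Q := [⟨⟨-868,0⟩,⟨148,0⟩,⟨871,0⟩,⟨57,0⟩⟩,
  ⟨⟨-1173,0⟩,⟨453,0⟩,⟨1176,0⟩,⟨972,0⟩⟩,
  ⟨⟨-936,0⟩,⟨216,0⟩,⟨1413,0⟩,⟨1683,0⟩⟩,
  ⟨⟨-540,0⟩,⟨-972,0⟩,⟨1809,0⟩,⟨2079,0⟩⟩,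
  ⟨⟨-567,0⟩,⟨-1053,0⟩,⟨1782,0⟩,⟨2106,0⟩⟩,
  ⟨⟨621,0⟩,⟨135,0⟩,⟨1782,0⟩,⟨918,0⟩⟩,
  ⟨⟨891,0⟩,⟨405,0⟩,⟨972,0⟩,⟨648,0⟩⟩,
  ⟨⟨729,0⟩,⟨243,0⟩,⟨486,0⟩,⟨486,0⟩⟩]

def D24 : Z := ⟨972, 0⟩

def nn (z : Z) : Bool := decide (z = ⟨0, 0⟩) || z.pos

theorem nn_val {z : Z} (h : nn z = true) : 0 ≤ z.val := by
  simp only [nn, Bool.or_eq_true, decide_eq_true_eq] at h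
  rcases h with h | h
  · subst h; simp [Z.val]
  · exact (Z.val_pos h).le

def inF24 (i : ℕ) (v : Q) : Bool :=
  decide ((q24 i).dot v = ⟨2, 0⟩) &&
    (List.range 24).all fun j => nn ((⟨2, 0⟩ : Z).sub ((q24 j).dot v))

theorem val20 : (Z.mk 2 0).val = 2 := by simp [Z.val]

theorem inF24_mem {i : Fin 24} {v : Q} (h : inF24 i v = true) :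
    v.vec ∈ Facet N24 (Z.mk 2 0).val i := by
  simp only [inF24, Bool.and_eq_true, decide_eq_true_eq, List.all_eq_true, List.mem_range] at h
  refine ⟨?_, fun j => ?_⟩
  · rw [N24, Q.inner_vec, h.1]
  · have h1 := nn_val (h.2 j j.2)
    rw [Z.val_sub] at h1
    rw [N24, Q.inner_vec]
    linarith

theorem vec_ne {ρ : Z} {v w : Q} (h : (ρ.sub (v.dot w)).pos = true) (hv : v.dot v = ρ) :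
    v.vec ≠ w.vec := by
  intro he
  have h1 := Z.val_pos h
  rw [Z.val_sub, ← hv, ← Q.inner_vec, ← Q.inner_vec, he] at h1
  linarith

def f24 (n : ℕ) : Fin 24 := ⟨n % 24, Nat.mod_lt _ (by norm_num)⟩

def chk24 (i : Fin 24) : Bool :=
  let p : Fin 24 := f24 (par24.getD i 0)
  let t := tri24.getD i (⟨o, o, o, o⟩, ⟨o, o, o, o⟩, ⟨o, o, o, o⟩)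
  decide (dep24.getD i 0 = dep24.getD p 0 + 1) &&
  (decide ((q24 i).dot (q24 p) = ⟨2, 0⟩) &&
  (inF24 i t.1 && (inF24 i t.2.1 && (inF24 i t.2.2 &&
  (inF24 p t.1 && (inF24 p t.2.1 && (inF24 p t.2.2 &&
  (decide (t.1.dot t.1 = ⟨2, 0⟩) && (decide (t.2.1.dot t.2.1 = ⟨2, 0⟩) &&
  (decide (t.2.2.dot t.2.2 = ⟨2, 0⟩) &&
  (((⟨2, 0⟩ : Z).sub (t.1.dot t.2.1)).pos && (((⟨2, 0⟩ : Z).sub (t.1.dot t.2.2)).pos &&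
  ((⟨2, 0⟩ : Z).sub (t.2.1.dot t.2.2)).pos))))))))))))

theorem chk24_all : ∀ i : Fin 24, i ≠ f24 16 → chk24 i = true := by decide +kernel

theorem norm24 : ∀ i : Fin 24, (q24 i).dot (q24 i) = ⟨4, 0⟩ := by decide +kernel

theorem not_allNet_24 : ¬ IsAllNet N24 2 := by
  have hall := chk24_all
  simp only [chk24, Bool.and_eq_true, decide_eq_true_eq] at hall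
  rw [← val20]
  refine finish N24 (fun i => q24 i) (fun i => rfl) ⟨2, 0⟩ ⟨4, 0⟩ ⟨2, 0⟩
    (Z.val_pos (by decide +kernel)) ?_ (f24 16) (fun i => f24 (par24.getD i 0))
    (fun i => dep24.getD i 0) (by decide +kernel) (fun i hi => (hall i hi).1) ?_ ?_
    D24 (Z.val_pos (by decide +kernel)) 7 (fun k => f24 (path24.getD k 0))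
    (fun k => pts24.getD k ⟨o, o, o, o⟩)
    (by decide +kernel) (by decide +kernel) (by decide +kernel) (by decide +kernel)
    (by decide +kernel) (by decide +kernel) (by decide +kernel) (by decide +kernel)
    (by decide +kernel) (by decide +kernel)
  · intro i
    rw [N24, Q.inner_vec, norm24]
  · intro i hi
    rw [N24, N24, Q.inner_vec, (hall i hi).2.1]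
  · intro i hi
    obtain ⟨-, -, h1, h2, h3, h4, h5, h6, h7, h8, h9, h10, h11, h12⟩ := hall i hi
    refine ⟨_, _, _, ⟨inF24_mem h1, inF24_mem h4⟩, ⟨inF24_mem h2, inF24_mem h5⟩,
      ⟨inF24_mem h3, inF24_mem h6⟩, affInd (ρ := (Z.mk 2 0).val) ?_ ?_ ?_ ?_ ?_ ?_⟩
    · rw [Q.inner_vec, h7]
    · rw [Q.inner_vec, h8]
    · rw [Q.inner_vec, h9]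
    · exact vec_ne h10 h7
    · exact vec_ne h11 h7
    · exact vec_ne h12 h8

end Pool.Agent.X160.Nta
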