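import Pool.Agent.X160.Ntc

set_option autoImplicit false

namespace Pool.Agent.X160.Nta

inductive Tr (α : Type) : Type
  | leaf (a : α)
  | node (n : ℕ) (l r : Tr α)

def Tr.get {α : Type} : Tr α → ℕ → α
  | .leaf a, _ => a
  | .node n l r, k => bif Nat.blt k n then l.get k else r.get (k - n)

def W0 : Tr Q :=
  (.node 60 (.node 30 (.node 15 (.node 7 (.node 3 (.node 1 (.leaf ⟨⟨2,0⟩,⟨0,0⟩,⟨0,0⟩,⟨0,0⟩⟩)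
  (.node 1 (.leaf ⟨⟨0,0⟩,⟨2,0⟩,⟨0,0⟩,⟨0,0⟩⟩) (.leaf ⟨⟨0,0⟩,⟨0,0⟩,⟨2,0⟩,⟨0,0⟩⟩))) (.node 2
  (.node 1 (.leaf ⟨⟨0,0⟩,⟨0,0⟩,⟨0,0⟩,⟨2,0⟩⟩) (.leaf ⟨⟨-2,0⟩,⟨0,0⟩,⟨0,0⟩,⟨0,0⟩⟩)) (.node 1
  (.leaf ⟨⟨0,0⟩,⟨-2,0⟩,⟨0,0⟩,⟨0,0⟩⟩) (.leaf ⟨⟨0,0⟩,⟨0,0⟩,⟨-2,0⟩,⟨0,0⟩⟩)))) (.node 4 (.node 2
  (.node 1 (.leaf ⟨⟨0,0⟩,⟨0,0⟩,⟨0,0⟩,⟨-2,0⟩⟩) (.leaf ⟨⟨1,0⟩,⟨1,0⟩,⟨1,0⟩,⟨1,0⟩⟩)) (.node 1
  (.leaf ⟨⟨1,0⟩,⟨1,0⟩,⟨1,0⟩,⟨-1,0⟩⟩) (.leaf ⟨⟨1,0⟩,⟨1,0⟩,⟨-1,0⟩,⟨1,0⟩⟩))) (.node 2 (.node 1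
  (.leaf ⟨⟨1,0⟩,⟨1,0⟩,⟨-1,0⟩,⟨-1,0⟩⟩) (.leaf ⟨⟨1,0⟩,⟨-1,0⟩,⟨1,0⟩,⟨1,0⟩⟩)) (.node 1 (.leaf
  ⟨⟨1,0⟩,⟨-1,0⟩,⟨1,0⟩,⟨-1,0⟩⟩) (.leaf ⟨⟨1,0⟩,⟨-1,0⟩,⟨-1,0⟩,⟨1,0⟩⟩))))) (.node 7 (.node 3
  (.node 1 (.leaf ⟨⟨1,0⟩,⟨-1,0⟩,⟨-1,0⟩,⟨-1,0⟩⟩) (.node 1 (.leaf ⟨⟨-1,0⟩,⟨1,0⟩,⟨1,0⟩,⟨1,0⟩⟩)
  (.leaf ⟨⟨-1,0⟩,⟨1,0⟩,⟨1,0⟩,⟨-1,0⟩⟩))) (.node 2 (.node 1 (.leaf
  ⟨⟨-1,0⟩,⟨1,0⟩,⟨-1,0⟩,⟨1,0⟩⟩) (.leaf ⟨⟨-1,0⟩,⟨1,0⟩,⟨-1,0⟩,⟨-1,0⟩⟩)) (.node 1 (.leaf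
  ⟨⟨-1,0⟩,⟨-1,0⟩,⟨1,0⟩,⟨1,0⟩⟩) (.leaf ⟨⟨-1,0⟩,⟨-1,0⟩,⟨1,0⟩,⟨-1,0⟩⟩)))) (.node 4 (.node 2
  (.node 1 (.leaf ⟨⟨-1,0⟩,⟨-1,0⟩,⟨-1,0⟩,⟨1,0⟩⟩) (.leaf ⟨⟨-1,0⟩,⟨-1,0⟩,⟨-1,0⟩,⟨-1,0⟩⟩))
  (.node 1 (.leaf ⟨⟨0,1⟩,⟨1,0⟩,⟨-1,1⟩,⟨0,0⟩⟩) (.leaf ⟨⟨0,1⟩,⟨0,0⟩,⟨1,0⟩,⟨-1,1⟩⟩))) (.node 2
  (.node 1 (.leaf ⟨⟨0,1⟩,⟨-1,1⟩,⟨0,0⟩,⟨1,0⟩⟩) (.leaf ⟨⟨1,0⟩,⟨0,1⟩,⟨0,0⟩,⟨-1,1⟩⟩)) (.node 1
  (.leaf ⟨⟨-1,1⟩,⟨0,1⟩,⟨1,0⟩,⟨0,0⟩⟩) (.leaf ⟨⟨0,0⟩,⟨0,1⟩,⟨-1,1⟩,⟨1,0⟩⟩)))))) (.node 15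
  (.node 7 (.node 3 (.node 1 (.leaf ⟨⟨1,0⟩,⟨-1,1⟩,⟨0,1⟩,⟨0,0⟩⟩) (.node 1 (.leaf
  ⟨⟨0,0⟩,⟨1,0⟩,⟨0,1⟩,⟨-1,1⟩⟩) (.leaf ⟨⟨-1,1⟩,⟨0,0⟩,⟨0,1⟩,⟨1,0⟩⟩))) (.node 2 (.node 1 (.leaf
  ⟨⟨1,0⟩,⟨0,0⟩,⟨-1,1⟩,⟨0,1⟩⟩) (.leaf ⟨⟨-1,1⟩,⟨1,0⟩,⟨0,0⟩,⟨0,1⟩⟩)) (.node 1 (.leaf
  ⟨⟨0,0⟩,⟨-1,1⟩,⟨1,0⟩,⟨0,1⟩⟩) (.leaf ⟨⟨0,1⟩,⟨1,0⟩,⟨1,-1⟩,⟨0,0⟩⟩)))) (.node 4 (.node 2 (.node
  1 (.leaf ⟨⟨0,1⟩,⟨0,0⟩,⟨1,0⟩,⟨1,-1⟩⟩) (.leaf ⟨⟨0,1⟩,⟨1,-1⟩,⟨0,0⟩,⟨1,0⟩⟩)) (.node 1 (.leaf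
  ⟨⟨1,0⟩,⟨0,1⟩,⟨0,0⟩,⟨1,-1⟩⟩) (.leaf ⟨⟨1,-1⟩,⟨0,1⟩,⟨1,0⟩,⟨0,0⟩⟩))) (.node 2 (.node 1 (.leaf
  ⟨⟨0,0⟩,⟨0,1⟩,⟨1,-1⟩,⟨1,0⟩⟩) (.leaf ⟨⟨1,0⟩,⟨1,-1⟩,⟨0,1⟩,⟨0,0⟩⟩)) (.node 1 (.leaf
  ⟨⟨0,0⟩,⟨1,0⟩,⟨0,1⟩,⟨1,-1⟩⟩) (.leaf ⟨⟨1,-1⟩,⟨0,0⟩,⟨0,1⟩,⟨1,0⟩⟩))))) (.node 7 (.node 3
  (.node 1 (.leaf ⟨⟨1,0⟩,⟨0,0⟩,⟨1,-1⟩,⟨0,1⟩⟩) (.node 1 (.leaf ⟨⟨1,-1⟩,⟨1,0⟩,⟨0,0⟩,⟨0,1⟩⟩)
  (.leaf ⟨⟨0,0⟩,⟨1,-1⟩,⟨1,0⟩,⟨0,1⟩⟩))) (.node 2 (.node 1 (.leaf ⟨⟨0,1⟩,⟨-1,0⟩,⟨-1,1⟩,⟨0,0⟩⟩)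
  (.leaf ⟨⟨0,1⟩,⟨0,0⟩,⟨-1,0⟩,⟨-1,1⟩⟩)) (.node 1 (.leaf ⟨⟨0,1⟩,⟨-1,1⟩,⟨0,0⟩,⟨-1,0⟩⟩) (.leaf
  ⟨⟨-1,0⟩,⟨0,1⟩,⟨0,0⟩,⟨-1,1⟩⟩)))) (.node 4 (.node 2 (.node 1 (.leaf
  ⟨⟨-1,1⟩,⟨0,1⟩,⟨-1,0⟩,⟨0,0⟩⟩) (.leaf ⟨⟨0,0⟩,⟨0,1⟩,⟨-1,1⟩,⟨-1,0⟩⟩)) (.node 1 (.leaf
  ⟨⟨-1,0⟩,⟨-1,1⟩,⟨0,1⟩,⟨0,0⟩⟩) (.leaf ⟨⟨0,0⟩,⟨-1,0⟩,⟨0,1⟩,⟨-1,1⟩⟩))) (.node 2 (.node 1
  (.leaf ⟨⟨-1,1⟩,⟨0,0⟩,⟨0,1⟩,⟨-1,0⟩⟩) (.leaf ⟨⟨-1,0⟩,⟨0,0⟩,⟨-1,1⟩,⟨0,1⟩⟩)) (.node 1 (.leaf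
  ⟨⟨-1,1⟩,⟨-1,0⟩,⟨0,0⟩,⟨0,1⟩⟩) (.leaf ⟨⟨0,0⟩,⟨-1,1⟩,⟨-1,0⟩,⟨0,1⟩⟩))))))) (.node 30 (.node 15
  (.node 7 (.node 3 (.node 1 (.leaf ⟨⟨0,1⟩,⟨-1,0⟩,⟨1,-1⟩,⟨0,0⟩⟩) (.node 1 (.leaf
  ⟨⟨0,1⟩,⟨0,0⟩,⟨-1,0⟩,⟨1,-1⟩⟩) (.leaf ⟨⟨0,1⟩,⟨1,-1⟩,⟨0,0⟩,⟨-1,0⟩⟩))) (.node 2 (.node 1
  (.leaf ⟨⟨-1,0⟩,⟨0,1⟩,⟨0,0⟩,⟨1,-1⟩⟩) (.leaf ⟨⟨1,-1⟩,⟨0,1⟩,⟨-1,0⟩,⟨0,0⟩⟩)) (.node 1 (.leaf
  ⟨⟨0,0⟩,⟨0,1⟩,⟨1,-1⟩,⟨-1,0⟩⟩) (.leaf ⟨⟨-1,0⟩,⟨1,-1⟩,⟨0,1⟩,⟨0,0⟩⟩)))) (.node 4 (.node 2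
  (.node 1 (.leaf ⟨⟨0,0⟩,⟨-1,0⟩,⟨0,1⟩,⟨1,-1⟩⟩) (.leaf ⟨⟨1,-1⟩,⟨0,0⟩,⟨0,1⟩,⟨-1,0⟩⟩)) (.node 1
  (.leaf ⟨⟨-1,0⟩,⟨0,0⟩,⟨1,-1⟩,⟨0,1⟩⟩) (.leaf ⟨⟨1,-1⟩,⟨-1,0⟩,⟨0,0⟩,⟨0,1⟩⟩))) (.node 2 (.node
  1 (.leaf ⟨⟨0,0⟩,⟨1,-1⟩,⟨-1,0⟩,⟨0,1⟩⟩) (.leaf ⟨⟨0,-1⟩,⟨1,0⟩,⟨-1,1⟩,⟨0,0⟩⟩)) (.node 1 (.leaf
  ⟨⟨0,-1⟩,⟨0,0⟩,⟨1,0⟩,⟨-1,1⟩⟩) (.leaf ⟨⟨0,-1⟩,⟨-1,1⟩,⟨0,0⟩,⟨1,0⟩⟩))))) (.node 7 (.node 3
  (.node 1 (.leaf ⟨⟨1,0⟩,⟨0,-1⟩,⟨0,0⟩,⟨-1,1⟩⟩) (.node 1 (.leaf ⟨⟨-1,1⟩,⟨0,-1⟩,⟨1,0⟩,⟨0,0⟩⟩)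
  (.leaf ⟨⟨0,0⟩,⟨0,-1⟩,⟨-1,1⟩,⟨1,0⟩⟩))) (.node 2 (.node 1 (.leaf
  ⟨⟨1,0⟩,⟨-1,1⟩,⟨0,-1⟩,⟨0,0⟩⟩) (.leaf ⟨⟨0,0⟩,⟨1,0⟩,⟨0,-1⟩,⟨-1,1⟩⟩)) (.node 1 (.leaf
  ⟨⟨-1,1⟩,⟨0,0⟩,⟨0,-1⟩,⟨1,0⟩⟩) (.leaf ⟨⟨1,0⟩,⟨0,0⟩,⟨-1,1⟩,⟨0,-1⟩⟩)))) (.node 4 (.node 2
  (.node 1 (.leaf ⟨⟨-1,1⟩,⟨1,0⟩,⟨0,0⟩,⟨0,-1⟩⟩) (.leaf ⟨⟨0,0⟩,⟨-1,1⟩,⟨1,0⟩,⟨0,-1⟩⟩)) (.node 1
  (.leaf ⟨⟨0,-1⟩,⟨1,0⟩,⟨1,-1⟩,⟨0,0⟩⟩) (.leaf ⟨⟨0,-1⟩,⟨0,0⟩,⟨1,0⟩,⟨1,-1⟩⟩))) (.node 2 (.node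
  1 (.leaf ⟨⟨0,-1⟩,⟨1,-1⟩,⟨0,0⟩,⟨1,0⟩⟩) (.leaf ⟨⟨1,0⟩,⟨0,-1⟩,⟨0,0⟩,⟨1,-1⟩⟩)) (.node 1 (.leaf
  ⟨⟨1,-1⟩,⟨0,-1⟩,⟨1,0⟩,⟨0,0⟩⟩) (.leaf ⟨⟨0,0⟩,⟨0,-1⟩,⟨1,-1⟩,⟨1,0⟩⟩)))))) (.node 15 (.node 7
  (.node 3 (.node 1 (.leaf ⟨⟨1,0⟩,⟨1,-1⟩,⟨0,-1⟩,⟨0,0⟩⟩) (.node 1 (.leaf
  ⟨⟨0,0⟩,⟨1,0⟩,⟨0,-1⟩,⟨1,-1⟩⟩) (.leaf ⟨⟨1,-1⟩,⟨0,0⟩,⟨0,-1⟩,⟨1,0⟩⟩))) (.node 2 (.node 1
  (.leaf ⟨⟨1,0⟩,⟨0,0⟩,⟨1,-1⟩,⟨0,-1⟩⟩) (.leaf ⟨⟨1,-1⟩,⟨1,0⟩,⟨0,0⟩,⟨0,-1⟩⟩)) (.node 1 (.leaf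
  ⟨⟨0,0⟩,⟨1,-1⟩,⟨1,0⟩,⟨0,-1⟩⟩) (.leaf ⟨⟨0,-1⟩,⟨-1,0⟩,⟨-1,1⟩,⟨0,0⟩⟩)))) (.node 4 (.node 2
  (.node 1 (.leaf ⟨⟨0,-1⟩,⟨0,0⟩,⟨-1,0⟩,⟨-1,1⟩⟩) (.leaf ⟨⟨0,-1⟩,⟨-1,1⟩,⟨0,0⟩,⟨-1,0⟩⟩)) (.node
  1 (.leaf ⟨⟨-1,0⟩,⟨0,-1⟩,⟨0,0⟩,⟨-1,1⟩⟩) (.leaf ⟨⟨-1,1⟩,⟨0,-1⟩,⟨-1,0⟩,⟨0,0⟩⟩))) (.node 2
  (.node 1 (.leaf ⟨⟨0,0⟩,⟨0,-1⟩,⟨-1,1⟩,⟨-1,0⟩⟩) (.leaf ⟨⟨-1,0⟩,⟨-1,1⟩,⟨0,-1⟩,⟨0,0⟩⟩)) (.node
  1 (.leaf ⟨⟨0,0⟩,⟨-1,0⟩,⟨0,-1⟩,⟨-1,1⟩⟩) (.leaf ⟨⟨-1,1⟩,⟨0,0⟩,⟨0,-1⟩,⟨-1,0⟩⟩))))) (.node 7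
  (.node 3 (.node 1 (.leaf ⟨⟨-1,0⟩,⟨0,0⟩,⟨-1,1⟩,⟨0,-1⟩⟩) (.node 1 (.leaf
  ⟨⟨-1,1⟩,⟨-1,0⟩,⟨0,0⟩,⟨0,-1⟩⟩) (.leaf ⟨⟨0,0⟩,⟨-1,1⟩,⟨-1,0⟩,⟨0,-1⟩⟩))) (.node 2 (.node 1
  (.leaf ⟨⟨0,-1⟩,⟨-1,0⟩,⟨1,-1⟩,⟨0,0⟩⟩) (.leaf ⟨⟨0,-1⟩,⟨0,0⟩,⟨-1,0⟩,⟨1,-1⟩⟩)) (.node 1 (.leaf
  ⟨⟨0,-1⟩,⟨1,-1⟩,⟨0,0⟩,⟨-1,0⟩⟩) (.leaf ⟨⟨-1,0⟩,⟨0,-1⟩,⟨0,0⟩,⟨1,-1⟩⟩)))) (.node 4 (.node 2
  (.node 1 (.leaf ⟨⟨1,-1⟩,⟨0,-1⟩,⟨-1,0⟩,⟨0,0⟩⟩) (.leaf ⟨⟨0,0⟩,⟨0,-1⟩,⟨1,-1⟩,⟨-1,0⟩⟩)) (.node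
  1 (.leaf ⟨⟨-1,0⟩,⟨1,-1⟩,⟨0,-1⟩,⟨0,0⟩⟩) (.leaf ⟨⟨0,0⟩,⟨-1,0⟩,⟨0,-1⟩,⟨1,-1⟩⟩))) (.node 2
  (.node 1 (.leaf ⟨⟨1,-1⟩,⟨0,0⟩,⟨0,-1⟩,⟨-1,0⟩⟩) (.leaf ⟨⟨-1,0⟩,⟨0,0⟩,⟨1,-1⟩,⟨0,-1⟩⟩)) (.node
  1 (.leaf ⟨⟨1,-1⟩,⟨-1,0⟩,⟨0,0⟩,⟨0,-1⟩⟩) (.leaf ⟨⟨0,0⟩,⟨1,-1⟩,⟨-1,0⟩,⟨0,-1⟩⟩))))))))

def upt : Tr (List ℕ) :=
  (.node 60 (.node 30 (.node 15 (.node 7 (.node 3 (.node 1 (.leaf
  [24,25,26,36,37,38,48,49,50,60,61,62]) (.node 1 (.leaf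
  [27,28,29,39,40,41,51,52,53,63,64,65]) (.leaf [30,31,32,42,43,44,54,55,56,66,67,68])))
  (.node 2 (.node 1 (.leaf [33,34,35,45,46,47,57,58,59,69,70,71]) (.leaf
  [72,73,74,84,85,86,96,97,98,108,109,110])) (.node 1 (.leaf
  [75,76,77,87,88,89,99,100,101,111,112,113]) (.leaf
  [78,79,80,90,91,92,102,103,104,114,115,116])))) (.node 4 (.node 2 (.node 1 (.leaf
  [81,82,83,93,94,95,105,106,107,117,118,119]) (.leaf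
  [24,25,26,27,28,29,30,31,32,33,34,35])) (.node 1 (.leaf
  [24,28,30,37,39,43,50,53,56,81,82,83]) (.leaf [26,27,34,36,41,45,49,52,59,78,79,80])))
  (.node 2 (.node 1 (.leaf [36,39,50,52,61,65,78,82,91,93,104,107]) (.leaf
  [25,32,33,38,42,47,48,55,58,75,76,77])) (.node 1 (.leaf
  [37,42,48,56,62,67,76,81,87,95,101,106]) (.leaf
  [38,45,49,58,60,71,75,80,89,90,100,103]))))) (.node 7 (.node 3 (.node 1 (.leaf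
  [60,61,62,87,90,93,100,104,106,113,115,119]) (.node 1 (.leaf
  [29,31,35,40,44,46,51,54,57,72,73,74]) (.leaf [40,43,53,54,63,68,72,83,85,94,98,105])))
  (.node 2 (.node 1 (.leaf [41,46,51,59,64,69,74,79,84,92,97,102]) (.leaf
  [63,64,65,84,91,94,98,102,107,109,116,117])) (.node 1 (.leaf
  [44,47,55,57,66,70,73,77,86,88,96,99]) (.leaf
  [66,67,68,85,88,95,96,101,105,110,111,118])))) (.node 4 (.node 2 (.node 1 (.leaf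
  [69,70,71,86,89,92,97,99,103,108,112,114]) (.leaf
  [108,109,110,111,112,113,114,115,116,117,118,119])) (.node 1 (.leaf
  [25,26,27,28,30,36,37,39,50]) (.leaf [26,30,32,33,37,38,42,48]))) (.node 2 (.node 1 (.leaf
  [27,33,34,36,38,45,49]) (.leaf [28,29,34,36,39,41,52])) (.node 1 (.leaf
  [29,30,31,39,40,43,53]) (.leaf [31,34,35,40,41,46,51])))))) (.node 15 (.node 7 (.node 3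
  (.node 1 (.leaf [31,32,37,42,43,56]) (.node 1 (.leaf [32,35,40,43,44,54]) (.leaf
  [33,35,42,44,47,55]))) (.node 2 (.node 1 (.leaf [34,35,38,45,47,58]) (.leaf
  [35,41,45,46,59])) (.node 1 (.leaf [44,46,47,57]) (.leaf [39,49,50,52,61,78])))) (.node 4
  (.node 2 (.node 1 (.leaf [42,48,50,56,62,81]) (.leaf [45,48,49,58,60,75])) (.node 1 (.leaf
  [50,52,53,65,82]) (.leaf [43,51,53,54,63,72]))) (.node 2 (.node 1 (.leaf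
  [46,51,52,59,64,79]) (.leaf [48,55,56,67,76])) (.node 1 (.leaf [53,54,56,68,83]) (.leaf
  [47,54,55,57,66,73]))))) (.node 7 (.node 3 (.node 1 (.leaf [49,58,59,71,80]) (.node 1
  (.leaf [51,57,59,69,74]) (.leaf [55,57,58,70,77]))) (.node 2 (.node 1 (.leaf
  [60,62,75,76,87]) (.leaf [60,61,78,80,90])) (.node 1 (.leaf [61,62,81,82,93]) (.leaf
  [63,64,72,74,84])))) (.node 4 (.node 2 (.node 1 (.leaf [64,65,78,79,91]) (.leaf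
  [63,65,82,83,94])) (.node 1 (.leaf [66,68,72,73,85]) (.leaf [66,67,76,77,88]))) (.node 2
  (.node 1 (.leaf [67,68,81,83,95]) (.leaf [69,70,73,74,86])) (.node 1 (.leaf
  [70,71,75,77,89]) (.leaf [69,71,79,80,92]))))))) (.node 30 (.node 15 (.node 7 (.node 3
  (.node 1 (.leaf [61,62,75,87,90,100]) (.node 1 (.leaf [62,78,90,93,104]) (.leaf
  [81,87,93,106]))) (.node 2 (.node 1 (.leaf [64,65,72,84,94,98]) (.leaf [65,79,84,91,102]))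
  (.node 1 (.leaf [82,91,94,107]) (.leaf [67,68,73,85,88,96])))) (.node 4 (.node 2 (.node 1
  (.leaf [68,76,88,95,101]) (.leaf [83,85,95,105])) (.node 1 (.leaf [70,71,74,86,92,97])
  (.leaf [71,77,86,89,99]))) (.node 2 (.node 1 (.leaf [80,89,92,103]) (.leaf
  [73,74,84,85,98])) (.node 1 (.leaf [74,85,86,96]) (.leaf [84,86,97]))))) (.node 7 (.node 3
  (.node 1 (.leaf [76,77,87,89,100]) (.node 1 (.leaf [77,87,88,101]) (.leaf [88,89,99])))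
  (.node 2 (.node 1 (.leaf [79,80,90,91,104]) (.leaf [80,91,92,102])) (.node 1 (.leaf
  [90,92,103]) (.leaf [82,83,93,95,106])))) (.node 4 (.node 2 (.node 1 (.leaf
  [83,93,94,107]) (.leaf [94,95,105])) (.node 1 (.leaf [97,98,102,109]) (.leaf
  [96,98,105,110]))) (.node 2 (.node 1 (.leaf [96,97,99,108]) (.leaf [100,101,106,113]))
  (.node 1 (.leaf [96,99,101,111]) (.leaf [99,100,103,112])))))) (.node 15 (.node 7 (.node 3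
  (.node 1 (.leaf [100,103,104,115]) (.node 1 (.leaf [102,104,107,116]) (.leaf
  [97,102,103,114]))) (.node 2 (.node 1 (.leaf [104,106,107,119]) (.leaf [98,105,107,117]))
  (.node 1 (.leaf [101,105,106,118]) (.leaf [99,108,110,111])))) (.node 4 (.node 2 (.node 1
  (.leaf [102,108,109,114]) (.leaf [105,109,110,117])) (.node 1 (.leaf [108,111,112]) (.leaf
  [103,112,113,115]))) (.node 2 (.node 1 (.leaf [106,111,113,118]) (.leaf [109,114,116]))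
  (.node 1 (.leaf [112,114,115]) (.leaf [107,115,116,119]))))) (.node 7 (.node 3 (.node 1
  (.leaf [110,117,118]) (.node 1 (.leaf [113,118,119]) (.leaf [116,117,119]))) (.node 2
  (.node 1 (.leaf [109,110,111,112,114]) (.leaf [110,114,116,117])) (.node 1 (.leaf
  [111,117,118]) (.leaf [112,113,118])))) (.node 4 (.node 2 (.node 1 (.leaf [113,114,115])
  (.leaf [115,118,119])) (.node 1 (.leaf [115,116]) (.leaf [116,119]))) (.node 2 (.node 1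
  (.leaf [117,119]) (.leaf [118,119])) (.node 1 (.leaf [119]) (.leaf []))))))))

def w0 (i : ℕ) : Q := W0.get i

def up (i : ℕ) : List ℕ := upt.get i

theorem q120_eq (i : Fin 120) : q120 i = w0 i := by
  have h : ∀ i : Fin 120, q120 i = w0 i := by decide +kernel
  exact h i

def chkW : Bool := (List.range 120).all fun i =>
  let p := w0 i
  let u := up i
  decide (p.dot p = ⟨4, 0⟩) && (List.range 120).all fun j =>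
    Nat.ble j i || (if u.elem j then decide (p.dot (w0 j) = ⟨0, 2⟩)
      else ((⟨0, 2⟩ : Z).sub (p.dot (w0 j))).pos)

theorem chkW_true : chkW = true := by decide +kernel

theorem chkW_spec (i : ℕ) (hi : i < 120) : (w0 i).dot (w0 i) = ⟨4, 0⟩ ∧
    ∀ j, i < j → j < 120 → (j ∈ up i ∧ (w0 i).dot (w0 j) = ⟨0, 2⟩) ∨
      (j ∉ up i ∧ ((⟨0, 2⟩ : Z).sub ((w0 i).dot (w0 j))).pos = true) := by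
  have h := chkW_true
  simp only [chkW, List.all_eq_true, List.mem_range, Bool.and_eq_true, decide_eq_true_eq] at h
  obtain ⟨h1, h2⟩ := h i hi
  refine ⟨h1, fun j hij hj => ?_⟩
  have h3 := h2 j hj
  rw [Bool.or_eq_true] at h3
  rcases h3 with h3 | h3
  · rw [Nat.ble_eq] at h3; omega
  · by_cases h4 : (up i).elem j = true
    · rw [if_pos h4] at h3
      exact Or.inl ⟨by simpa using h4, by simpa using h3⟩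
    · rw [if_neg h4] at h3
      exact Or.inr ⟨by simpa using h4, h3⟩

theorem val02 : (Z.mk 0 2).val = 2 * Real.goldenRatio := by simp [Z.val]

theorem val46 : (Z.mk 4 6).val = 4 + 6 * Real.goldenRatio := by simp [Z.val]

theorem inner_w (i j : Fin 120) : inner ℝ (N120 i) (N120 j) = ((w0 i).dot (w0 j)).val := by
  rw [N120, N120, Q.inner_vec, q120_eq, q120_eq]

theorem inner_self120 (i : Fin 120) : inner ℝ (N120 i) (N120 i) = 4 := by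
  rw [inner_w, (chkW_spec i i.2).1]; simp [Z.val]

theorem inner_lt120 {i j : Fin 120} (h : i < j) :
    inner ℝ (N120 i) (N120 j) ≤ 2 * Real.goldenRatio := by
  rw [inner_w]
  rcases (chkW_spec i i.2).2 j h j.2 with h1 | h1
  · rw [h1.2, val02]
  · have := Z.val_pos h1.2
    rw [Z.val_sub, val02] at this
    linarith

theorem inner_ne120 {i j : Fin 120} (h : i ≠ j) :
    inner ℝ (N120 i) (N120 j) ≤ 2 * Real.goldenRatio := by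
  rcases lt_or_gt_of_ne h with h | h
  · exact inner_lt120 h
  · rw [real_inner_comm]; exact inner_lt120 h

theorem up_of_inner {i j : Fin 120} (h : i < j)
    (h2 : inner ℝ (N120 i) (N120 j) = 2 * Real.goldenRatio) : (j : ℕ) ∈ up i := by
  rcases (chkW_spec i i.2).2 j h j.2 with h1 | h1
  · exact h1.1
  · have := Z.val_pos h1.2
    rw [Z.val_sub, val02, ← inner_w, h2] at this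
    linarith

theorem inner_of_up {i j : Fin 120} (h : i < j) (h2 : (j : ℕ) ∈ up i) :
    inner ℝ (N120 i) (N120 j) = 2 * Real.goldenRatio := by
  rcases (chkW_spec i i.2).2 j h j.2 with h1 | h1
  · rw [inner_w, h1.2, val02]
  · exact absurd h2 h1.1

/-- four mutually nearest vertices of the 600-cell -/
structure Clq (a b c d : Fin 120) : Prop where
  ab : inner ℝ (N120 a) (N120 b) = 2 * Real.goldenRatio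
  ac : inner ℝ (N120 a) (N120 c) = 2 * Real.goldenRatio
  ad : inner ℝ (N120 a) (N120 d) = 2 * Real.goldenRatio
  bc : inner ℝ (N120 b) (N120 c) = 2 * Real.goldenRatio
  bd : inner ℝ (N120 b) (N120 d) = 2 * Real.goldenRatio
  cd : inner ℝ (N120 c) (N120 d) = 2 * Real.goldenRatio

noncomputable def X (a b c d : Fin 120) : E := N120 a + N120 b + N120 c + N120 d

theorem Clq.eqa {a b c d : Fin 120} (h : Clq a b c d) :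
    inner ℝ (N120 a) (X a b c d) = (Z.mk 4 6).val := by
  rw [X, inner_add_right, inner_add_right, inner_add_right, inner_self120, h.ab, h.ac, h.ad,
    val46]; ring

theorem Clq.eqb {a b c d : Fin 120} (h : Clq a b c d) :
    inner ℝ (N120 b) (X a b c d) = (Z.mk 4 6).val := by
  rw [X, inner_add_right, inner_add_right, inner_add_right, inner_self120,
    real_inner_comm (N120 a) (N120 b), h.ab, h.bc, h.bd, val46]; ring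

theorem Clq.eqc {a b c d : Fin 120} (h : Clq a b c d) :
    inner ℝ (N120 c) (X a b c d) = (Z.mk 4 6).val := by
  rw [X, inner_add_right, inner_add_right, inner_add_right, inner_self120,
    real_inner_comm (N120 a) (N120 c), real_inner_comm (N120 b) (N120 c), h.ac, h.bc, h.cd,
    val46]; ring

theorem Clq.eqd {a b c d : Fin 120} (h : Clq a b c d) :
    inner ℝ (N120 d) (X a b c d) = (Z.mk 4 6).val := by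
  rw [X, inner_add_right, inner_add_right, inner_add_right, inner_self120,
    real_inner_comm (N120 a) (N120 d), real_inner_comm (N120 b) (N120 d),
    real_inner_comm (N120 c) (N120 d), h.ad, h.bd, h.cd, val46]; ring

theorem Clq.lt {a b c d : Fin 120} (_h : Clq a b c d) {j : Fin 120} (h1 : j ≠ a) (h2 : j ≠ b)
    (h3 : j ≠ c) (h4 : j ≠ d) : inner ℝ (N120 j) (X a b c d) < (Z.mk 4 6).val := by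
  rw [X, inner_add_right, inner_add_right, inner_add_right, val46]
  have := inner_ne120 h1
  have := inner_ne120 h2
  have := inner_ne120 h3
  have := inner_ne120 h4
  have := Z.phi_hi
  linarith

theorem Clq.le {a b c d : Fin 120} (h : Clq a b c d) (j : Fin 120) :
    inner ℝ (N120 j) (X a b c d) ≤ (Z.mk 4 6).val := by
  by_cases h1 : j = a
  · subst h1; exact h.eqa.le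
  by_cases h2 : j = b
  · subst h2; exact h.eqb.le
  by_cases h3 : j = c
  · subst h3; exact h.eqc.le
  by_cases h4 : j = d
  · subst h4; exact h.eqd.le
  exact (h.lt h1 h2 h3 h4).le

theorem Clq.norm {a b c d : Fin 120} (h : Clq a b c d) :
    inner ℝ (X a b c d) (X a b c d) = 4 * (Z.mk 4 6).val := by
  have e1 := h.eqa
  have e2 := h.eqb
  have e3 := h.eqc
  have e4 := h.eqd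
  set x := X a b c d with hx
  have : inner ℝ x x = inner ℝ (N120 a + N120 b + N120 c + N120 d) x := by rw [hx, X]
  rw [this, inner_add_left, inner_add_left, inner_add_left, e1, e2, e3, e4]
  ring

/-! ### the 120-cell -/

def par120 : List ℕ := [62, 40, 66, 57, 4, 111, 116, 117, 29, 83, 79, 107, 77, 67, 103, 119, 72, 72, 74, 117, 96, 110, 108, 110, 28, 32, 34, 29, 40, 16, 2, 16, 44, 47, 46, 16, 11, 81, 58, 82, 72, 51, 67, 17, 73, 71, 74, 20, 76, 80, 81, 72, 64, 94, 72, 20, 68, 73, 70, 18, 15, 93, 106, 72, 84, 19, 96, 21, 85, 74, 86, 22, 4, 4, 4, 5, 88, 99, 91, 102, 92, 7, 7, 105, 4, 4, 4, 101, 96, 22, 115, 19, 97, 7, 117, 21, 108, 4, 4, 108, 112, 21, 109, 114, 107, 110, 118, 117, 109, 117, 4, 110, 108, 23, 109, 23, 117, 110, 110, 117]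

def dep120 : List ℕ := [5, 3, 7, 3, 0, 3, 4, 3, 4, 4, 6, 4, 7, 4, 6, 4, 2, 2, 2, 3, 6, 2, 5, 2, 4, 4, 4, 4, 3, 3, 8, 3, 3, 8, 3, 3, 5, 5, 4, 5, 2, 3, 4, 3, 2, 7, 2, 7, 8, 4, 5, 2, 3, 4, 2, 7, 3, 2, 3, 3, 5, 5, 4, 2, 2, 4, 6, 3, 2, 2, 2, 6, 1, 1, 1, 4, 7, 6, 5, 5, 3, 4, 4, 3, 1, 1, 1, 4, 6, 6, 4, 4, 2, 4, 3, 3, 5, 1, 1, 5, 6, 3, 4, 5, 4, 2, 3, 3, 4, 3, 1, 2, 5, 3, 4, 3, 3, 2, 2, 3]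

def tri120 : List (ℕ × ℕ × ℕ × ℕ) := [(37,48,60,61), (28,29,51,63), (44,54,68,67), (35,46,69,70), (0,0,0,0), (88,99,112,113), (91,102,114,115), (94,105,118,119), (27,28,31,35), (43,53,82,81), (41,52,78,80), (65,82,93,104), (47,55,76,75), (42,56,95,101), (71,80,90,100), (93,104,115,113), (40,51,74,73), (40,54,85,98), (46,51,84,97), (94,98,109,116), (66,73,86,99), (85,96,111,118), (86,97,114,112), (108,109,117,118), (8,27,39,9), (8,30,42,12), (8,27,10,45), (1,28,8,34), (1,29,31,43), (31,35,46,51), (31,32,42,56), (29,35,44,54), (2,31,35,47), (3,35,32,12), (3,35,29,41), (29,31,44,57), (39,50,61,78), (9,50,62,13), (12,33,45,14), (9,50,11,65), (16,51,63,17), (1,29,46,18), (2,55,76,13), (40,53,83,68), (16,54,66,20), (3,58,14,80), (16,51,18,69),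 (44,55,77,70), (12,42,13,87), (10,45,14,90), (9,37,62,93), (16,40,63,84), (1,41,79,91), (17,63,65,82), (16,40,17,85), (44,47,77,88), (2,43,83,95), (16,44,20,86), (3,47,77,89), (41,46,69,92), (61,62,87,100), (11,50,62,15), (13,81,93,15), (17,40,51,84), (18,51,63,19), (63,64,91,107), (20,73,85,21), (66,68,95,101), (17,54,66,21), (18,46,57,86), (20,57,69,22), (69,70,89,103), (73,74,84,98), (72,74,86,96), (72,73,86,97), (76,77,89,100), (5,77,55,67), (5,88,20,70), (6,79,52,11), (6,91,64,18), (6,79,59,71), (82,83,95,106), (81,83,94,107), (7,94,17,68), (72,74,97,109), (72,73,96,110), (73,74,97,108), (5,76,13,106), (20,66,21,111), (70,71,103,112), (6,103,100,15), (64,65,107,116), (18,69,22,114), (81,82,107,119), (7,105,98,19), (67,68,105,118),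 (4,86,99,111), (74,84,109,108), (72,84,109,110), (22,86,96,111), (5,89,103,115), (67,88,111,118), (19,84,97,114), (6,92,22,112), (11,91,116,119), (21,85,98,117), (7,95,101,113), (7,94,19,116), (4,97,114,23), (19,98,110,23), (85,96,108,109), (21,96,108,23), (22,99,111,23), (111,112,115,119), (23,108,97,102), (112,113,119,116), (19,107,119,23), (23,109,98,105), (21,105,117,23), (7,107,116,23)]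

def path120 : List ℕ := [4, 110, 117, 109, 108, 96]

def pts120 : List Q := [⟨⟨-1500,-2250⟩,⟨194,-1228⟩,⟨820,-460⟩,⟨1462,-544⟩⟩,
  ⟨⟨-1895,-2450⟩,⟨390,-1425⟩,⟨820,-460⟩,⟨1265,-545⟩⟩,
  ⟨⟨-2110,-3455⟩,⟨-975,-850⟩,⟨-545,115⟩,⟨1050,-1550⟩⟩,
  ⟨⟨-1400,-3125⟩,⟨-975,-850⟩,⟨-925,825⟩,⟨-800,250⟩⟩,
  ⟨⟨-550,-3025⟩,⟨-1350,-425⟩,⟨-500,875⟩,⟨0,-125⟩⟩,
  ⟨⟨-1500,-2125⟩,⟨500,-1375⟩,⟨-500,875⟩,⟨0,-125⟩⟩]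

def D120 : Z := ⟨750, 0⟩

def f120 (n : ℕ) : Fin 120 := ⟨n % 120, Nat.mod_lt _ (by norm_num)⟩

def adjZ (i j : Fin 120) : Bool := decide ((w0 i).dot (w0 j) = ⟨0, 2⟩)

theorem adjZ_spec {i j : Fin 120} (h : adjZ i j = true) :
    inner ℝ (N120 i) (N120 j) = 2 * Real.goldenRatio := by
  simp only [adjZ, decide_eq_true_eq] at h
  rw [inner_w, h, val02]

def tr1 (i : Fin 120) : Fin 120 := f120 (tri120.getD i (0, 0, 0, 0)).1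
def tr2 (i : Fin 120) : Fin 120 := f120 (tri120.getD i (0, 0, 0, 0)).2.1
def tr3 (i : Fin 120) : Fin 120 := f120 (tri120.getD i (0, 0, 0, 0)).2.2.1
def tr4 (i : Fin 120) : Fin 120 := f120 (tri120.getD i (0, 0, 0, 0)).2.2.2
def pr (i : Fin 120) : Fin 120 := f120 (par120.getD i 0)

def chk120 (i : Fin 120) : Bool :=
  let p := pr i
  let a := tr1 i
  let b := tr2 i
  let c := tr3 i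
  let d := tr4 i
  decide (dep120.getD i 0 = dep120.getD p 0 + 1) &&
  (adjZ i p && (adjZ i a && (adjZ i b && (adjZ i c && (adjZ i d &&
  (adjZ p a && (adjZ p b && (adjZ p c && (adjZ p d &&
  (adjZ a b && (adjZ b c && (adjZ c d &&
  (decide (a ≠ i) && (decide (a ≠ p) && (decide (a ≠ b) && (decide (a ≠ c) && (decide (a ≠ d) &&
  (decide (b ≠ i) && (decide (b ≠ p) && (decide (b ≠ c) && decide (b ≠ d)))))))))))))))))))))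

theorem chk120_all : ∀ i : Fin 120, i ≠ f120 4 → chk120 i = true := by decide +kernel

theorem not_allNet_120 : ¬ IsAllNet N120 (4 + 6 * Real.goldenRatio) := by
  have hall := chk120_all
  simp only [chk120, Bool.and_eq_true, decide_eq_true_eq] at hall
  rw [← val46]
  refine finish N120 (fun i => w0 i) (fun i => by rw [N120, q120_eq]) ⟨4, 6⟩ ⟨4, 0⟩ ⟨0, 2⟩
    (Z.val_pos (by decide +kernel)) ?_ (f120 4) pr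
    (fun i => dep120.getD i 0) (by decide +kernel) (fun i hi => (hall i hi).1) ?_ ?_
    D120 (Z.val_pos (by decide +kernel)) 5 (fun k => f120 (path120.getD k 0))
    (fun k => pts120.getD k ⟨o, o, o, o⟩)
    (by decide +kernel) (by decide +kernel) (by decide +kernel) (by decide +kernel)
    (by decide +kernel) (by decide +kernel) (by decide +kernel) (by decide +kernel)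
    (by decide +kernel) (by decide +kernel)
  · intro i
    rw [inner_self120]; simp [Z.val]
  · intro i hi
    rw [adjZ_spec (hall i hi).2.1, val02]
  · intro i hi
    obtain ⟨-, ip, ia, ib, ic, id, pa, pb, pc, pd, ab, bc, cd, n1, n2, n3, n4, n5, m1, m2, m3,
      m4⟩ := hall i hi
    have c1 : Clq i (pr i) (tr1 i) (tr2 i) :=
      ⟨adjZ_spec ip, adjZ_spec ia, adjZ_spec ib, adjZ_spec pa, adjZ_spec pb, adjZ_spec ab⟩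
    have c2 : Clq i (pr i) (tr2 i) (tr3 i) :=
      ⟨adjZ_spec ip, adjZ_spec ib, adjZ_spec ic, adjZ_spec pb, adjZ_spec pc, adjZ_spec bc⟩
    have c3 : Clq i (pr i) (tr3 i) (tr4 i) :=
      ⟨adjZ_spec ip, adjZ_spec ic, adjZ_spec id, adjZ_spec pc, adjZ_spec pd, adjZ_spec cd⟩
    refine ⟨_, _, _, ⟨⟨c1.eqa, c1.le⟩, ⟨c1.eqb, c1.le⟩⟩, ⟨⟨c2.eqa, c2.le⟩, ⟨c2.eqb, c2.le⟩⟩,
      ⟨⟨c3.eqa, c3.le⟩, ⟨c3.eqb, c3.le⟩⟩, affInd c1.norm c2.norm c3.norm ?_ ?_ ?_⟩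
    · intro h
      have h1 := c1.eqc
      rw [h] at h1
      exact (c2.lt n1 n2 n3 n4).ne h1
    · intro h
      have h1 := c1.eqc
      rw [h] at h1
      exact (c3.lt n1 n2 n4 n5).ne h1
    · intro h
      have h1 := c2.eqc
      rw [h] at h1
      exact (c3.lt m1 m2 m3 m4).ne h1

end Pool.Agent.X160.Nta
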