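import Pool.Agent.X160.Ntd

set_option autoImplicit false

namespace Pool.Agent.X160.Nta

def cl600 : List ℕ := [348626, 348637, 348756, 349970, 350090, 363158, 364488, 364608, 378769, 379009, 524341, 524461, 538622, 538862, 553020, 553140, 698462, 712861, 727382, 871382, 2120189, 2120199, 2120321, 2121532, 2121772, 2134720, 2135933, 2136053, 2150451, 2150571, 2295905, 2296025, 2310183, 2310423, 2324584, 2324704, 2470024, 2484545, 2498825, 2642945, 3891752, 3891763, 3891882, 3893096, 3893216, 3906284, 3907614, 3907734, 3921895, 3922135, 4067467, 4067587, 4081748, 4081988, 4096146, 4096266, 4241588, 4255987, 4270508, 4414508, 5663315, 5663325, 5663447, 5664658, 5664898, 5677846, 5679059, 5679179, 5693577, 5693697, 5839031, 5839151, 5853309, 5853549, 5867710, 5867830, 6013150, 6027671, 6041951, 6186071, 7957634, 7957645, 7957764, 7958978, 7959098, 7972166, 7973496, 7973616, 7987777, 7988017, 8133349, 8133469, 8147630, 8147870, 8162028,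 8162148, 8307470, 8321869, 8336390, 8480390, 9729197, 9729207, 9729329, 9730540, 9730780, 9743728, 9744941, 9745061, 9759459, 9759579, 9904913, 9905033, 9919191, 9919431, 9933592, 9933712, 10079032, 10093553, 10107833, 10251953, 11500760, 11500771, 11500890, 11502104, 11502224, 11515292, 11516622, 11516742, 11530903, 11531143, 11676475, 11676595, 11690756, 11690996, 11705154, 11705274, 11850596, 11864995, 11879516, 12023516, 13272323, 13272333, 13272455, 13273666, 13273906, 13286854, 13288067, 13288187, 13302585, 13302705, 13448039, 13448159, 13462317, 13462557, 13476718, 13476838, 13622158, 13636679, 13650959, 13795079, 14172626, 14172630, 14172747, 14172868, 14172990, 14187153, 14187632, 14187873, 14201674, 14202394, 14216189, 14216314, 14230711, 14230831, 14245355, 14245715, 14259752, 14274275, 14288795, 14303315, 15900990, 15900999, 15901237, 15902090, 15902330, 15958843, 15959933, 15960413, 15988496, 15989216, 16090881, 16091601,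 16119682, 16120042, 16177643, 16178003, 16281802, 16325123, 16368203, 16728323, 17657674, 17657676, 17658525, 17658769, 17659849, 17672921, 17673172, 17673772, 17774579, 17775059, 17804358, 17804718, 17876719, 17877559, 17933960, 17935160, 17995040, 18038239, 18139160, 18412760, 19531130, 19531132, 19532461, 19532718, 19533798, 19575682, 19575905, 19577482, 19735413, 19737933, 19764691, 19766251, 19895864, 19897664, 19953947, 19955027, 20142224, 20200067, 20330987, 20359787, 21099873, 21099882, 21099998, 21100608, 21101088, 21200807, 21201895, 21202495, 21215818, 21216898, 21289035, 21290235, 21346636, 21347476, 21419477, 21419837, 21436276, 21537197, 21580277, 21825197, 23001888, 23001896, 23002622, 23003601, 23004321, 23074636, 23075587, 23076916, 23162727, 23164407, 23278535, 23280215, 23366626, 23367346, 23438021, 23440301, 23568941, 23641906, 23729026, 23844226, 24744649, 24744658, 24745140, 24746235, 24746475, 24845960, 24847031,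 24848600, 24904890, 24907290, 25035809, 25036289, 25065100, 25066900, 25224103, 25225183, 25282780, 25354903, 25485703, 25500103, 26791382, 26791410, 26791527, 26794540, 26794900, 26805933, 26809304, 26809664, 26823346, 26824066, 27184913, 27185633, 27228115, 27228595, 27271799, 27272039, 27373675, 27431519, 27460079, 27561119, 28069355, 28069360, 28069846, 28070451, 28071171, 28098644, 28099254, 28099734, 28157337, 28157577, 28230192, 28230552, 28288153, 28288513, 28316594, 28317314, 28391114, 28434313, 28477634, 28693634, 29957213, 29957214, 29958423, 29958552, 29959632, 30001643, 30001748, 30003443, 30146854, 30149254, 30161845, 30162325, 30291938, 30294578, 30365265, 30365505, 30423098, 30582585, 30611865, 30741465, 31699971, 31699979, 31700584, 31701559, 31702159, 31772594, 31773549, 31774754, 31846164, 31847364, 31961972, 31963172, 32035182, 32035782, 32106577, 32108737, 32179777, 32252742, 32325342, 32440542, 33746945, 33746964,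 33747094, 33749378, 33750578, 33761491, 33763782, 33764622, 33779027, 33779387, 34053469, 34053949, 34154756, 34155356, 34197477, 34198557, 34256397, 34313996, 34386837, 34415637, 35199295, 35199297, 35200266, 35200513, 35201593, 35243477, 35243710, 35245277, 35360008, 35361328, 35389286, 35389646, 35519256, 35521056, 35577339, 35578419, 35621616, 35679459, 35810019, 35838819, 37246508, 37246528, 37246645, 37248696, 37249056, 37261055, 37263461, 37264301, 37277505, 37278705, 37523630, 37524710, 37566831, 37567431, 37668238, 37668718, 37683711, 37755838, 37813318, 37885438, 39018071, 39018086, 39018212, 39020017, 39020737, 39032609, 39034419, 39034779, 39049183, 39049543, 39266148, 39266388, 39309592, 39310072, 39352554, 39353274, 39425874, 39454672, 39512754, 39584754, 41312390, 41312394, 41312511, 41312632, 41312754, 41326917, 41327396, 41327637, 41341438, 41342158, 41355953, 41356078, 41370475, 41370595, 41385119, 41385479, 41399516,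 41414039, 41428559, 41443079, 41835637, 41849676, 41864199, 41865159, 41995130, 43578398, 43635882, 43636482, 43737888, 45407325, 45407805, 45480649, 47077721, 47179132, 48805360, 48819763, 48835243, 48965213, 50605846, 50606566, 50707971, 52377896, 54033044, 54149214, 55775447, 55805327, 55935295, 57576658, 59347979, 61119297, 62920998, 64663521, 66362475, 68163082, 69862032, 71604559, 73376116, 75118643, 76817593, 78618200, 80317154, 82059677, 83815527, 83817087, 84033207, 85543410, 85559850, 85804890, 87285933, 87302613, 87576333, 89042964, 89043924, 89173764, 90785491, 90787171, 90988771, 92499094, 92529934, 92774854, 94270645, 94271245, 94357645, 95998528, 96014008, 96143728, 97741055, 97757255, 97944455, 99498086, 99498566, 99556166, 101240609, 101241329, 101313329, 102954212, 102984092, 103099292, 104770540, 106542104, 108313666, 109910978, 111740622, 113512187, 115109496, 116881061, 118710705, 120308017, 122079579, 123851143,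 146561149, 148303910, 150002388, 151803233, 153458391, 155244472, 156972475, 158758556, 160385154, 162214559, 163855917, 165627238, 167326671, 167456511, 169097994, 169184394, 170869317, 170926917, 172640632, 174296755, 174426475, 176068078, 176140078, 177839396, 179610595, 181266839, 181382039, 183038158, 184809479, 186580559]

def par600 : Tr ℕ :=
  (.node 300 (.node 150 (.node 75 (.node 37 (.node 18 (.node 9 (.node 4 (.node 2 (.node 1
  (.leaf 160) (.leaf 480)) (.node 1 (.leaf 481) (.leaf 484))) (.node 2 (.node 1 (.leaf 183)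
  (.leaf 485)) (.node 1 (.leaf 1) (.node 1 (.leaf 5) (.leaf 203))))) (.node 4 (.node 2
  (.node 1 (.leaf 491) (.leaf 510)) (.node 1 (.leaf 222) (.leaf 13))) (.node 2 (.node 1
  (.leaf 4) (.leaf 7)) (.node 1 (.leaf 9) (.node 1 (.leaf 12) (.leaf 10)))))) (.node 9
  (.node 4 (.node 2 (.node 1 (.leaf 11) (.leaf 18)) (.node 1 (.leaf 25) (.leaf 20))) (.node
  2 (.node 1 (.leaf 29) (.leaf 24)) (.node 1 (.leaf 35) (.node 1 (.leaf 28) (.leaf 27)))))
  (.node 5 (.node 2 (.node 1 (.leaf 33) (.leaf 32)) (.node 1 (.leaf 28) (.node 1 (.leaf 37)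
  (.leaf 38)))) (.node 2 (.node 1 (.leaf 514) (.leaf 32)) (.node 1 (.leaf 36) (.node 1
  (.leaf 34) (.leaf 531))))))) (.node 19 (.node 9 (.node 4 (.node 2 (.node 1 (.leaf 39)
  (.leaf 33)) (.node 1 (.leaf 36) (.leaf 45))) (.node 2 (.node 1 (.leaf 46) (.leaf 40))
  (.node 1 (.leaf 44) (.node 1 (.leaf 53) (.leaf 47))))) (.node 5 (.node 2 (.node 1 (.leaf
  503) (.leaf 327)) (.node 1 (.leaf 49) (.node 1 (.leaf 55) (.leaf 57)))) (.node 2 (.node 1
  (.leaf 58) (.leaf 346)) (.node 1 (.leaf 52) (.node 1 (.leaf 518) (.leaf 54)))))) (.node 9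
  (.node 4 (.node 2 (.node 1 (.leaf 540) (.leaf 55)) (.node 1 (.leaf 59) (.leaf 56))) (.node
  2 (.node 1 (.leaf 65) (.leaf 60)) (.node 1 (.leaf 69) (.node 1 (.leaf 61) (.leaf 62)))))
  (.node 5 (.node 2 (.node 1 (.leaf 498) (.leaf 67)) (.node 1 (.leaf 508) (.node 1 (.leaf
  329) (.leaf 68)))) (.node 2 (.node 1 (.leaf 71) (.leaf 78)) (.node 1 (.leaf 520) (.node 1
  (.leaf 366) (.leaf 406)))))))) (.node 37 (.node 18 (.node 9 (.node 4 (.node 2 (.node 1
  (.leaf 74) (.leaf 549)) (.node 1 (.leaf 79) (.leaf 73))) (.node 2 (.node 1 (.leaf 76)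
  (.leaf 81)) (.node 1 (.leaf 84) (.node 1 (.leaf 82) (.leaf 561))))) (.node 4 (.node 2
  (.node 1 (.leaf 83) (.leaf 80)) (.node 1 (.leaf 81) (.leaf 86))) (.node 2 (.node 1 (.leaf
  82) (.leaf 88)) (.node 1 (.leaf 88) (.node 1 (.leaf 83) (.leaf 93)))))) (.node 9 (.node 4
  (.node 2 (.node 1 (.leaf 84) (.leaf 87)) (.node 1 (.leaf 89) (.leaf 92))) (.node 2 (.node
  1 (.leaf 90) (.leaf 91)) (.node 1 (.leaf 98) (.node 1 (.leaf 105) (.leaf 106))))) (.node 5
  (.node 2 (.node 1 (.leaf 109) (.leaf 104)) (.node 1 (.leaf 115) (.node 1 (.leaf 108)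
  (.leaf 107)))) (.node 2 (.node 1 (.leaf 113) (.leaf 417)) (.node 1 (.leaf 568) (.node 1
  (.leaf 117) (.leaf 118))))))) (.node 19 (.node 9 (.node 4 (.node 2 (.node 1 (.leaf 574)
  (.leaf 433)) (.node 1 (.leaf 452) (.leaf 114))) (.node 2 (.node 1 (.leaf 588) (.leaf 119))
  (.node 1 (.leaf 113) (.node 1 (.leaf 470) (.leaf 125))))) (.node 5 (.node 2 (.node 1
  (.leaf 126) (.leaf 120)) (.node 1 (.leaf 124) (.node 1 (.leaf 121) (.leaf 127)))) (.node 2
  (.node 1 (.leaf 562) (.leaf 377)) (.node 1 (.leaf 129) (.node 1 (.leaf 135) (.leaf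
  137)))))) (.node 9 (.node 4 (.node 2 (.node 1 (.leaf 138) (.leaf 392)) (.node 1 (.leaf
  132) (.leaf 578))) (.node 2 (.node 1 (.leaf 134) (.leaf 593)) (.node 1 (.leaf 135) (.node
  1 (.leaf 139) (.leaf 136))))) (.node 5 (.node 2 (.node 1 (.leaf 145) (.leaf 140)) (.node 1
  (.leaf 149) (.node 1 (.leaf 141) (.leaf 142)))) (.node 2 (.node 1 (.leaf 539) (.leaf 147))
  (.node 1 (.leaf 563) (.node 1 (.leaf 357) (.leaf 148))))))))) (.node 75 (.node 37 (.node
  18 (.node 9 (.node 4 (.node 2 (.node 1 (.leaf 151) (.leaf 158)) (.node 1 (.leaf 580)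
  (.leaf 395))) (.node 2 (.node 1 (.leaf 435) (.leaf 154)) (.node 1 (.leaf 597) (.node 1
  (.leaf 159) (.leaf 153))))) (.node 4 (.node 2 (.node 1 (.leaf 156) (.leaf 162)) (.node 1
  (.leaf 164) (.leaf 163))) (.node 2 (.node 1 (.leaf 170) (.leaf 173)) (.node 1 (.leaf 169)
  (.node 1 (.leaf 176) (.leaf 178)))))) (.node 9 (.node 4 (.node 2 (.node 1 (.leaf 171)
  (.leaf 179)) (.node 1 (.leaf 20) (.leaf 175))) (.node 2 (.node 1 (.leaf 494) (.leaf 172))
  (.node 1 (.leaf 320) (.node 1 (.leaf 498) (.leaf 177))))) (.node 5 (.node 2 (.node 1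
  (.leaf 174) (.leaf 177)) (.node 1 (.leaf 175) (.node 1 (.leaf 181) (.leaf 186)))) (.node 2
  (.node 1 (.leaf 180) (.leaf 184)) (.node 1 (.leaf 181) (.node 1 (.leaf 187) (.leaf
  26))))))) (.node 19 (.node 9 (.node 4 (.node 2 (.node 1 (.leaf 497) (.leaf 189)) (.node 1
  (.leaf 185) (.leaf 196))) (.node 2 (.node 1 (.leaf 198) (.leaf 193)) (.node 1 (.leaf 186)
  (.node 1 (.leaf 345) (.leaf 194))))) (.node 5 (.node 2 (.node 1 (.leaf 199) (.leaf 539))
  (.node 1 (.leaf 195) (.node 1 (.leaf 197) (.leaf 205)))) (.node 2 (.node 1 (.leaf 206)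
  (.leaf 209)) (.node 1 (.leaf 201) (.node 1 (.leaf 202) (.leaf 492)))))) (.node 9 (.node 4
  (.node 2 (.node 1 (.leaf 207) (.leaf 24)) (.node 1 (.leaf 508) (.leaf 208))) (.node 2
  (.node 1 (.leaf 211) (.leaf 217)) (.node 1 (.leaf 515) (.node 1 (.leaf 363) (.leaf
  215))))) (.node 5 (.node 2 (.node 1 (.leaf 218) (.leaf 219)) (.node 1 (.leaf 212) (.node 1
  (.leaf 213) (.leaf 218)))) (.node 2 (.node 1 (.leaf 221) (.leaf 226)) (.node 1 (.leaf 220)
  (.node 1 (.leaf 221) (.leaf 223)))))))) (.node 37 (.node 18 (.node 9 (.node 4 (.node 2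
  (.node 1 (.leaf 227) (.leaf 30)) (.node 1 (.leaf 513) (.leaf 229))) (.node 2 (.node 1
  (.leaf 237) (.leaf 534)) (.node 1 (.leaf 230) (.node 1 (.leaf 236) (.leaf 239))))) (.node
  4 (.node 2 (.node 1 (.leaf 563) (.leaf 388)) (.node 1 (.leaf 231) (.leaf 234))) (.node 2
  (.node 1 (.leaf 235) (.leaf 238)) (.node 1 (.leaf 245) (.node 1 (.leaf 246) (.leaf
  240)))))) (.node 9 (.node 4 (.node 2 (.node 1 (.leaf 244) (.leaf 241)) (.node 1 (.leaf
  504) (.leaf 48))) (.node 2 (.node 1 (.leaf 506) (.leaf 249)) (.node 1 (.leaf 64) (.node 1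
  (.leaf 256) (.leaf 258))))) (.node 5 (.node 2 (.node 1 (.leaf 253) (.leaf 257)) (.node 1
  (.leaf 405) (.node 1 (.leaf 521) (.leaf 259)))) (.node 2 (.node 1 (.leaf 545) (.leaf 255))
  (.node 1 (.leaf 257) (.node 1 (.leaf 261) (.leaf 266))))))) (.node 19 (.node 9 (.node 4
  (.node 2 (.node 1 (.leaf 264) (.leaf 271)) (.node 1 (.leaf 263) (.leaf 267))) (.node 2
  (.node 1 (.leaf 51) (.leaf 516)) (.node 1 (.leaf 273) (.node 1 (.leaf 276) (.leaf 546)))))
  (.node 5 (.node 2 (.node 1 (.leaf 548) (.leaf 277)) (.node 1 (.leaf 278) (.node 1 (.leaf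
  565) (.leaf 427)))) (.node 2 (.node 1 (.leaf 274) (.leaf 144)) (.node 1 (.leaf 279) (.node
  1 (.leaf 581) (.leaf 285)))))) (.node 9 (.node 4 (.node 2 (.node 1 (.leaf 286) (.leaf
  280)) (.node 1 (.leaf 291) (.leaf 283))) (.node 2 (.node 1 (.leaf 287) (.leaf 70)) (.node
  1 (.leaf 519) (.node 1 (.leaf 289) (.leaf 297))))) (.node 5 (.node 2 (.node 1 (.leaf 552)
  (.leaf 290)) (.node 1 (.leaf 296) (.node 1 (.leaf 299) (.leaf 569)))) (.node 2 (.node 1
  (.leaf 448) (.leaf 104)) (.node 1 (.leaf 294) (.node 1 (.leaf 575) (.leaf 298))))))))))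
  (.node 150 (.node 75 (.node 37 (.node 18 (.node 9 (.node 4 (.node 2 (.node 1 (.leaf 305)
  (.leaf 306)) (.node 1 (.leaf 308) (.leaf 310))) (.node 2 (.node 1 (.leaf 312) (.leaf 307))
  (.node 1 (.leaf 313) (.node 1 (.leaf 233) (.leaf 309))))) (.node 4 (.node 2 (.node 1
  (.leaf 315) (.leaf 316)) (.node 1 (.leaf 318) (.leaf 576))) (.node 2 (.node 1 (.leaf 131)
  (.leaf 579)) (.node 1 (.leaf 150) (.node 1 (.leaf 590) (.leaf 596)))))) (.node 9 (.node 4
  (.node 2 (.node 1 (.leaf 598) (.leaf 474)) (.node 1 (.leaf 321) (.leaf 323))) (.node 2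
  (.node 1 (.leaf 324) (.leaf 330)) (.node 1 (.leaf 334) (.node 1 (.leaf 327) (.leaf
  331))))) (.node 5 (.node 2 (.node 1 (.leaf 332) (.leaf 333)) (.node 1 (.leaf 335) (.node 1
  (.leaf 336) (.leaf 330)))) (.node 2 (.node 1 (.leaf 337) (.leaf 338)) (.node 1 (.leaf 336)
  (.node 1 (.leaf 334) (.leaf 533))))))) (.node 19 (.node 9 (.node 4 (.node 2 (.node 1
  (.leaf 542) (.leaf 339)) (.node 1 (.leaf 80) (.leaf 342))) (.node 2 (.node 1 (.leaf 343)
  (.leaf 344)) (.node 1 (.leaf 344) (.node 1 (.leaf 514) (.leaf 340))))) (.node 5 (.node 2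
  (.node 1 (.leaf 350) (.leaf 346)) (.node 1 (.leaf 353) (.node 1 (.leaf 348) (.leaf 351))))
  (.node 2 (.node 1 (.leaf 356) (.leaf 561)) (.node 1 (.leaf 352) (.node 1 (.leaf 355)
  (.leaf 358)))))) (.node 9 (.node 4 (.node 2 (.node 1 (.leaf 84) (.leaf 359)) (.node 1
  (.leaf 356) (.leaf 353))) (.node 2 (.node 1 (.leaf 365) (.leaf 360)) (.node 1 (.leaf 368)
  (.node 1 (.leaf 361) (.leaf 362))))) (.node 5 (.node 2 (.node 1 (.leaf 369) (.leaf 367))
  (.node 1 (.leaf 365) (.node 1 (.leaf 369) (.leaf 533)))) (.node 2 (.node 1 (.leaf 375)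
  (.leaf 370)) (.node 1 (.leaf 373) (.node 1 (.leaf 368) (.leaf 376)))))))) (.node 37 (.node
  18 (.node 9 (.node 4 (.node 2 (.node 1 (.leaf 374) (.leaf 88)) (.node 1 (.leaf 379) (.leaf
  376))) (.node 2 (.node 1 (.leaf 378) (.leaf 381)) (.node 1 (.leaf 531) (.node 1 (.leaf
  384) (.leaf 561))))) (.node 4 (.node 2 (.node 1 (.leaf 383) (.leaf 380)) (.node 1 (.leaf
  381) (.leaf 386))) (.node 2 (.node 1 (.leaf 385) (.leaf 382)) (.node 1 (.leaf 383) (.node
  1 (.leaf 390) (.leaf 387)))))) (.node 9 (.node 4 (.node 2 (.node 1 (.leaf 388) (.leaf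
  384)) (.node 1 (.leaf 394) (.leaf 390))) (.node 2 (.node 1 (.leaf 391) (.leaf 395)) (.node
  1 (.leaf 396) (.node 1 (.leaf 402) (.leaf 403))))) (.node 5 (.node 2 (.node 1 (.leaf 404)
  (.leaf 411)) (.node 1 (.leaf 412) (.node 1 (.leaf 400) (.leaf 410)))) (.node 2 (.node 1
  (.leaf 406) (.leaf 413)) (.node 1 (.leaf 408) (.node 1 (.leaf 411) (.leaf 551)))))))
  (.node 19 (.node 9 (.node 4 (.node 2 (.node 1 (.leaf 564) (.leaf 412)) (.node 1 (.leaf
  415) (.leaf 418))) (.node 2 (.node 1 (.leaf 87) (.leaf 419)) (.node 1 (.leaf 416) (.node 1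
  (.leaf 418) (.leaf 422))))) (.node 5 (.node 2 (.node 1 (.leaf 424) (.leaf 423)) (.node 1
  (.leaf 564) (.node 1 (.leaf 423) (.leaf 429)))) (.node 2 (.node 1 (.leaf 421) (.leaf 425))
  (.node 1 (.leaf 431) (.node 1 (.leaf 428) (.leaf 92)))))) (.node 9 (.node 4 (.node 2
  (.node 1 (.leaf 571) (.leaf 436)) (.node 1 (.leaf 432) (.leaf 435))) (.node 2 (.node 1
  (.leaf 438) (.leaf 430)) (.node 1 (.leaf 439) (.node 1 (.leaf 431) (.leaf 436))))) (.node
  5 (.node 2 (.node 1 (.leaf 441) (.leaf 443)) (.node 1 (.leaf 444) (.node 1 (.leaf 567)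
  (.leaf 443)))) (.node 2 (.node 1 (.leaf 440) (.leaf 451)) (.node 1 (.leaf 446) (.node 1
  (.leaf 445) (.leaf 442))))))))) (.node 75 (.node 37 (.node 18 (.node 9 (.node 4 (.node 2
  (.node 1 (.leaf 95) (.leaf 450)) (.node 1 (.leaf 457) (.leaf 452))) (.node 2 (.node 1
  (.leaf 456) (.leaf 454)) (.node 1 (.leaf 450) (.node 1 (.leaf 451) (.leaf 459))))) (.node
  4 (.node 2 (.node 1 (.leaf 456) (.leaf 99)) (.node 1 (.leaf 585) (.leaf 460))) (.node 2
  (.node 1 (.leaf 462) (.leaf 461)) (.node 1 (.leaf 587) (.node 1 (.leaf 461) (.leaf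
  399)))))) (.node 9 (.node 4 (.node 2 (.node 1 (.leaf 462) (.leaf 465)) (.node 1 (.leaf
  463) (.leaf 468))) (.node 2 (.node 1 (.leaf 473) (.leaf 464)) (.node 1 (.leaf 477) (.node
  1 (.leaf 479) (.leaf 466))))) (.node 5 (.node 2 (.node 1 (.leaf 478) (.leaf 467)) (.node 1
  (.leaf 469) (.node 1 (.leaf 161) (.leaf 483)))) (.node 2 (.node 1 (.leaf 21) (.leaf 482))
  (.node 1 (.leaf 483) (.node 1 (.leaf 165) (.leaf 42))))))) (.node 19 (.node 9 (.node 4
  (.node 2 (.node 1 (.leaf 501) (.leaf 487)) (.node 1 (.leaf 61) (.leaf 489))) (.node 2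
  (.node 1 (.leaf 204) (.leaf 499)) (.node 1 (.leaf 23) (.node 1 (.leaf 321) (.leaf 496)))))
  (.node 5 (.node 2 (.node 1 (.leaf 494) (.leaf 27)) (.node 1 (.leaf 322) (.node 1 (.leaf
  500) (.leaf 324)))) (.node 2 (.node 1 (.leaf 43) (.leaf 325)) (.node 1 (.leaf 326) (.node
  1 (.leaf 505) (.leaf 509)))))) (.node 9 (.node 4 (.node 2 (.node 1 (.leaf 400) (.leaf 63))
  (.node 1 (.leaf 361) (.leaf 328))) (.node 2 (.node 1 (.leaf 210) (.leaf 190)) (.node 1
  (.leaf 250) (.node 1 (.leaf 31) (.leaf 532))))) (.node 5 (.node 2 (.node 1 (.leaf 364)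
  (.leaf 544)) (.node 1 (.leaf 347) (.node 1 (.leaf 541) (.leaf 556)))) (.node 2 (.node 1
  (.leaf 335) (.leaf 407)) (.node 1 (.leaf 268) (.node 1 (.leaf 524) (.leaf 101))))))))
  (.node 37 (.node 18 (.node 9 (.node 4 (.node 2 (.node 1 (.leaf 526) (.leaf 527)) (.node 1
  (.leaf 122) (.leaf 228))) (.node 2 (.node 1 (.leaf 530) (.leaf 141)) (.node 1 (.leaf 532)
  (.node 1 (.leaf 533) (.leaf 82))))) (.node 4 (.node 2 (.node 1 (.leaf 37) (.leaf 515))
  (.node 1 (.leaf 535) (.leaf 348))) (.node 2 (.node 1 (.leaf 537) (.leaf 349)) (.node 1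
  (.leaf 541) (.node 1 (.leaf 542) (.leaf 81)))))) (.node 9 (.node 4 (.node 2 (.node 1
  (.leaf 408) (.leaf 543)) (.node 1 (.leaf 409) (.leaf 425))) (.node 2 (.node 1 (.leaf 566)
  (.leaf 547)) (.node 1 (.leaf 550) (.node 1 (.leaf 551) (.leaf 85))))) (.node 5 (.node 2
  (.node 1 (.leaf 445) (.leaf 568)) (.node 1 (.leaf 553) (.node 1 (.leaf 370) (.leaf 555))))
  (.node 2 (.node 1 (.leaf 371) (.leaf 103)) (.node 1 (.leaf 123) (.node 1 (.leaf 143)
  (.leaf 532))))))) (.node 19 (.node 9 (.node 4 (.node 2 (.node 1 (.leaf 372) (.leaf 389))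
  (.node 1 (.leaf 86) (.leaf 426))) (.node 2 (.node 1 (.leaf 354) (.leaf 89)) (.node 1
  (.leaf 414) (.node 1 (.leaf 449) (.leaf 90))))) (.node 5 (.node 2 (.node 1 (.leaf 93)
  (.leaf 94)) (.node 1 (.leaf 591) (.node 1 (.leaf 582) (.leaf 453)))) (.node 2 (.node 1
  (.leaf 589) (.leaf 393)) (.node 1 (.leaf 584) (.node 1 (.leaf 151) (.leaf 359)))))) (.node
  9 (.node 4 (.node 2 (.node 1 (.leaf 434) (.leaf 583)) (.node 1 (.leaf 96) (.leaf 570)))
  (.node 2 (.node 1 (.leaf 97) (.leaf 571)) (.node 1 (.leaf 98) (.node 1 (.leaf 582) (.leaf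
  594))))) (.node 5 (.node 2 (.node 1 (.leaf 472) (.leaf 592)) (.node 1 (.leaf 437) (.node 1
  (.leaf 584) (.leaf 458)))) (.node 2 (.node 1 (.leaf 599) (.leaf 595)) (.node 1 (.leaf 586)
  (.node 1 (.leaf 475) (.leaf 398)))))))))))

def dep600 : Tr ℕ :=
  (.node 300 (.node 150 (.node 75 (.node 37 (.node 18 (.node 9 (.node 4 (.node 2 (.node 1
  (.leaf 12) (.leaf 12)) (.node 1 (.leaf 12) (.leaf 12))) (.node 2 (.node 1 (.leaf 12)
  (.leaf 12)) (.node 1 (.leaf 13) (.node 1 (.leaf 13) (.leaf 12))))) (.node 4 (.node 2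
  (.node 1 (.leaf 12) (.leaf 12)) (.node 1 (.leaf 12) (.leaf 14))) (.node 2 (.node 1 (.leaf
  13) (.leaf 14)) (.node 1 (.leaf 13) (.node 1 (.leaf 15) (.leaf 13)))))) (.node 9 (.node 4
  (.node 2 (.node 1 (.leaf 13) (.leaf 14)) (.node 1 (.leaf 7) (.leaf 8))) (.node 2 (.node 1
  (.leaf 7) (.leaf 8)) (.node 1 (.leaf 7) (.node 1 (.leaf 6) (.leaf 7))))) (.node 5 (.node 2
  (.node 1 (.leaf 6) (.leaf 5)) (.node 1 (.leaf 6) (.node 1 (.leaf 7) (.leaf 7)))) (.node 2
  (.node 1 (.leaf 4) (.leaf 5)) (.node 1 (.leaf 5) (.node 1 (.leaf 6) (.leaf 4))))))) (.node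
  19 (.node 9 (.node 4 (.node 2 (.node 1 (.leaf 6) (.leaf 6)) (.node 1 (.leaf 5) (.leaf
  13))) (.node 2 (.node 1 (.leaf 8) (.leaf 14)) (.node 1 (.leaf 13) (.node 1 (.leaf 12)
  (.leaf 12))))) (.node 5 (.node 2 (.node 1 (.leaf 7) (.leaf 11)) (.node 1 (.leaf 13) (.node
  1 (.leaf 12) (.leaf 13)))) (.node 2 (.node 1 (.leaf 13) (.leaf 10)) (.node 1 (.leaf 11)
  (.node 1 (.leaf 10) (.leaf 11)))))) (.node 9 (.node 4 (.node 2 (.node 1 (.leaf 10) (.leaf
  12)) (.node 1 (.leaf 12) (.leaf 11))) (.node 2 (.node 1 (.leaf 8) (.leaf 9)) (.node 1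
  (.leaf 8) (.node 1 (.leaf 10) (.leaf 9))))) (.node 5 (.node 2 (.node 1 (.leaf 7) (.leaf
  8)) (.node 1 (.leaf 7) (.node 1 (.leaf 6) (.leaf 7)))) (.node 2 (.node 1 (.leaf 9) (.leaf
  8)) (.node 1 (.leaf 6) (.node 1 (.leaf 6) (.leaf 13)))))))) (.node 37 (.node 18 (.node 9
  (.node 4 (.node 2 (.node 1 (.leaf 14) (.leaf 12)) (.node 1 (.leaf 14) (.leaf 7))) (.node 2
  (.node 1 (.leaf 13) (.leaf 7)) (.node 1 (.leaf 6) (.node 1 (.leaf 0) (.leaf 4))))) (.node
  4 (.node 2 (.node 1 (.leaf 5) (.leaf 8)) (.node 1 (.leaf 7) (.leaf 8))) (.node 2 (.node 1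
  (.leaf 1) (.leaf 2)) (.node 1 (.leaf 2) (.node 1 (.leaf 5) (.leaf 7)))))) (.node 9 (.node
  4 (.node 2 (.node 1 (.leaf 6) (.leaf 9)) (.node 1 (.leaf 3) (.leaf 8))) (.node 2 (.node 1
  (.leaf 3) (.leaf 6)) (.node 1 (.leaf 7) (.node 1 (.leaf 15) (.leaf 15))))) (.node 5 (.node
  2 (.node 1 (.leaf 15) (.leaf 11)) (.node 1 (.leaf 10) (.node 1 (.leaf 14) (.leaf 14))))
  (.node 2 (.node 1 (.leaf 13) (.leaf 13)) (.node 1 (.leaf 14) (.node 1 (.leaf 14) (.leaf
  14))))))) (.node 19 (.node 9 (.node 4 (.node 2 (.node 1 (.leaf 12) (.leaf 12)) (.node 1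
  (.leaf 8) (.leaf 9))) (.node 2 (.node 1 (.leaf 12) (.leaf 13)) (.node 1 (.leaf 13) (.node
  1 (.leaf 12) (.leaf 8))))) (.node 5 (.node 2 (.node 1 (.leaf 8) (.leaf 9)) (.node 1 (.leaf
  10) (.node 1 (.leaf 9) (.leaf 7)))) (.node 2 (.node 1 (.leaf 7) (.leaf 6)) (.node 1 (.leaf
  9) (.node 1 (.leaf 8) (.leaf 9)))))) (.node 9 (.node 4 (.node 2 (.node 1 (.leaf 9) (.leaf
  8)) (.node 1 (.leaf 9) (.leaf 6))) (.node 2 (.node 1 (.leaf 7) (.leaf 6)) (.node 1 (.leaf
  8) (.node 1 (.leaf 8) (.leaf 7))))) (.node 5 (.node 2 (.node 1 (.leaf 10) (.leaf 11))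
  (.node 1 (.leaf 10) (.node 1 (.leaf 12) (.leaf 11)))) (.node 2 (.node 1 (.leaf 9) (.leaf
  10)) (.node 1 (.leaf 9) (.node 1 (.leaf 8) (.leaf 9))))))))) (.node 75 (.node 37 (.node 18
  (.node 9 (.node 4 (.node 2 (.node 1 (.leaf 11) (.leaf 10)) (.node 1 (.leaf 8) (.leaf 8)))
  (.node 2 (.node 1 (.leaf 11) (.leaf 12)) (.node 1 (.leaf 10) (.node 1 (.leaf 12) (.leaf
  9))))) (.node 4 (.node 2 (.node 1 (.leaf 11) (.leaf 11)) (.node 1 (.leaf 10) (.leaf 10)))
  (.node 2 (.node 1 (.leaf 9) (.leaf 9)) (.node 1 (.leaf 10) (.node 1 (.leaf 10) (.leaf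
  10)))))) (.node 9 (.node 4 (.node 2 (.node 1 (.leaf 9) (.leaf 9)) (.node 1 (.leaf 8)
  (.leaf 8))) (.node 2 (.node 1 (.leaf 7) (.leaf 8)) (.node 1 (.leaf 7) (.node 1 (.leaf 7)
  (.leaf 9))))) (.node 5 (.node 2 (.node 1 (.leaf 8) (.leaf 9)) (.node 1 (.leaf 8) (.node 1
  (.leaf 10) (.leaf 9)))) (.node 2 (.node 1 (.leaf 11) (.leaf 11)) (.node 1 (.leaf 10)
  (.node 1 (.leaf 9) (.leaf 8))))))) (.node 19 (.node 9 (.node 4 (.node 2 (.node 1 (.leaf 8)
  (.leaf 11)) (.node 1 (.leaf 10) (.leaf 12))) (.node 2 (.node 1 (.leaf 11) (.leaf 10))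
  (.node 1 (.leaf 9) (.node 1 (.leaf 8) (.leaf 9))))) (.node 5 (.node 2 (.node 1 (.leaf 11)
  (.leaf 9)) (.node 1 (.leaf 10) (.node 1 (.leaf 10) (.leaf 9)))) (.node 2 (.node 1 (.leaf
  10) (.leaf 9)) (.node 1 (.leaf 11) (.node 1 (.leaf 10) (.leaf 8)))))) (.node 9 (.node 4
  (.node 2 (.node 1 (.leaf 9) (.leaf 8)) (.node 1 (.leaf 7) (.leaf 8))) (.node 2 (.node 1
  (.leaf 10) (.leaf 9)) (.node 1 (.leaf 7) (.node 1 (.leaf 7) (.leaf 10))))) (.node 5 (.node
  2 (.node 1 (.leaf 9) (.leaf 10)) (.node 1 (.leaf 8) (.node 1 (.leaf 8) (.leaf 9)))) (.node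
  2 (.node 1 (.leaf 10) (.leaf 9)) (.node 1 (.leaf 11) (.node 1 (.leaf 10) (.leaf 11))))))))
  (.node 37 (.node 18 (.node 9 (.node 4 (.node 2 (.node 1 (.leaf 10) (.leaf 8)) (.node 1
  (.leaf 9) (.leaf 12))) (.node 2 (.node 1 (.leaf 11) (.leaf 8)) (.node 1 (.leaf 9) (.node 1
  (.leaf 11) (.leaf 11))))) (.node 4 (.node 2 (.node 1 (.leaf 9) (.leaf 8)) (.node 1 (.leaf
  10) (.leaf 10))) (.node 2 (.node 1 (.leaf 9) (.leaf 10)) (.node 1 (.leaf 16) (.node 1
  (.leaf 15) (.leaf 17)))))) (.node 9 (.node 4 (.node 2 (.node 1 (.leaf 17) (.leaf 16))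
  (.node 1 (.leaf 15) (.leaf 14))) (.node 2 (.node 1 (.leaf 14) (.leaf 11)) (.node 1 (.leaf
  10) (.node 1 (.leaf 17) (.leaf 17))))) (.node 5 (.node 2 (.node 1 (.leaf 16) (.leaf 15))
  (.node 1 (.leaf 14) (.node 1 (.leaf 15) (.leaf 16)))) (.node 2 (.node 1 (.leaf 14) (.leaf
  16)) (.node 1 (.leaf 15) (.node 1 (.leaf 16) (.leaf 15))))))) (.node 19 (.node 9 (.node 4
  (.node 2 (.node 1 (.leaf 16) (.leaf 14)) (.node 1 (.leaf 15) (.leaf 16))) (.node 2 (.node
  1 (.leaf 14) (.leaf 15)) (.node 1 (.leaf 16) (.node 1 (.leaf 16) (.leaf 13))))) (.node 5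
  (.node 2 (.node 1 (.leaf 13) (.leaf 13)) (.node 1 (.leaf 15) (.node 1 (.leaf 14) (.leaf
  13)))) (.node 2 (.node 1 (.leaf 15) (.leaf 12)) (.node 1 (.leaf 14) (.node 1 (.leaf 13)
  (.leaf 11)))))) (.node 9 (.node 4 (.node 2 (.node 1 (.leaf 11) (.leaf 12)) (.node 1 (.leaf
  11) (.leaf 12))) (.node 2 (.node 1 (.leaf 10) (.leaf 10)) (.node 1 (.leaf 9) (.node 1
  (.leaf 12) (.leaf 11))))) (.node 5 (.node 2 (.node 1 (.leaf 9) (.leaf 10)) (.node 1 (.leaf
  12) (.node 1 (.leaf 12) (.leaf 9)))) (.node 2 (.node 1 (.leaf 9) (.leaf 11)) (.node 1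
  (.leaf 10) (.node 1 (.leaf 10) (.leaf 11)))))))))) (.node 150 (.node 75 (.node 37 (.node
  18 (.node 9 (.node 4 (.node 2 (.node 1 (.leaf 14) (.leaf 12)) (.node 1 (.leaf 15) (.leaf
  12))) (.node 2 (.node 1 (.leaf 12) (.leaf 13)) (.node 1 (.leaf 11) (.node 1 (.leaf 12)
  (.leaf 14))))) (.node 4 (.node 2 (.node 1 (.leaf 13) (.leaf 11)) (.node 1 (.leaf 14)
  (.leaf 11))) (.node 2 (.node 1 (.leaf 10) (.leaf 12)) (.node 1 (.leaf 12) (.node 1 (.leaf
  10) (.leaf 12)))))) (.node 9 (.node 4 (.node 2 (.node 1 (.leaf 13) (.leaf 12)) (.node 1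
  (.leaf 6) (.leaf 5))) (.node 2 (.node 1 (.leaf 5) (.leaf 4)) (.node 1 (.leaf 4) (.node 1
  (.leaf 11) (.leaf 5))))) (.node 5 (.node 2 (.node 1 (.leaf 10) (.leaf 11)) (.node 1 (.leaf
  5) (.node 1 (.leaf 3) (.leaf 4)))) (.node 2 (.node 1 (.leaf 9) (.leaf 10)) (.node 1 (.leaf
  3) (.node 1 (.leaf 4) (.leaf 2))))))) (.node 19 (.node 9 (.node 4 (.node 2 (.node 1 (.leaf
  8) (.leaf 9)) (.node 1 (.leaf 8) (.leaf 6))) (.node 2 (.node 1 (.leaf 6) (.leaf 5)) (.node
  1 (.leaf 5) (.node 1 (.leaf 4) (.leaf 7))))) (.node 5 (.node 2 (.node 1 (.leaf 9) (.leaf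
  10)) (.node 1 (.leaf 6) (.node 1 (.leaf 7) (.leaf 8)))) (.node 2 (.node 1 (.leaf 7) (.leaf
  4)) (.node 1 (.leaf 5) (.node 1 (.leaf 9) (.leaf 8)))))) (.node 9 (.node 4 (.node 2 (.node
  1 (.leaf 6) (.leaf 7)) (.node 1 (.leaf 7) (.leaf 6))) (.node 2 (.node 1 (.leaf 4) (.leaf
  5)) (.node 1 (.leaf 4) (.node 1 (.leaf 6) (.leaf 5))))) (.node 5 (.node 2 (.node 1 (.leaf
  3) (.leaf 5)) (.node 1 (.leaf 4) (.node 1 (.leaf 3) (.leaf 2)))) (.node 2 (.node 1 (.leaf
  5) (.leaf 6)) (.node 1 (.leaf 5) (.node 1 (.leaf 4) (.leaf 3)))))))) (.node 37 (.node 18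
  (.node 9 (.node 4 (.node 2 (.node 1 (.leaf 4) (.leaf 2)) (.node 1 (.leaf 5) (.leaf 3)))
  (.node 2 (.node 1 (.leaf 4) (.leaf 5)) (.node 1 (.leaf 4) (.node 1 (.leaf 6) (.leaf 4)))))
  (.node 4 (.node 2 (.node 1 (.leaf 5) (.leaf 6)) (.node 1 (.leaf 5) (.leaf 6))) (.node 2
  (.node 1 (.leaf 7) (.leaf 7)) (.node 1 (.leaf 5) (.node 1 (.leaf 6) (.leaf 7)))))) (.node
  9 (.node 4 (.node 2 (.node 1 (.leaf 8) (.leaf 6)) (.node 1 (.leaf 7) (.leaf 6))) (.node 2
  (.node 1 (.leaf 7) (.leaf 8)) (.node 1 (.leaf 7) (.node 1 (.leaf 12) (.leaf 12))))) (.node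
  5 (.node 2 (.node 1 (.leaf 11) (.leaf 11)) (.node 1 (.leaf 10) (.node 1 (.leaf 13) (.leaf
  12)))) (.node 2 (.node 1 (.leaf 13) (.leaf 11)) (.node 1 (.leaf 12) (.node 1 (.leaf 11)
  (.leaf 10))))))) (.node 19 (.node 9 (.node 4 (.node 2 (.node 1 (.leaf 9) (.leaf 10))
  (.node 1 (.leaf 12) (.leaf 11))) (.node 2 (.node 1 (.leaf 9) (.leaf 12)) (.node 1 (.leaf
  10) (.node 1 (.leaf 11) (.leaf 11))))) (.node 5 (.node 2 (.node 1 (.leaf 11) (.leaf 10))
  (.node 1 (.leaf 9) (.node 1 (.leaf 10) (.leaf 11)))) (.node 2 (.node 1 (.leaf 12) (.leaf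
  12)) (.node 1 (.leaf 9) (.node 1 (.leaf 10) (.leaf 8)))))) (.node 9 (.node 4 (.node 2
  (.node 1 (.leaf 8) (.leaf 10)) (.node 1 (.leaf 11) (.leaf 11))) (.node 2 (.node 1 (.leaf
  10) (.leaf 9)) (.node 1 (.leaf 11) (.node 1 (.leaf 9) (.leaf 10))))) (.node 5 (.node 2
  (.node 1 (.leaf 6) (.leaf 5)) (.node 1 (.leaf 6) (.node 1 (.leaf 4) (.leaf 5)))) (.node 2
  (.node 1 (.leaf 7) (.leaf 6)) (.node 1 (.leaf 7) (.node 1 (.leaf 8) (.leaf 7)))))))))
  (.node 75 (.node 37 (.node 18 (.node 9 (.node 4 (.node 2 (.node 1 (.leaf 4) (.leaf 5))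
  (.node 1 (.leaf 7) (.leaf 8))) (.node 2 (.node 1 (.leaf 6) (.leaf 7)) (.node 1 (.leaf 5)
  (.node 1 (.leaf 6) (.leaf 7))))) (.node 4 (.node 2 (.node 1 (.leaf 6) (.leaf 8)) (.node 1
  (.leaf 5) (.leaf 9))) (.node 2 (.node 1 (.leaf 10) (.leaf 6)) (.node 1 (.leaf 8) (.node 1
  (.leaf 6) (.leaf 8)))))) (.node 9 (.node 4 (.node 2 (.node 1 (.leaf 10) (.leaf 9)) (.node
  1 (.leaf 11) (.leaf 11))) (.node 2 (.node 1 (.leaf 8) (.leaf 7)) (.node 1 (.leaf 11)
  (.node 1 (.leaf 11) (.leaf 7))))) (.node 5 (.node 2 (.node 1 (.leaf 10) (.leaf 9)) (.node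
  1 (.leaf 10) (.node 1 (.leaf 11) (.leaf 11)))) (.node 2 (.node 1 (.leaf 9) (.leaf 10))
  (.node 1 (.leaf 11) (.node 1 (.leaf 11) (.leaf 15))))))) (.node 19 (.node 9 (.node 4
  (.node 2 (.node 1 (.leaf 15) (.leaf 16)) (.node 1 (.leaf 10) (.leaf 11))) (.node 2 (.node
  1 (.leaf 11) (.leaf 7)) (.node 1 (.leaf 9) (.node 1 (.leaf 6) (.leaf 8))))) (.node 5
  (.node 2 (.node 1 (.leaf 7) (.leaf 7)) (.node 1 (.leaf 6) (.node 1 (.leaf 6) (.leaf 5))))
  (.node 2 (.node 1 (.leaf 14) (.leaf 12)) (.node 1 (.leaf 6) (.node 1 (.leaf 14) (.leaf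
  13)))))) (.node 9 (.node 4 (.node 2 (.node 1 (.leaf 13) (.leaf 11)) (.node 1 (.leaf 6)
  (.leaf 12))) (.node 2 (.node 1 (.leaf 11) (.leaf 13)) (.node 1 (.leaf 18) (.node 1 (.leaf
  8) (.leaf 3))))) (.node 5 (.node 2 (.node 1 (.leaf 6) (.leaf 14)) (.node 1 (.leaf 11)
  (.node 1 (.leaf 9) (.leaf 8)))) (.node 2 (.node 1 (.leaf 5) (.leaf 14)) (.node 1 (.leaf
  17) (.node 1 (.leaf 17) (.leaf 16)))))))) (.node 37 (.node 18 (.node 9 (.node 4 (.node 2
  (.node 1 (.leaf 12) (.leaf 11)) (.node 1 (.leaf 10) (.leaf 13))) (.node 2 (.node 1 (.leaf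
  13) (.leaf 12)) (.node 1 (.leaf 3) (.node 1 (.leaf 2) (.leaf 1))))) (.node 4 (.node 2
  (.node 1 (.leaf 7) (.leaf 7)) (.node 1 (.leaf 8) (.leaf 7))) (.node 2 (.node 1 (.leaf 8)
  (.leaf 8)) (.node 1 (.leaf 9) (.node 1 (.leaf 8) (.leaf 7)))))) (.node 9 (.node 4 (.node 2
  (.node 1 (.leaf 12) (.leaf 13)) (.node 1 (.leaf 13) (.leaf 12))) (.node 2 (.node 1 (.leaf
  11) (.leaf 12)) (.node 1 (.leaf 11) (.node 1 (.leaf 10) (.leaf 9))))) (.node 5 (.node 2
  (.node 1 (.leaf 8) (.leaf 14)) (.node 1 (.leaf 15) (.node 1 (.leaf 6) (.leaf 7)))) (.node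
  2 (.node 1 (.leaf 7) (.leaf 12)) (.node 1 (.leaf 11) (.node 1 (.leaf 13) (.leaf 3)))))))
  (.node 19 (.node 9 (.node 4 (.node 2 (.node 1 (.leaf 6) (.leaf 8)) (.node 1 (.leaf 8)
  (.leaf 13))) (.node 2 (.node 1 (.leaf 10) (.leaf 3)) (.node 1 (.leaf 13) (.node 1 (.leaf
  8) (.leaf 3))))) (.node 5 (.node 2 (.node 1 (.leaf 7) (.leaf 10)) (.node 1 (.leaf 14)
  (.node 1 (.leaf 11) (.leaf 9)))) (.node 2 (.node 1 (.leaf 10) (.leaf 9)) (.node 1 (.leaf
  5) (.node 1 (.leaf 11) (.leaf 7)))))) (.node 9 (.node 4 (.node 2 (.node 1 (.leaf 12)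
  (.leaf 10)) (.node 1 (.leaf 9) (.leaf 4))) (.node 2 (.node 1 (.leaf 4) (.leaf 8)) (.node 1
  (.leaf 7) (.node 1 (.leaf 11) (.leaf 9))))) (.node 5 (.node 2 (.node 1 (.leaf 9) (.leaf
  13)) (.node 1 (.leaf 12) (.node 1 (.leaf 5) (.leaf 8)))) (.node 2 (.node 1 (.leaf 10)
  (.leaf 11)) (.node 1 (.leaf 9) (.node 1 (.leaf 12) (.leaf 9)))))))))))

def tri600 : Tr ℕ :=
  (.node 300 (.node 150 (.node 75 (.node 37 (.node 18 (.node 9 (.node 4 (.node 2 (.node 1
  (.leaf 348626) (.leaf 348637)) (.node 1 (.leaf 348756) (.leaf 349970))) (.node 2 (.node 1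
  (.leaf 350090) (.leaf 363158)) (.node 1 (.leaf 3037) (.node 1 (.leaf 3038) (.leaf
  378769))))) (.node 4 (.node 2 (.node 1 (.leaf 379009) (.leaf 524341)) (.node 1 (.leaf
  524461) (.leaf 4502))) (.node 2 (.node 1 (.leaf 4490) (.leaf 4608)) (.node 1 (.leaf 4609)
  (.node 1 (.leaf 5822) (.leaf 5941)))))) (.node 9 (.node 4 (.node 2 (.node 1 (.leaf 6061)
  (.leaf 7382)) (.node 1 (.leaf 17789) (.leaf 17668))) (.node 2 (.node 1 (.leaf 17921)
  (.leaf 17692)) (.node 1 (.leaf 19372) (.node 1 (.leaf 17920) (.leaf 17813))))) (.node 5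
  (.node 2 (.node 1 (.leaf 19253) (.leaf 19251)) (.node 1 (.leaf 17931) (.node 1 (.leaf
  20705) (.leaf 20825)))) (.node 2 (.node 1 (.leaf 582183) (.leaf 19263)) (.node 1 (.leaf
  20584) (.node 1 (.leaf 19384) (.leaf 742024))))))) (.node 19 (.node 9 (.node 4 (.node 2
  (.node 1 (.leaf 22145) (.leaf 20823)) (.node 1 (.leaf 22024) (.leaf 32552))) (.node 2
  (.node 1 (.leaf 32563) (.leaf 32432)) (.node 1 (.leaf 32456) (.node 1 (.leaf 34016) (.leaf
  32564))))) (.node 5 (.node 2 (.node 1 (.leaf 451614) (.leaf 451734)) (.node 1 (.leaf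
  32695) (.node 1 (.leaf 34135) (.leaf 35467)))) (.node 2 (.node 1 (.leaf 35587) (.leaf
  625748)) (.node 1 (.leaf 34028) (.node 1 (.leaf 640146) (.leaf 34146)))))) (.node 9 (.node
  4 (.node 2 (.node 1 (.leaf 785588) (.leaf 35466)) (.node 1 (.leaf 36908) (.leaf 36788)))
  (.node 2 (.node 1 (.leaf 47315) (.leaf 47194)) (.node 1 (.leaf 47447) (.node 1 (.leaf
  47205) (.leaf 47207))))) (.node 5 (.node 2 (.node 1 (.leaf 493846) (.leaf 47339)) (.node 1
  (.leaf 495179) (.node 1 (.leaf 509577) (.leaf 47457)))) (.node 2 (.node 1 (.leaf 48671)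
  (.leaf 50351)) (.node 1 (.leaf 669309) (.node 1 (.leaf 669549) (.leaf 683710))))))))
  (.node 37 (.node 18 (.node 9 (.node 4 (.node 2 (.node 1 (.leaf 48910) (.leaf 829150))
  (.node 1 (.leaf 51671) (.leaf 50349))) (.node 2 (.node 1 (.leaf 51550) (.leaf 66313))
  (.node 1 (.leaf 66325) (.node 1 (.leaf 0) (.leaf 1046978))))) (.node 4 (.node 2 (.node 1
  (.leaf 66338) (.leaf 66434)) (.node 1 (.leaf 66445) (.leaf 66456))) (.node 2 (.node 1
  (.leaf 66564) (.leaf 66577)) (.node 1 (.leaf 67777) (.node 1 (.leaf 67778) (.leaf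
  67910)))))) (.node 9 (.node 4 (.node 2 (.node 1 (.leaf 67898) (.leaf 68016)) (.node 1
  (.leaf 68017) (.leaf 69230))) (.node 2 (.node 1 (.leaf 69349) (.leaf 69469)) (.node 1
  (.leaf 70790) (.node 1 (.leaf 81197) (.leaf 81207))))) (.node 5 (.node 2 (.node 1 (.leaf
  81329) (.leaf 81100)) (.node 1 (.leaf 82780) (.node 1 (.leaf 81328) (.leaf 81221))))
  (.node 2 (.node 1 (.leaf 82661) (.leaf 1119459)) (.node 1 (.leaf 1119579) (.node 1 (.leaf
  84113) (.leaf 84233))))))) (.node 19 (.node 9 (.node 4 (.node 2 (.node 1 (.leaf 1279191)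
  (.leaf 1279431)) (.node 1 (.leaf 1293592) (.leaf 82792))) (.node 2 (.node 1 (.leaf
  1439032) (.leaf 85553)) (.node 1 (.leaf 84231) (.node 1 (.leaf 1611953) (.leaf 95960)))))
  (.node 5 (.node 2 (.node 1 (.leaf 95971) (.leaf 95840)) (.node 1 (.leaf 95864) (.node 1
  (.leaf 95851) (.leaf 95972)))) (.node 2 (.node 1 (.leaf 1148622) (.leaf 1148742)) (.node 1
  (.leaf 96103) (.node 1 (.leaf 97543) (.leaf 98875)))))) (.node 9 (.node 4 (.node 2 (.node
  1 (.leaf 98995) (.leaf 1322756)) (.node 1 (.leaf 97436) (.leaf 1337154))) (.node 2 (.node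
  1 (.leaf 97554) (.leaf 1482596)) (.node 1 (.leaf 98874) (.node 1 (.leaf 100316) (.leaf
  100196))))) (.node 5 (.node 2 (.node 1 (.leaf 110723) (.leaf 110602)) (.node 1 (.leaf
  110855) (.node 1 (.leaf 110613) (.leaf 110615)))) (.node 2 (.node 1 (.leaf 1190854) (.leaf
  110747)) (.node 1 (.leaf 1192187) (.node 1 (.leaf 1206585) (.leaf 110865))))))))) (.node
  75 (.node 37 (.node 18 (.node 9 (.node 4 (.node 2 (.node 1 (.leaf 112079) (.leaf 113759))
  (.node 1 (.leaf 1366317) (.leaf 1366557))) (.node 2 (.node 1 (.leaf 1380718) (.leaf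
  112318)) (.node 1 (.leaf 1526158) (.node 1 (.leaf 115079) (.leaf 113757))))) (.node 4
  (.node 2 (.node 1 (.leaf 114958) (.leaf 118106)) (.node 1 (.leaf 118110) (.leaf 118107)))
  (.node 2 (.node 1 (.leaf 118468) (.leaf 118590)) (.node 1 (.leaf 118353) (.node 1 (.leaf
  118832) (.leaf 119073)))))) (.node 9 (.node 4 (.node 2 (.node 1 (.leaf 118474) (.leaf
  119194)) (.node 1 (.leaf 392189) (.leaf 118714))) (.node 2 (.node 1 (.leaf 406711) (.leaf
  118591)) (.node 1 (.leaf 421355) (.node 1 (.leaf 421715) (.leaf 118952))))) (.node 5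
  (.node 2 (.node 1 (.leaf 118955) (.leaf 119075)) (.node 1 (.leaf 119315) (.node 1 (.leaf
  132508) (.leaf 132999)))) (.node 2 (.node 1 (.leaf 132510) (.leaf 132530)) (.node 1 (.leaf
  132519) (.node 1 (.leaf 133003) (.leaf 407933))))))) (.node 19 (.node 9 (.node 4 (.node 2
  (.node 1 (.leaf 408413) (.leaf 133256)) (.node 1 (.leaf 133243) (.leaf 135681))) (.node 2
  (.node 1 (.leaf 136401) (.leaf 134362)) (.node 1 (.leaf 134333) (.node 1 (.leaf 625643)
  (.leaf 134843))))) (.node 5 (.node 2 (.node 1 (.leaf 139402) (.leaf 773123)) (.node 1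
  (.leaf 136403) (.node 1 (.leaf 139523) (.leaf 147274)))) (.node 2 (.node 1 (.leaf 147276)
  (.leaf 148125)) (.node 1 (.leaf 147156) (.node 1 (.leaf 147165) (.leaf 392921)))))) (.node
  9 (.node 4 (.node 2 (.node 1 (.leaf 147292) (.leaf 393772)) (.node 1 (.leaf 494579) (.leaf
  148139))) (.node 2 (.node 1 (.leaf 148398) (.leaf 150318)) (.node 1 (.leaf 596719) (.node
  1 (.leaf 597559) (.leaf 149480))))) (.node 5 (.node 2 (.node 1 (.leaf 151160) (.leaf
  153440)) (.node 1 (.leaf 150319) (.node 1 (.leaf 151159) (.leaf 153560)))) (.node 2 (.node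
  1 (.leaf 162759) (.leaf 163132)) (.node 1 (.leaf 162770) (.node 1 (.leaf 162772) (.leaf
  162798)))))))) (.node 37 (.node 18 (.node 9 (.node 4 (.node 2 (.node 1 (.leaf 163162)
  (.leaf 567905)) (.node 1 (.leaf 569482) (.leaf 164493))) (.node 2 (.node 1 (.leaf 168333)
  (.leaf 756691)) (.node 1 (.leaf 164731) (.node 1 (.leaf 167864) (.leaf 169664))))) (.node
  4 (.node 2 (.node 1 (.leaf 945947) (.leaf 947027)) (.node 1 (.leaf 167851) (.leaf
  168347))) (.node 2 (.node 1 (.leaf 169427) (.leaf 170987)) (.node 1 (.leaf 176673) (.node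
  1 (.leaf 176682) (.leaf 175833)))))) (.node 9 (.node 4 (.node 2 (.node 1 (.leaf 175848)
  (.leaf 175842)) (.node 1 (.leaf 464807) (.leaf 465895))) (.node 2 (.node 1 (.leaf 466495)
  (.leaf 176818)) (.node 1 (.leaf 480898) (.node 1 (.leaf 178635) (.leaf 179835))))) (.node
  5 (.node 2 (.node 1 (.leaf 177916) (.leaf 179476)) (.node 1 (.leaf 683477) (.node 1 (.leaf
  683837) (.leaf 181876)))) (.node 2 (.node 1 (.leaf 801197) (.leaf 179837)) (.node 1 (.leaf
  181997) (.node 1 (.leaf 191682) (.leaf 192296))))))) (.node 19 (.node 9 (.node 4 (.node 2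
  (.node 1 (.leaf 191702) (.leaf 194001)) (.node 1 (.leaf 191721) (.leaf 192316))) (.node 2
  (.node 1 (.leaf 611587) (.leaf 612916)) (.node 1 (.leaf 194727) (.node 1 (.leaf 196407)
  (.leaf 814535))))) (.node 5 (.node 2 (.node 1 (.leaf 816215) (.leaf 197026)) (.node 1
  (.leaf 197746) (.node 1 (.leaf 974021) (.leaf 976301)))) (.node 2 (.node 1 (.leaf 196421)
  (.leaf 1177906)) (.node 1 (.leaf 199426) (.node 1 (.leaf 1380226) (.leaf 207049))))))
  (.node 9 (.node 4 (.node 2 (.node 1 (.leaf 207058) (.leaf 206209)) (.node 1 (.leaf 208635)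
  (.leaf 206235))) (.node 2 (.node 1 (.leaf 207080) (.leaf 655031)) (.node 1 (.leaf 656600)
  (.node 1 (.leaf 207570) (.leaf 211290))))) (.node 5 (.node 2 (.node 1 (.leaf 843809)
  (.leaf 208649)) (.node 1 (.leaf 210700) (.node 1 (.leaf 212500) (.leaf 1032103)))) (.node
  2 (.node 1 (.leaf 1033183) (.leaf 1090780)) (.node 1 (.leaf 211303) (.node 1 (.leaf
  1293703) (.leaf 213703)))))))))) (.node 150 (.node 75 (.node 37 (.node 18 (.node 9 (.node
  4 (.node 2 (.node 1 (.leaf 223382) (.leaf 223410)) (.node 1 (.leaf 223527) (.leaf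
  226540))) (.node 2 (.node 1 (.leaf 226900) (.leaf 223413)) (.node 1 (.leaf 226904) (.node
  1 (.leaf 889664) (.leaf 223546))))) (.node 4 (.node 2 (.node 1 (.leaf 227266) (.leaf
  228113)) (.node 1 (.leaf 228833) (.leaf 1308115))) (.node 2 (.node 1 (.leaf 1308595)
  (.leaf 1351799)) (.node 1 (.leaf 1352039) (.node 1 (.leaf 1453675) (.leaf 1511519))))))
  (.node 9 (.node 4 (.node 2 (.node 1 (.leaf 1540079) (.leaf 1641119)) (.node 1 (.leaf
  233911) (.leaf 233920))) (.node 2 (.node 1 (.leaf 233926) (.leaf 235251)) (.node 1 (.leaf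
  235971) (.node 1 (.leaf 234164) (.leaf 235254))))) (.node 5 (.node 2 (.node 1 (.leaf
  235734) (.leaf 235737)) (.node 1 (.leaf 235977) (.node 1 (.leaf 236592) (.leaf 235272))))
  (.node 2 (.node 1 (.leaf 236953) (.leaf 237313)) (.node 1 (.leaf 236594) (.node 1 (.leaf
  235994) (.leaf 743114))))))) (.node 19 (.node 9 (.node 4 (.node 2 (.node 1 (.leaf 786313)
  (.leaf 239234)) (.node 1 (.leaf 1045634) (.leaf 249653))) (.node 2 (.node 1 (.leaf 249654)
  (.leaf 249663)) (.node 1 (.leaf 249672) (.node 1 (.leaf 583632) (.leaf 250013))))) (.node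
  5 (.node 2 (.node 1 (.leaf 251348) (.leaf 250028)) (.node 1 (.leaf 252454) (.node 1 (.leaf
  251254) (.leaf 251365)))) (.node 2 (.node 1 (.leaf 253525) (.leaf 915938)) (.node 1 (.leaf
  252458) (.node 1 (.leaf 253065) (.leaf 255105)))))) (.node 9 (.node 4 (.node 2 (.node 1
  (.leaf 1047098) (.leaf 256185)) (.node 1 (.leaf 255098) (.leaf 256178))) (.node 2 (.node 1
  (.leaf 264771) (.leaf 264166)) (.node 1 (.leaf 265384) (.node 1 (.leaf 264179) (.leaf
  264184))))) (.node 5 (.node 2 (.node 1 (.leaf 265394) (.leaf 264789)) (.node 1 (.leaf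
  264794) (.node 1 (.leaf 265404) (.leaf 743364)))) (.node 2 (.node 1 (.leaf 267572) (.leaf
  266372)) (.node 1 (.leaf 266982) (.node 1 (.leaf 266964) (.leaf 268177)))))))) (.node 37
  (.node 18 (.node 9 (.node 4 (.node 2 (.node 1 (.leaf 267577) (.leaf 1075777)) (.node 1
  (.leaf 270342) (.leaf 269377))) (.node 2 (.node 1 (.leaf 270942) (.leaf 281224)) (.node 1
  (.leaf 914964) (.node 1 (.leaf 281254) (.leaf 917378))))) (.node 4 (.node 2 (.node 1
  (.leaf 281258) (.leaf 281345)) (.node 1 (.leaf 281364) (.leaf 281382))) (.node 2 (.node 1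
  (.leaf 281491) (.leaf 281494)) (.node 1 (.leaf 283778) (.node 1 (.leaf 283789) (.leaf
  284622)))))) (.node 9 (.node 4 (.node 2 (.node 1 (.leaf 284627) (.leaf 284978)) (.node 1
  (.leaf 284997) (.leaf 285469))) (.node 2 (.node 1 (.leaf 285949) (.leaf 286557)) (.node 1
  (.leaf 286797) (.node 1 (.leaf 293335) (.leaf 293337))))) (.node 5 (.node 2 (.node 1
  (.leaf 293346) (.leaf 294913)) (.node 1 (.leaf 295993) (.node 1 (.leaf 293695) (.leaf
  294910)))) (.node 2 (.node 1 (.leaf 293710) (.leaf 296008)) (.node 1 (.leaf 294688) (.node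
  1 (.leaf 294926) (.leaf 829646))))))) (.node 19 (.node 9 (.node 4 (.node 2 (.node 1 (.leaf
  959256) (.leaf 296016)) (.node 1 (.leaf 296499) (.leaf 298419))) (.node 2 (.node 1 (.leaf
  1061616) (.leaf 298659)) (.node 1 (.leaf 298416) (.node 1 (.leaf 299619) (.leaf
  310388))))) (.node 5 (.node 2 (.node 1 (.leaf 310408) (.leaf 310405)) (.node 1 (.leaf
  960696) (.node 1 (.leaf 310416) (.leaf 310655)))) (.node 2 (.node 1 (.leaf 310528) (.leaf
  310535)) (.node 1 (.leaf 312705) (.node 1 (.leaf 310665) (.leaf 1235630)))))) (.node 9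
  (.node 4 (.node 2 (.node 1 (.leaf 1236710) (.leaf 314031)) (.node 1 (.leaf 313071) (.leaf
  313918))) (.node 2 (.node 1 (.leaf 315118) (.leaf 314030)) (.node 1 (.leaf 315838) (.node
  1 (.leaf 315110) (.leaf 315711))))) (.node 5 (.node 2 (.node 1 (.leaf 325150) (.leaf
  325166)) (.node 1 (.leaf 325172) (.node 1 (.leaf 1004017) (.leaf 325177)))) (.node 2
  (.node 1 (.leaf 325271) (.leaf 327219)) (.node 1 (.leaf 325299) (.node 1 (.leaf 325409)
  (.leaf 325412))))))))) (.node 75 (.node 37 (.node 18 (.node 9 (.node 4 (.node 2 (.node 1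
  (.leaf 1250148) (.leaf 327228)) (.node 1 (.leaf 328792) (.leaf 327592))) (.node 2 (.node 1
  (.leaf 328554) (.leaf 327954)) (.node 1 (.leaf 328548) (.node 1 (.leaf 328788) (.leaf
  330354))))) (.node 4 (.node 2 (.node 1 (.leaf 329874) (.leaf 1568390)) (.node 1 (.leaf
  1568394) (.leaf 344270))) (.node 2 (.node 1 (.leaf 344271) (.leaf 344274)) (.node 1 (.leaf
  1582917) (.node 1 (.leaf 344394) (.leaf 1583637)))))) (.node 9 (.node 4 (.node 2 (.node 1
  (.leaf 344511) (.leaf 344517)) (.node 1 (.leaf 344632) (.leaf 344638))) (.node 2 (.node 1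
  (.leaf 344755) (.leaf 344754)) (.node 1 (.leaf 345119) (.node 1 (.leaf 345479) (.leaf
  344996))))) (.node 5 (.node 2 (.node 1 (.leaf 345239) (.leaf 345237)) (.node 1 (.leaf
  345358) (.node 1 (.leaf 348630) (.leaf 348876)))) (.node 2 (.node 1 (.leaf 392199) (.leaf
  348879)) (.node 1 (.leaf 349959) (.node 1 (.leaf 363153) (.leaf 435882))))))) (.node 19
  (.node 9 (.node 4 (.node 2 (.node 1 (.leaf 436482) (.leaf 364482)) (.node 1 (.leaf 479325)
  (.leaf 378405))) (.node 2 (.node 1 (.leaf 379849) (.leaf 421721)) (.node 1 (.leaf 393532)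
  (.node 1 (.leaf 421360) (.leaf 406963))))) (.node 5 (.node 2 (.node 1 (.leaf 406960)
  (.leaf 408053)) (.node 1 (.leaf 421846) (.node 1 (.leaf 422566) (.leaf 423171)))) (.node 2
  (.node 1 (.leaf 437096) (.leaf 450644)) (.node 1 (.leaf 451254) (.node 1 (.leaf 465047)
  (.leaf 509327)))))) (.node 9 (.node 4 (.node 2 (.node 1 (.leaf 639295) (.leaf 480658))
  (.node 1 (.leaf 595979) (.leaf 509337))) (.node 2 (.node 1 (.leaf 524358) (.leaf 538881))
  (.node 1 (.leaf 553035) (.node 1 (.leaf 568025) (.leaf 742032))))) (.node 5 (.node 2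
  (.node 1 (.leaf 598159) (.leaf 800116)) (.node 1 (.leaf 627443) (.node 1 (.leaf 785593)
  (.leaf 858200)))) (.node 2 (.node 1 (.leaf 669314) (.leaf 685277)) (.node 1 (.leaf 698727)
  (.node 1 (.leaf 700287) (.leaf 1089207)))))))) (.node 37 (.node 18 (.node 9 (.node 4
  (.node 2 (.node 1 (.leaf 713010) (.leaf 715050)) (.node 1 (.leaf 1132890) (.leaf 727413)))
  (.node 2 (.node 1 (.leaf 729813) (.leaf 1176333)) (.node 1 (.leaf 742044) (.node 1 (.leaf
  743124) (.leaf 1045764))))) (.node 4 (.node 2 (.node 1 (.leaf 756545) (.leaf 756559))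
  (.node 1 (.leaf 758371) (.leaf 770854))) (.node 2 (.node 1 (.leaf 771094) (.leaf 773254))
  (.node 1 (.leaf 785605) (.node 1 (.leaf 786445) (.leaf 1045645)))))) (.node 9 (.node 4
  (.node 2 (.node 1 (.leaf 800008) (.leaf 800128)) (.node 1 (.leaf 801328) (.leaf 973055)))
  (.node 2 (.node 1 (.leaf 989255) (.leaf 816455)) (.node 1 (.leaf 829166) (.node 1 (.leaf
  829766) (.leaf 1060166))))) (.node 5 (.node 2 (.node 1 (.leaf 1016609) (.leaf 1017329))
  (.node 1 (.leaf 844529) (.node 1 (.leaf 857972) (.leaf 858212)))) (.node 2 (.node 1 (.leaf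
  859172) (.leaf 1090540)) (.node 1 (.leaf 1134104) (.node 1 (.leaf 1177666) (.leaf
  915924))))))) (.node 19 (.node 9 (.node 4 (.node 2 (.node 1 (.leaf 931182) (.leaf 947387))
  (.node 1 (.leaf 1061496) (.leaf 975461))) (.node 2 (.node 1 (.leaf 989265) (.leaf
  1076017)) (.node 1 (.leaf 1017339) (.node 1 (.leaf 1033543) (.leaf 1221349))))) (.node 5
  (.node 2 (.node 1 (.leaf 1235870) (.leaf 1250028)) (.node 1 (.leaf 1467233) (.node 1
  (.leaf 1394391) (.leaf 1294072)))) (.node 2 (.node 1 (.leaf 1452475) (.leaf 1323356))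
  (.node 1 (.leaf 1409154) (.node 1 (.leaf 1352159) (.leaf 1365465)))))) (.node 9 (.node 4
  (.node 2 (.node 1 (.leaf 1380238) (.leaf 1395471)) (.node 1 (.leaf 1395470) (.leaf
  1409149))) (.node 2 (.node 1 (.leaf 1409869) (.leaf 1423910)) (.node 1 (.leaf 1424390)
  (.node 1 (.leaf 1438671) (.leaf 1496755))))) (.node 5 (.node 2 (.node 1 (.leaf 1626475)
  (.leaf 1468078)) (.node 1 (.leaf 1467838) (.node 1 (.leaf 1481994) (.leaf 1496754))))
  (.node 2 (.node 1 (.leaf 1554839) (.leaf 1511639)) (.node 1 (.leaf 1525317) (.node 1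
  (.leaf 1641479) (.leaf 1554837)))))))))))

def path600 : List ℕ := [82, 533, 532, 561, 83, 84, 81, 80]

def pts600 : List Q := [⟨⟨-240906,-10767⟩,⟨9353,707⟩,⟨-8910,8910⟩,⟨707,0⟩⟩,
  ⟨⟨120453,-251673⟩,⟨89655,-39444⟩,⟨-8910,8910⟩,⟨201462,-120453⟩⟩,
  ⟨⟨147456,-278676⟩,⟨278676,-147456⟩,⟨-8910,8910⟩,⟨-14562,14562⟩⟩,
  ⟨⟨125307,-256527⟩,⟨123633,-58860⟩,⟨-8910,8910⟩,⟨-191754,125307⟩⟩,
  ⟨⟨-250614,-5913⟩,⟨40095,-17091⟩,⟨-8910,8910⟩,⟨17091,0⟩⟩,
  ⟨⟨-260010,-1215⟩,⟨33048,-12393⟩,⟨-27702,20655⟩,⟨5346,7047⟩⟩,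
  ⟨⟨-243486,-9477⟩,⟨12393,0⟩,⟨-15309,12393⟩,⟨-27702,27702⟩⟩,
  ⟨⟨-223074,-19683⟩,⟨-13122,15309⟩,⟨0,2187⟩,⟨13122,2187⟩⟩]

def D600 : Z := ⟨131220, 0⟩

def ct : Tr ℕ :=
  (.node 300 (.node 150 (.node 75 (.node 37 (.node 18 (.node 9 (.node 4 (.node 2 (.node 1
  (.leaf 348626) (.leaf 348637)) (.node 1 (.leaf 348756) (.leaf 349970))) (.node 2 (.node 1
  (.leaf 350090) (.leaf 363158)) (.node 1 (.leaf 364488) (.node 1 (.leaf 364608) (.leaf
  378769))))) (.node 4 (.node 2 (.node 1 (.leaf 379009) (.leaf 524341)) (.node 1 (.leaf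
  524461) (.leaf 538622))) (.node 2 (.node 1 (.leaf 538862) (.leaf 553020)) (.node 1 (.leaf
  553140) (.node 1 (.leaf 698462) (.leaf 712861)))))) (.node 9 (.node 4 (.node 2 (.node 1
  (.leaf 727382) (.leaf 871382)) (.node 1 (.leaf 2120189) (.leaf 2120199))) (.node 2 (.node
  1 (.leaf 2120321) (.leaf 2121532)) (.node 1 (.leaf 2121772) (.node 1 (.leaf 2134720)
  (.leaf 2135933))))) (.node 5 (.node 2 (.node 1 (.leaf 2136053) (.leaf 2150451)) (.node 1
  (.leaf 2150571) (.node 1 (.leaf 2295905) (.leaf 2296025)))) (.node 2 (.node 1 (.leaf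
  2310183) (.leaf 2310423)) (.node 1 (.leaf 2324584) (.node 1 (.leaf 2324704) (.leaf
  2470024))))))) (.node 19 (.node 9 (.node 4 (.node 2 (.node 1 (.leaf 2484545) (.leaf
  2498825)) (.node 1 (.leaf 2642945) (.leaf 3891752))) (.node 2 (.node 1 (.leaf 3891763)
  (.leaf 3891882)) (.node 1 (.leaf 3893096) (.node 1 (.leaf 3893216) (.leaf 3906284)))))
  (.node 5 (.node 2 (.node 1 (.leaf 3907614) (.leaf 3907734)) (.node 1 (.leaf 3921895)
  (.node 1 (.leaf 3922135) (.leaf 4067467)))) (.node 2 (.node 1 (.leaf 4067587) (.leaf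
  4081748)) (.node 1 (.leaf 4081988) (.node 1 (.leaf 4096146) (.leaf 4096266)))))) (.node 9
  (.node 4 (.node 2 (.node 1 (.leaf 4241588) (.leaf 4255987)) (.node 1 (.leaf 4270508)
  (.leaf 4414508))) (.node 2 (.node 1 (.leaf 5663315) (.leaf 5663325)) (.node 1 (.leaf
  5663447) (.node 1 (.leaf 5664658) (.leaf 5664898))))) (.node 5 (.node 2 (.node 1 (.leaf
  5677846) (.leaf 5679059)) (.node 1 (.leaf 5679179) (.node 1 (.leaf 5693577) (.leaf
  5693697)))) (.node 2 (.node 1 (.leaf 5839031) (.leaf 5839151)) (.node 1 (.leaf 5853309)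
  (.node 1 (.leaf 5853549) (.leaf 5867710)))))))) (.node 37 (.node 18 (.node 9 (.node 4
  (.node 2 (.node 1 (.leaf 5867830) (.leaf 6013150)) (.node 1 (.leaf 6027671) (.leaf
  6041951))) (.node 2 (.node 1 (.leaf 6186071) (.leaf 7957634)) (.node 1 (.leaf 7957645)
  (.node 1 (.leaf 7957764) (.leaf 7958978))))) (.node 4 (.node 2 (.node 1 (.leaf 7959098)
  (.leaf 7972166)) (.node 1 (.leaf 7973496) (.leaf 7973616))) (.node 2 (.node 1 (.leaf
  7987777) (.leaf 7988017)) (.node 1 (.leaf 8133349) (.node 1 (.leaf 8133469) (.leaf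
  8147630)))))) (.node 9 (.node 4 (.node 2 (.node 1 (.leaf 8147870) (.leaf 8162028)) (.node
  1 (.leaf 8162148) (.leaf 8307470))) (.node 2 (.node 1 (.leaf 8321869) (.leaf 8336390))
  (.node 1 (.leaf 8480390) (.node 1 (.leaf 9729197) (.leaf 9729207))))) (.node 5 (.node 2
  (.node 1 (.leaf 9729329) (.leaf 9730540)) (.node 1 (.leaf 9730780) (.node 1 (.leaf
  9743728) (.leaf 9744941)))) (.node 2 (.node 1 (.leaf 9745061) (.leaf 9759459)) (.node 1
  (.leaf 9759579) (.node 1 (.leaf 9904913) (.leaf 9905033))))))) (.node 19 (.node 9 (.node 4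
  (.node 2 (.node 1 (.leaf 9919191) (.leaf 9919431)) (.node 1 (.leaf 9933592) (.leaf
  9933712))) (.node 2 (.node 1 (.leaf 10079032) (.leaf 10093553)) (.node 1 (.leaf 10107833)
  (.node 1 (.leaf 10251953) (.leaf 11500760))))) (.node 5 (.node 2 (.node 1 (.leaf 11500771)
  (.leaf 11500890)) (.node 1 (.leaf 11502104) (.node 1 (.leaf 11502224) (.leaf 11515292))))
  (.node 2 (.node 1 (.leaf 11516622) (.leaf 11516742)) (.node 1 (.leaf 11530903) (.node 1
  (.leaf 11531143) (.leaf 11676475)))))) (.node 9 (.node 4 (.node 2 (.node 1 (.leaf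
  11676595) (.leaf 11690756)) (.node 1 (.leaf 11690996) (.leaf 11705154))) (.node 2 (.node 1
  (.leaf 11705274) (.leaf 11850596)) (.node 1 (.leaf 11864995) (.node 1 (.leaf 11879516)
  (.leaf 12023516))))) (.node 5 (.node 2 (.node 1 (.leaf 13272323) (.leaf 13272333)) (.node
  1 (.leaf 13272455) (.node 1 (.leaf 13273666) (.leaf 13273906)))) (.node 2 (.node 1 (.leaf
  13286854) (.leaf 13288067)) (.node 1 (.leaf 13288187) (.node 1 (.leaf 13302585) (.leaf
  13302705))))))))) (.node 75 (.node 37 (.node 18 (.node 9 (.node 4 (.node 2 (.node 1 (.leaf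
  13448039) (.leaf 13448159)) (.node 1 (.leaf 13462317) (.leaf 13462557))) (.node 2 (.node 1
  (.leaf 13476718) (.leaf 13476838)) (.node 1 (.leaf 13622158) (.node 1 (.leaf 13636679)
  (.leaf 13650959))))) (.node 4 (.node 2 (.node 1 (.leaf 13795079) (.leaf 14172626)) (.node
  1 (.leaf 14172630) (.leaf 14172747))) (.node 2 (.node 1 (.leaf 14172868) (.leaf 14172990))
  (.node 1 (.leaf 14187153) (.node 1 (.leaf 14187632) (.leaf 14187873)))))) (.node 9 (.node
  4 (.node 2 (.node 1 (.leaf 14201674) (.leaf 14202394)) (.node 1 (.leaf 14216189) (.leaf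
  14216314))) (.node 2 (.node 1 (.leaf 14230711) (.leaf 14230831)) (.node 1 (.leaf 14245355)
  (.node 1 (.leaf 14245715) (.leaf 14259752))))) (.node 5 (.node 2 (.node 1 (.leaf 14274275)
  (.leaf 14288795)) (.node 1 (.leaf 14303315) (.node 1 (.leaf 15900990) (.leaf 15900999))))
  (.node 2 (.node 1 (.leaf 15901237) (.leaf 15902090)) (.node 1 (.leaf 15902330) (.node 1
  (.leaf 15958843) (.leaf 15959933))))))) (.node 19 (.node 9 (.node 4 (.node 2 (.node 1
  (.leaf 15960413) (.leaf 15988496)) (.node 1 (.leaf 15989216) (.leaf 16090881))) (.node 2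
  (.node 1 (.leaf 16091601) (.leaf 16119682)) (.node 1 (.leaf 16120042) (.node 1 (.leaf
  16177643) (.leaf 16178003))))) (.node 5 (.node 2 (.node 1 (.leaf 16281802) (.leaf
  16325123)) (.node 1 (.leaf 16368203) (.node 1 (.leaf 16728323) (.leaf 17657674)))) (.node
  2 (.node 1 (.leaf 17657676) (.leaf 17658525)) (.node 1 (.leaf 17658769) (.node 1 (.leaf
  17659849) (.leaf 17672921)))))) (.node 9 (.node 4 (.node 2 (.node 1 (.leaf 17673172)
  (.leaf 17673772)) (.node 1 (.leaf 17774579) (.leaf 17775059))) (.node 2 (.node 1 (.leaf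
  17804358) (.leaf 17804718)) (.node 1 (.leaf 17876719) (.node 1 (.leaf 17877559) (.leaf
  17933960))))) (.node 5 (.node 2 (.node 1 (.leaf 17935160) (.leaf 17995040)) (.node 1
  (.leaf 18038239) (.node 1 (.leaf 18139160) (.leaf 18412760)))) (.node 2 (.node 1 (.leaf
  19531130) (.leaf 19531132)) (.node 1 (.leaf 19532461) (.node 1 (.leaf 19532718) (.leaf
  19533798)))))))) (.node 37 (.node 18 (.node 9 (.node 4 (.node 2 (.node 1 (.leaf 19575682)
  (.leaf 19575905)) (.node 1 (.leaf 19577482) (.leaf 19735413))) (.node 2 (.node 1 (.leaf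
  19737933) (.leaf 19764691)) (.node 1 (.leaf 19766251) (.node 1 (.leaf 19895864) (.leaf
  19897664))))) (.node 4 (.node 2 (.node 1 (.leaf 19953947) (.leaf 19955027)) (.node 1
  (.leaf 20142224) (.leaf 20200067))) (.node 2 (.node 1 (.leaf 20330987) (.leaf 20359787))
  (.node 1 (.leaf 21099873) (.node 1 (.leaf 21099882) (.leaf 21099998)))))) (.node 9 (.node
  4 (.node 2 (.node 1 (.leaf 21100608) (.leaf 21101088)) (.node 1 (.leaf 21200807) (.leaf
  21201895))) (.node 2 (.node 1 (.leaf 21202495) (.leaf 21215818)) (.node 1 (.leaf 21216898)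
  (.node 1 (.leaf 21289035) (.leaf 21290235))))) (.node 5 (.node 2 (.node 1 (.leaf 21346636)
  (.leaf 21347476)) (.node 1 (.leaf 21419477) (.node 1 (.leaf 21419837) (.leaf 21436276))))
  (.node 2 (.node 1 (.leaf 21537197) (.leaf 21580277)) (.node 1 (.leaf 21825197) (.node 1
  (.leaf 23001888) (.leaf 23001896))))))) (.node 19 (.node 9 (.node 4 (.node 2 (.node 1
  (.leaf 23002622) (.leaf 23003601)) (.node 1 (.leaf 23004321) (.leaf 23074636))) (.node 2
  (.node 1 (.leaf 23075587) (.leaf 23076916)) (.node 1 (.leaf 23162727) (.node 1 (.leaf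
  23164407) (.leaf 23278535))))) (.node 5 (.node 2 (.node 1 (.leaf 23280215) (.leaf
  23366626)) (.node 1 (.leaf 23367346) (.node 1 (.leaf 23438021) (.leaf 23440301)))) (.node
  2 (.node 1 (.leaf 23568941) (.leaf 23641906)) (.node 1 (.leaf 23729026) (.node 1 (.leaf
  23844226) (.leaf 24744649)))))) (.node 9 (.node 4 (.node 2 (.node 1 (.leaf 24744658)
  (.leaf 24745140)) (.node 1 (.leaf 24746235) (.leaf 24746475))) (.node 2 (.node 1 (.leaf
  24845960) (.leaf 24847031)) (.node 1 (.leaf 24848600) (.node 1 (.leaf 24904890) (.leaf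
  24907290))))) (.node 5 (.node 2 (.node 1 (.leaf 25035809) (.leaf 25036289)) (.node 1
  (.leaf 25065100) (.node 1 (.leaf 25066900) (.leaf 25224103)))) (.node 2 (.node 1 (.leaf
  25225183) (.leaf 25282780)) (.node 1 (.leaf 25354903) (.node 1 (.leaf 25485703) (.leaf
  25500103)))))))))) (.node 150 (.node 75 (.node 37 (.node 18 (.node 9 (.node 4 (.node 2
  (.node 1 (.leaf 26791382) (.leaf 26791410)) (.node 1 (.leaf 26791527) (.leaf 26794540)))
  (.node 2 (.node 1 (.leaf 26794900) (.leaf 26805933)) (.node 1 (.leaf 26809304) (.node 1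
  (.leaf 26809664) (.leaf 26823346))))) (.node 4 (.node 2 (.node 1 (.leaf 26824066) (.leaf
  27184913)) (.node 1 (.leaf 27185633) (.leaf 27228115))) (.node 2 (.node 1 (.leaf 27228595)
  (.leaf 27271799)) (.node 1 (.leaf 27272039) (.node 1 (.leaf 27373675) (.leaf
  27431519)))))) (.node 9 (.node 4 (.node 2 (.node 1 (.leaf 27460079) (.leaf 27561119))
  (.node 1 (.leaf 28069355) (.leaf 28069360))) (.node 2 (.node 1 (.leaf 28069846) (.leaf
  28070451)) (.node 1 (.leaf 28071171) (.node 1 (.leaf 28098644) (.leaf 28099254))))) (.node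
  5 (.node 2 (.node 1 (.leaf 28099734) (.leaf 28157337)) (.node 1 (.leaf 28157577) (.node 1
  (.leaf 28230192) (.leaf 28230552)))) (.node 2 (.node 1 (.leaf 28288153) (.leaf 28288513))
  (.node 1 (.leaf 28316594) (.node 1 (.leaf 28317314) (.leaf 28391114))))))) (.node 19
  (.node 9 (.node 4 (.node 2 (.node 1 (.leaf 28434313) (.leaf 28477634)) (.node 1 (.leaf
  28693634) (.leaf 29957213))) (.node 2 (.node 1 (.leaf 29957214) (.leaf 29958423)) (.node 1
  (.leaf 29958552) (.node 1 (.leaf 29959632) (.leaf 30001643))))) (.node 5 (.node 2 (.node 1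
  (.leaf 30001748) (.leaf 30003443)) (.node 1 (.leaf 30146854) (.node 1 (.leaf 30149254)
  (.leaf 30161845)))) (.node 2 (.node 1 (.leaf 30162325) (.leaf 30291938)) (.node 1 (.leaf
  30294578) (.node 1 (.leaf 30365265) (.leaf 30365505)))))) (.node 9 (.node 4 (.node 2
  (.node 1 (.leaf 30423098) (.leaf 30582585)) (.node 1 (.leaf 30611865) (.leaf 30741465)))
  (.node 2 (.node 1 (.leaf 31699971) (.leaf 31699979)) (.node 1 (.leaf 31700584) (.node 1
  (.leaf 31701559) (.leaf 31702159))))) (.node 5 (.node 2 (.node 1 (.leaf 31772594) (.leaf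
  31773549)) (.node 1 (.leaf 31774754) (.node 1 (.leaf 31846164) (.leaf 31847364)))) (.node
  2 (.node 1 (.leaf 31961972) (.leaf 31963172)) (.node 1 (.leaf 32035182) (.node 1 (.leaf
  32035782) (.leaf 32106577)))))))) (.node 37 (.node 18 (.node 9 (.node 4 (.node 2 (.node 1
  (.leaf 32108737) (.leaf 32179777)) (.node 1 (.leaf 32252742) (.leaf 32325342))) (.node 2
  (.node 1 (.leaf 32440542) (.leaf 33746945)) (.node 1 (.leaf 33746964) (.node 1 (.leaf
  33747094) (.leaf 33749378))))) (.node 4 (.node 2 (.node 1 (.leaf 33750578) (.leaf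
  33761491)) (.node 1 (.leaf 33763782) (.leaf 33764622))) (.node 2 (.node 1 (.leaf 33779027)
  (.leaf 33779387)) (.node 1 (.leaf 34053469) (.node 1 (.leaf 34053949) (.leaf
  34154756)))))) (.node 9 (.node 4 (.node 2 (.node 1 (.leaf 34155356) (.leaf 34197477))
  (.node 1 (.leaf 34198557) (.leaf 34256397))) (.node 2 (.node 1 (.leaf 34313996) (.leaf
  34386837)) (.node 1 (.leaf 34415637) (.node 1 (.leaf 35199295) (.leaf 35199297))))) (.node
  5 (.node 2 (.node 1 (.leaf 35200266) (.leaf 35200513)) (.node 1 (.leaf 35201593) (.node 1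
  (.leaf 35243477) (.leaf 35243710)))) (.node 2 (.node 1 (.leaf 35245277) (.leaf 35360008))
  (.node 1 (.leaf 35361328) (.node 1 (.leaf 35389286) (.leaf 35389646))))))) (.node 19
  (.node 9 (.node 4 (.node 2 (.node 1 (.leaf 35519256) (.leaf 35521056)) (.node 1 (.leaf
  35577339) (.leaf 35578419))) (.node 2 (.node 1 (.leaf 35621616) (.leaf 35679459)) (.node 1
  (.leaf 35810019) (.node 1 (.leaf 35838819) (.leaf 37246508))))) (.node 5 (.node 2 (.node 1
  (.leaf 37246528) (.leaf 37246645)) (.node 1 (.leaf 37248696) (.node 1 (.leaf 37249056)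
  (.leaf 37261055)))) (.node 2 (.node 1 (.leaf 37263461) (.leaf 37264301)) (.node 1 (.leaf
  37277505) (.node 1 (.leaf 37278705) (.leaf 37523630)))))) (.node 9 (.node 4 (.node 2
  (.node 1 (.leaf 37524710) (.leaf 37566831)) (.node 1 (.leaf 37567431) (.leaf 37668238)))
  (.node 2 (.node 1 (.leaf 37668718) (.leaf 37683711)) (.node 1 (.leaf 37755838) (.node 1
  (.leaf 37813318) (.leaf 37885438))))) (.node 5 (.node 2 (.node 1 (.leaf 39018071) (.leaf
  39018086)) (.node 1 (.leaf 39018212) (.node 1 (.leaf 39020017) (.leaf 39020737)))) (.node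
  2 (.node 1 (.leaf 39032609) (.leaf 39034419)) (.node 1 (.leaf 39034779) (.node 1 (.leaf
  39049183) (.leaf 39049543))))))))) (.node 75 (.node 37 (.node 18 (.node 9 (.node 4 (.node
  2 (.node 1 (.leaf 39266148) (.leaf 39266388)) (.node 1 (.leaf 39309592) (.leaf 39310072)))
  (.node 2 (.node 1 (.leaf 39352554) (.leaf 39353274)) (.node 1 (.leaf 39425874) (.node 1
  (.leaf 39454672) (.leaf 39512754))))) (.node 4 (.node 2 (.node 1 (.leaf 39584754) (.leaf
  41312390)) (.node 1 (.leaf 41312394) (.leaf 41312511))) (.node 2 (.node 1 (.leaf 41312632)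
  (.leaf 41312754)) (.node 1 (.leaf 41326917) (.node 1 (.leaf 41327396) (.leaf
  41327637)))))) (.node 9 (.node 4 (.node 2 (.node 1 (.leaf 41341438) (.leaf 41342158))
  (.node 1 (.leaf 41355953) (.leaf 41356078))) (.node 2 (.node 1 (.leaf 41370475) (.leaf
  41370595)) (.node 1 (.leaf 41385119) (.node 1 (.leaf 41385479) (.leaf 41399516))))) (.node
  5 (.node 2 (.node 1 (.leaf 41414039) (.leaf 41428559)) (.node 1 (.leaf 41443079) (.node 1
  (.leaf 41835637) (.leaf 41849676)))) (.node 2 (.node 1 (.leaf 41864199) (.leaf 41865159))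
  (.node 1 (.leaf 41995130) (.node 1 (.leaf 43578398) (.leaf 43635882))))))) (.node 19
  (.node 9 (.node 4 (.node 2 (.node 1 (.leaf 43636482) (.leaf 43737888)) (.node 1 (.leaf
  45407325) (.leaf 45407805))) (.node 2 (.node 1 (.leaf 45480649) (.leaf 47077721)) (.node 1
  (.leaf 47179132) (.node 1 (.leaf 48805360) (.leaf 48819763))))) (.node 5 (.node 2 (.node 1
  (.leaf 48835243) (.leaf 48965213)) (.node 1 (.leaf 50605846) (.node 1 (.leaf 50606566)
  (.leaf 50707971)))) (.node 2 (.node 1 (.leaf 52377896) (.leaf 54033044)) (.node 1 (.leaf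
  54149214) (.node 1 (.leaf 55775447) (.leaf 55805327)))))) (.node 9 (.node 4 (.node 2
  (.node 1 (.leaf 55935295) (.leaf 57576658)) (.node 1 (.leaf 59347979) (.leaf 61119297)))
  (.node 2 (.node 1 (.leaf 62920998) (.leaf 64663521)) (.node 1 (.leaf 66362475) (.node 1
  (.leaf 68163082) (.leaf 69862032))))) (.node 5 (.node 2 (.node 1 (.leaf 71604559) (.leaf
  73376116)) (.node 1 (.leaf 75118643) (.node 1 (.leaf 76817593) (.leaf 78618200)))) (.node
  2 (.node 1 (.leaf 80317154) (.leaf 82059677)) (.node 1 (.leaf 83815527) (.node 1 (.leaf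
  83817087) (.leaf 84033207)))))))) (.node 37 (.node 18 (.node 9 (.node 4 (.node 2 (.node 1
  (.leaf 85543410) (.leaf 85559850)) (.node 1 (.leaf 85804890) (.leaf 87285933))) (.node 2
  (.node 1 (.leaf 87302613) (.leaf 87576333)) (.node 1 (.leaf 89042964) (.node 1 (.leaf
  89043924) (.leaf 89173764))))) (.node 4 (.node 2 (.node 1 (.leaf 90785491) (.leaf
  90787171)) (.node 1 (.leaf 90988771) (.leaf 92499094))) (.node 2 (.node 1 (.leaf 92529934)
  (.leaf 92774854)) (.node 1 (.leaf 94270645) (.node 1 (.leaf 94271245) (.leaf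
  94357645)))))) (.node 9 (.node 4 (.node 2 (.node 1 (.leaf 95998528) (.leaf 96014008))
  (.node 1 (.leaf 96143728) (.leaf 97741055))) (.node 2 (.node 1 (.leaf 97757255) (.leaf
  97944455)) (.node 1 (.leaf 99498086) (.node 1 (.leaf 99498566) (.leaf 99556166))))) (.node
  5 (.node 2 (.node 1 (.leaf 101240609) (.leaf 101241329)) (.node 1 (.leaf 101313329) (.node
  1 (.leaf 102954212) (.leaf 102984092)))) (.node 2 (.node 1 (.leaf 103099292) (.leaf
  104770540)) (.node 1 (.leaf 106542104) (.node 1 (.leaf 108313666) (.leaf 109910978)))))))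
  (.node 19 (.node 9 (.node 4 (.node 2 (.node 1 (.leaf 111740622) (.leaf 113512187)) (.node
  1 (.leaf 115109496) (.leaf 116881061))) (.node 2 (.node 1 (.leaf 118710705) (.leaf
  120308017)) (.node 1 (.leaf 122079579) (.node 1 (.leaf 123851143) (.leaf 146561149)))))
  (.node 5 (.node 2 (.node 1 (.leaf 148303910) (.leaf 150002388)) (.node 1 (.leaf 151803233)
  (.node 1 (.leaf 153458391) (.leaf 155244472)))) (.node 2 (.node 1 (.leaf 156972475) (.leaf
  158758556)) (.node 1 (.leaf 160385154) (.node 1 (.leaf 162214559) (.leaf 163855917))))))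
  (.node 9 (.node 4 (.node 2 (.node 1 (.leaf 165627238) (.leaf 167326671)) (.node 1 (.leaf
  167456511) (.leaf 169097994))) (.node 2 (.node 1 (.leaf 169184394) (.leaf 170869317))
  (.node 1 (.leaf 170926917) (.node 1 (.leaf 172640632) (.leaf 174296755))))) (.node 5
  (.node 2 (.node 1 (.leaf 174426475) (.leaf 176068078)) (.node 1 (.leaf 176140078) (.node 1
  (.leaf 177839396) (.leaf 179610595)))) (.node 2 (.node 1 (.leaf 181266839) (.leaf
  181382039)) (.node 1 (.leaf 183038158) (.node 1 (.leaf 184809479) (.leaf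
  186580559)))))))))))

theorem cl_eq : cl600 = (List.range 600).map ct.get := by decide +kernel

theorem ct_eq (k : Fin 600) : cl600.getD k 0 = ct.get k := by
  rw [cl_eq, List.getD_eq_getElem _ _ (by simp)]
  simp

def ca (k : ℕ) : Fin 120 := f120 (ct.get k / 1728000)
def cb (k : ℕ) : Fin 120 := f120 (ct.get k / 14400)
def cc (k : ℕ) : Fin 120 := f120 (ct.get k / 120)
def cd (k : ℕ) : Fin 120 := f120 (ct.get k)

def chkE (k : Fin 600) : Bool :=
  let a := ca k
  let b := cb k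
  let c := cc k
  let d := cd k
  decide (a < b) && (decide (b < c) && (decide (c < d) &&
  ((up a).elem b.val && ((up a).elem c.val && ((up a).elem d.val &&
  ((up b).elem c.val && ((up b).elem d.val && (up c).elem d.val)))))))

theorem chkE_all : ∀ k : Fin 600, chkE k = true := by decide +kernel

theorem codes_lt : ∀ k : Fin 600, ct.get k < 207360000 := by decide +kernel

def inc : ℕ → List ℕ → Bool
  | _, [] => true
  | a, b :: l => Nat.blt a b && inc b l

theorem inc_pairwise : ∀ (l : List ℕ) (a : ℕ), inc a l = true → (a :: l).Pairwise (· < ·) := by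
  intro l
  induction l with
  | nil => intro a _; simp
  | cons b l ih =>
    intro a h
    simp only [inc, Bool.and_eq_true, Nat.blt_eq] at h
    have h3 := ih b h.2
    refine List.pairwise_cons.2 ⟨?_, h3⟩
    intro x hx
    rcases List.mem_cons.1 hx with rfl | hx
    · exact h.1
    · exact h.1.trans ((List.pairwise_cons.1 h3).1 x hx)

theorem codes_nodup : cl600.Nodup := by
  have h : inc 0 cl600 = true := by decide +kernel
  have h2 := (List.pairwise_cons.1 (inc_pairwise _ _ h)).2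
  exact h2.imp (fun h => Nat.ne_of_lt h)

theorem codes_len : cl600.length = 600 := by decide +kernel

def cell (k : Fin 600) : Cell :=
  ⟨(ca k, cb k, cc k, cd k), by
    have h := chkE_all k
    simp only [chkE, Bool.and_eq_true, decide_eq_true_eq, List.elem_eq_mem] at h
    obtain ⟨h1, h2, h3, h4, h5, h6, h7, h8, h9⟩ := h
    exact ⟨⟨h1, h2, h3⟩, inner_of_up h1 h4, inner_of_up (h1.trans h2) h5,
      inner_of_up ((h1.trans h2).trans h3) h6, inner_of_up h2 h7, inner_of_up (h2.trans h3) h8,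
      inner_of_up h3 h9⟩⟩

def enum : List ℕ := (List.range 120).flatMap fun a => (up a).flatMap fun b =>
  ((up b).filter fun c => (up a).elem c).flatMap fun c =>
    ((up c).filter fun d => (up a).elem d && (up b).elem d).map fun d =>
      (((a * 120 + b) * 120 + c) * 120 + d)

theorem enum_eq : enum = cl600 := by decide +kernel

theorem cell_inj : Function.Injective cell := by
  intro k l h
  have h0 : (ca k, cb k, cc k, cd k) = (ca l, cb l, cc l, cd l) := congrArg Subtype.val h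
  simp only [Prod.mk.injEq, ca, cb, cc, cd, f120, Fin.mk.injEq] at h0
  obtain ⟨h1, h2, h3, h4⟩ := h0
  have hk := codes_lt k
  have hl := codes_lt l
  have h5 : cl600.getD k 0 = cl600.getD l 0 := by rw [ct_eq, ct_eq]; omega
  have hk' : (k : ℕ) < cl600.length := by rw [codes_len]; exact k.2
  have hl' : (l : ℕ) < cl600.length := by rw [codes_len]; exact l.2
  rw [List.getD_eq_getElem _ _ hk', List.getD_eq_getElem _ _ hl'] at h5
  exact Fin.ext ((List.Nodup.getElem_inj_iff codes_nodup).1 h5)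

theorem cell_surj : Function.Surjective cell := by
  rintro ⟨⟨a, b, c, d⟩, ⟨hab, hbc, hcd⟩, h1, h2, h3, h4, h5, h6⟩
  simp only at hab hbc hcd h1 h2 h3 h4 h5 h6
  have u1 := up_of_inner hab h1
  have u2 := up_of_inner (hab.trans hbc) h2
  have u3 := up_of_inner ((hab.trans hbc).trans hcd) h3
  have u4 := up_of_inner hbc h4
  have u5 := up_of_inner (hbc.trans hcd) h5
  have u6 := up_of_inner hcd h6
  have e2 : (((a : ℕ) * 120 + b) * 120 + c) * 120 + d ∈ cl600 := by
    rw [← enum_eq]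
    refine List.mem_flatMap.2 ⟨a, List.mem_range.2 a.2, List.mem_flatMap.2 ⟨b, u1,
      List.mem_flatMap.2 ⟨c, List.mem_filter.2 ⟨u4, by simpa using u2⟩,
        List.mem_map.2 ⟨d, List.mem_filter.2 ⟨u6, ?_⟩, rfl⟩⟩⟩⟩
    simp only [List.elem_eq_mem, Bool.and_eq_true, decide_eq_true_eq]
    exact ⟨u3, u5⟩
  · obtain ⟨k, hk, hk2⟩ := List.mem_iff_getElem.1 e2
    have hk' : k < 600 := by rw [← codes_len]; exact hk
    refine ⟨⟨k, hk'⟩, ?_⟩
    have h7 : ct.get k = (((a : ℕ) * 120 + b) * 120 + c) * 120 + d := by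
      have h8 := ct_eq ⟨k, hk'⟩
      simp only at h8
      rw [← h8, List.getD_eq_getElem _ _ hk]; exact hk2
    apply Subtype.ext
    change (ca k, cb k, cc k, cd k) = (a, b, c, d)
    have ha := a.2
    have hb := b.2
    have hcc := c.2
    have hd := d.2
    simp only [ca, cb, cc, cd, f120, h7]
    refine Prod.ext (Fin.ext ?_) (Prod.ext (Fin.ext ?_) (Prod.ext (Fin.ext ?_) (Fin.ext ?_))) <;>
      simp only <;> omega

noncomputable def ce : Fin 600 ≃ Cell := Equiv.ofBijective cell ⟨cell_inj, cell_surj⟩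

theorem ce_apply (k : Fin 600) : ce k = cell k := rfl

instance : Finite Cell := Finite.of_equiv _ ce

def qc (t : Cell) : Q := (((w0 t.1.1).add (w0 t.1.2.1)).add (w0 t.1.2.2.1)).add (w0 t.1.2.2.2)

def qk (k : ℕ) : Q := (((w0 (ca k)).add (w0 (cb k))).add (w0 (cc k))).add (w0 (cd k))

theorem qc_cell (k : Fin 600) : qc (cell k) = qk k := rfl

theorem N600_vec (t : Cell) : N600 t = (qc t).vec := by
  rw [N600, qc, Q.vec_add, Q.vec_add, Q.vec_add, N120, N120, N120, N120, q120_eq, q120_eq,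
    q120_eq, q120_eq]

theorem clq (t : Cell) : Clq t.1.1 t.1.2.1 t.1.2.2.1 t.1.2.2.2 := by
  obtain ⟨⟨a, b, c, d⟩, -, h1, h2, h3, h4, h5, h6⟩ := t
  exact ⟨h1, h2, h3, h4, h5, h6⟩

theorem N600_X (t : Cell) : N600 t = X t.1.1 t.1.2.1 t.1.2.2.1 t.1.2.2.2 := rfl

theorem memF {v : Fin 120} {t : Cell} (h : v = t.1.1 ∨ v = t.1.2.1 ∨ v = t.1.2.2.1 ∨ v = t.1.2.2.2) :
    N120 v ∈ Facet N600 (Z.mk 4 6).val t := by
  refine ⟨?_, fun s => ?_⟩
  · rw [real_inner_comm, N600_X]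
    rcases h with h | h | h | h
    · rw [h]; exact (clq t).eqa
    · rw [h]; exact (clq t).eqb
    · rw [h]; exact (clq t).eqc
    · rw [h]; exact (clq t).eqd
  · rw [real_inner_comm, N600_X]
    exact (clq s).le v

def f600 (n : ℕ) : Fin 600 := ⟨n % 600, Nat.mod_lt _ (by norm_num)⟩

def pr600 (k : Fin 600) : Fin 600 := f600 (par600.get k)

def memb (v : Fin 120) (k : ℕ) : Bool :=
  decide (v = ca k) || (decide (v = cb k) || (decide (v = cc k) || decide (v = cd k)))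

theorem memb_spec {v : Fin 120} {k : Fin 600} (h : memb v k = true) :
    N120 v ∈ Facet N600 (Z.mk 4 6).val (cell k) := by
  have h' : v = ca k ∨ v = cb k ∨ v = cc k ∨ v = cd k := by simpa [memb] using h
  exact memF h'

def t1 (k : Fin 600) : Fin 120 := f120 (tri600.get k / 14400)
def t2 (k : Fin 600) : Fin 120 := f120 (tri600.get k / 120)
def t3 (k : Fin 600) : Fin 120 := f120 (tri600.get k)

def chk600 (k : Fin 600) : Bool :=
  let p := pr600 k
  let a := t1 k
  let b := t2 k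
  let c := t3 k
  decide (dep600.get k = dep600.get p + 1) &&
  (decide ((qk k).dot (qk p) = ⟨14, 24⟩) &&
  (memb a k && (memb b k && (memb c k && (memb a p && (memb b p && (memb c p &&
  (decide (a < b) && decide (b < c)))))))))

theorem chk600_all : ∀ k : Fin 600, k ≠ f600 (path600.getD 0 0) → chk600 k = true := by
  decide +kernel

theorem N120_inj {a b : Fin 120} (h : a < b) : N120 a ≠ N120 b := by
  intro he
  have h1 := inner_lt120 h
  rw [he, inner_self120] at h1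
  have := Z.phi_hi
  linarith

theorem xchk : ∀ k : Fin 600, k ≠ f600 (path600.getD 0 0) →
    (((⟨4, 6⟩ : Z).mul D600).sub ((qk k).dot (pts600.getD 0 ⟨o, o, o, o⟩))).pos = true := by
  decide +kernel

theorem ychk : ∀ k : Fin 600, k ≠ f600 (path600.getD 7 0) →
    (((⟨4, 6⟩ : Z).mul D600).sub ((qk k).dot (pts600.getD 7 ⟨o, o, o, o⟩))).pos = true := by
  decide +kernel

theorem fchk : ∀ j : Fin 7, foldOk ⟨4, 6⟩ ((⟨16, 24⟩ : Z).add ⟨14, 24⟩) D600
    ((qk (f600 (path600.getD (j + 1) 0))).add (qk (f600 (path600.getD j 0))))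
    (pts600.getD (j + 1) ⟨o, o, o, o⟩) (pts600.getD j ⟨o, o, o, o⟩) = true := by
  decide +kernel

theorem pchk : ∀ j : Fin 7, f600 (path600.getD (j + 1) 0) ≠ f600 (path600.getD 0 0) ∧
    pr600 (f600 (path600.getD (j + 1) 0)) = f600 (path600.getD j 0) := by
  decide +kernel

theorem x0chk : (qk (f600 (path600.getD 0 0))).dot (pts600.getD 0 ⟨o, o, o, o⟩) =
    (⟨4, 6⟩ : Z).mul D600 := by decide +kernel

theorem y0chk : (qk (f600 (path600.getD 7 0))).dot (pts600.getD 7 ⟨o, o, o, o⟩) =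
    (⟨4, 6⟩ : Z).mul D600 := by decide +kernel

theorem d0chk : dep600.get (f600 (path600.getD 0 0)) = 0 := by decide +kernel

theorem d7chk : dep600.get (f600 (path600.getD 7 0)) = 7 := by decide +kernel

theorem not_allNet_600 : ¬ IsAllNet N600 (4 + 6 * Real.goldenRatio) := by
  have hall := chk600_all
  simp only [chk600, Bool.and_eq_true, decide_eq_true_eq] at hall
  rw [← val46]
  have hsymm : ∀ k, ce.symm (cell k) = k := fun k => by rw [← ce_apply, Equiv.symm_apply_apply]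
  have hne : ∀ {k l : Fin 600}, cell k ≠ cell l → k ≠ l := fun h e => h (by rw [e])
  refine finish N600 qc N600_vec ⟨4, 6⟩ ⟨16, 24⟩ ⟨14, 24⟩
    (Z.val_pos (by decide +kernel)) ?_ (cell (f600 (path600.getD 0 0)))
    (fun t => cell (pr600 (ce.symm t)))
    (fun t => dep600.get (ce.symm t)) ?_ ?_ ?_ ?_
    D600 (Z.val_pos (by decide +kernel)) 7 (fun k => cell (f600 (path600.getD k 0)))
    (fun k => pts600.getD k ⟨o, o, o, o⟩)
    rfl ?_ ?_ ?_ ?_ ?_ ?_ ?_ ?_ ?_
  · intro t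
    rw [N600_X, (clq t).norm]
    simp only [Z.val]
    push_cast
    ring
  · simp only [hsymm]
    exact d0chk
  · intro t ht
    obtain ⟨k, rfl⟩ := cell_surj t
    simp only [hsymm]
    exact (hall k (hne ht)).1
  · intro t ht
    obtain ⟨k, rfl⟩ := cell_surj t
    simp only [hsymm]
    rw [N600_vec, N600_vec, Q.inner_vec, qc_cell, qc_cell, (hall k (hne ht)).2.1]
  · intro t ht
    obtain ⟨k, rfl⟩ := cell_surj t
    simp only [hsymm]
    obtain ⟨-, -, a1, b1, c1, a2, b2, c2, hab, hbc⟩ := hall k (hne ht)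
    refine ⟨_, _, _, ⟨memb_spec a1, memb_spec a2⟩, ⟨memb_spec b1, memb_spec b2⟩,
      ⟨memb_spec c1, memb_spec c2⟩, affInd (inner_self120 _) (inner_self120 _)
        (inner_self120 _) (N120_inj hab) (N120_inj (hab.trans hbc)) (N120_inj hbc)⟩
  · simp only [hsymm]
    exact d7chk
  · intro h
    exact (pchk 6).1 (cell_inj h)
  · intro j hj h
    exact (pchk ⟨j, hj⟩).1 (cell_inj h)
  · intro j hj
    simp only [hsymm]
    rw [(pchk ⟨j, hj⟩).2]
  · intro j hj
    simp only [qc_cell]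
    exact fchk ⟨j, hj⟩
  · rw [qc_cell]; exact x0chk
  · intro t ht
    obtain ⟨k, rfl⟩ := cell_surj t
    rw [qc_cell]
    exact xchk k (hne ht)
  · rw [qc_cell]; exact y0chk
  · intro t ht
    obtain ⟨k, rfl⟩ := cell_surj t
    rw [qc_cell]
    exact ychk k (hne ht)

end Pool.Agent.X160.Nta
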