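import Pool.Agent.X160.Nta

set_option autoImplicit false

namespace Pool.Agent.X160.Nta

theorem facet_comp {κ ι : Type} (e : κ ≃ ι) (N : ι → E) (c : ℝ) (k : κ) :
    Facet (fun x => N (e x)) c k = Facet N c (e k) := by
  ext x
  simp only [Facet, Set.mem_setOf_eq]
  exact and_congr Iff.rfl ⟨fun h j => by simpa using h (e.symm j), fun h j => h (e j)⟩

theorem isTree_comap {κ ι : Type} (e : κ ≃ ι) (T : SimpleGraph κ) (h : T.IsTree) :
    (T.comap e.symm).IsTree := by
  let f : T.comap e.symm ≃g T := SimpleGraph.Iso.comap e.symm T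
  refine ⟨?_, ?_⟩
  · exact f.connected_iff.2 h.1
  · exact h.2.comap f.toHom f.injective

theorem transport {κ ι : Type} (e : κ ≃ ι) (N : ι → E) (c : ℝ) (h : IsAllNet N c) :
    IsAllNet (fun k => N (e k)) c := by
  intro T r g hU i j hij
  have h1 : IsUnfolding N c (T.comap e.symm) (e r) (fun i => g (e.symm i)) := by
    refine ⟨isTree_comap e T hU.tree, ?_, fun i => hU.isom _, ?_, ?_, ?_⟩
    · intro a b hab
      have h2 := hU.le (show T.Adj (e.symm a) (e.symm b) from hab)
      obtain ⟨h3, x, y, z, hx, hy, hz, ha⟩ := h2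
      simp only [facet_comp, Equiv.apply_symm_apply] at hx hy hz
      exact ⟨fun h4 => h3 (by rw [h4]), x, y, z, hx, hy, hz, ha⟩
    · intro a x hx
      exact hU.root (e.symm a) x (by simpa using hx)
    · intro a b hab x hx
      refine hU.agree (e.symm a) (e.symm b) hab x ?_
      simpa only [facet_comp, Equiv.apply_symm_apply] using hx
    · intro a b hab x hx y hy
      obtain ⟨z, z1, z2, z3⟩ := hU.opp (e.symm a) (e.symm b) hab x
        (by simpa only [facet_comp, Equiv.apply_symm_apply] using hx) y
        (by simpa only [facet_comp, Equiv.apply_symm_apply] using hy)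
      exact ⟨z, by simpa using z1, by simpa using z2, z3⟩
  have h2 := h _ _ _ h1 (e i) (e j) (by simpa using hij)
  simpa only [facet_comp, Equiv.symm_apply_apply] using h2

/-- if `N` is an injective enumeration of the set `S` -/
theorem of_range {κ : Type} (N : κ → E) (hN : Function.Injective N) (S : Set E)
    (hS : S = Set.range N) (c : ℝ) (h : ¬ IsAllNet N c) :
    ¬ IsAllNet (fun x : S => (x : E)) c := by
  subst hS
  intro h1
  exact h (transport (Equiv.ofInjective N hN) (fun x => (x : E)) c h1)

end Pool.Agent.X160.Nta
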