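import Pool.Agent.X160.Ntd
import Pool.Agent.X160.Ntf

set_option autoImplicit false

namespace Pool.Agent.X160.Nta

def V24 : Set E :=
  {x | (∃ i, (x i = 2 ∨ x i = -2) ∧ ∀ j, j ≠ i → x j = 0) ∨ ∀ i, x i = 1 ∨ x i = -1}

def V120 : Set E := V24 ∪ {x | ∃ σ : Equiv.Perm (Fin 4), Equiv.Perm.sign σ = 1 ∧
  (x (σ 0) = Real.goldenRatio ∨ x (σ 0) = -Real.goldenRatio) ∧
  (x (σ 1) = 1 ∨ x (σ 1) = -1) ∧
  (x (σ 2) = Real.goldenRatio⁻¹ ∨ x (σ 2) = -Real.goldenRatio⁻¹) ∧ x (σ 3) = 0}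

def cf (q : Q) (j : Fin 4) : Z := ![q.x, q.y, q.z, q.w] j

theorem vec_cf (q : Q) (j : Fin 4) : q.vec j = (cf q j).val := by
  fin_cases j <;> simp [Q.vec, cf]

theorem vec_eq {q : Q} {x : E} (h : ∀ j, x j = (cf q j).val) : q.vec = x := by
  ext j; rw [vec_cf, h]

def ax (i : Fin 4) (s : ℤ) : Q :=
  ⟨if i = 0 then ⟨2 * s, 0⟩ else o, if i = 1 then ⟨2 * s, 0⟩ else o,
    if i = 2 then ⟨2 * s, 0⟩ else o, if i = 3 then ⟨2 * s, 0⟩ else o⟩

theorem cf_ax (i j : Fin 4) (s : ℤ) : cf (ax i s) j = if i = j then ⟨2 * s, 0⟩ else o := by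
  fin_cases i <;> fin_cases j <;> simp [cf, ax]

theorem ax_mem : ∀ i : Fin 4, ∀ s ∈ sg, ax i s ∈ L8 := by decide

theorem mem_ax : ∀ q ∈ L8, ∃ i : Fin 4, ∃ s ∈ sg, q = ax i s := by decide

def ev (a b c d : ℤ) : Q := ⟨⟨a, 0⟩, ⟨b, 0⟩, ⟨c, 0⟩, ⟨d, 0⟩⟩

theorem ev_mem : ∀ a ∈ sg, ∀ b ∈ sg, ∀ c ∈ sg, ∀ d ∈ sg, ev a b c d ∈ L16 := by decide

theorem mem_ev : ∀ q ∈ L16, ∃ a ∈ sg, ∃ b ∈ sg, ∃ c ∈ sg, ∃ d ∈ sg, q = ev a b c d := by decide

def e96 (σ : Equiv.Perm (Fin 4)) (s t u : ℤ) : Q :=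
  let f : Fin 4 → Z := fun j =>
    if j = σ 0 then ⟨0, s⟩ else if j = σ 1 then ⟨t, 0⟩ else if j = σ 2 then ⟨-u, u⟩ else o
  ⟨f 0, f 1, f 2, f 3⟩

theorem cf_e96 (σ : Equiv.Perm (Fin 4)) (s t u : ℤ) (j : Fin 4) : cf (e96 σ s t u) j =
    if j = σ 0 then ⟨0, s⟩ else if j = σ 1 then ⟨t, 0⟩ else if j = σ 2 then ⟨-u, u⟩ else o := by
  fin_cases j <;> rfl

theorem e96_mem : ∀ σ : Equiv.Perm (Fin 4), Equiv.Perm.sign σ = 1 → ∀ s ∈ sg, ∀ t ∈ sg,
    ∀ u ∈ sg, e96 σ s t u ∈ L96 := by decide +kernel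

theorem mem_e96 : ∀ q ∈ L96, ∃ σ : Equiv.Perm (Fin 4), Equiv.Perm.sign σ = 1 ∧ ∃ s ∈ sg,
    ∃ t ∈ sg, ∃ u ∈ sg, q = e96 σ s t u := by decide +kernel

theorem sg_iff (x y : ℝ) : (∃ s ∈ sg, x = s * y) ↔ (x = y ∨ x = -y) := by
  simp [sg]

theorem exists_getD (L : List Q) (n : ℕ) (hn : L.length = n) (x : E) :
    (∃ i : Fin n, (L.getD i ⟨o, o, o, o⟩).vec = x) ↔ ∃ q ∈ L, q.vec = x := by
  subst hn
  constructor
  · rintro ⟨i, hi⟩
    rw [List.getD_eq_getElem _ _ i.2] at hi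
    exact ⟨_, List.getElem_mem _, hi⟩
  · rintro ⟨q, hq, hx⟩
    obtain ⟨k, hk, rfl⟩ := List.mem_iff_getElem.1 hq
    exact ⟨⟨k, hk⟩, by rw [List.getD_eq_getElem _ _ hk]; exact hx⟩

theorem memV24 (x : E) : x ∈ V24 ↔ ∃ q ∈ L8 ++ L16, q.vec = x := by
  constructor
  · rintro (⟨i, hi, hj⟩ | h)
    · have h1 : x i = 2 ∨ x i = -2 := hi
      obtain ⟨s, hs, hs2⟩ := (sg_iff (x i) 2).2 h1
      refine ⟨ax i s, List.mem_append_left _ (ax_mem i s hs), vec_eq fun j => ?_⟩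
      rw [cf_ax]
      by_cases h : i = j
      · subst h
        rw [if_pos rfl, hs2]
        simp only [Z.val]; push_cast; ring
      · rw [if_neg h, hj j (Ne.symm h)]
        simp [Z.val, o]
    · have h1 : ∀ i, ∃ s ∈ sg, x i = s * (1 : ℝ) := fun i => (sg_iff _ _).2 (h i)
      obtain ⟨a, ha, ha2⟩ := h1 0
      obtain ⟨b, hb, hb2⟩ := h1 1
      obtain ⟨c, hc, hc2⟩ := h1 2
      obtain ⟨d, hd, hd2⟩ := h1 3
      refine ⟨ev a b c d, List.mem_append_right _ (ev_mem a ha b hb c hc d hd),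
        vec_eq fun j => ?_⟩
      fin_cases j
      · simpa [cf, ev, Z.val] using ha2
      · simpa [cf, ev, Z.val] using hb2
      · simpa [cf, ev, Z.val] using hc2
      · simpa [cf, ev, Z.val] using hd2
  · rintro ⟨q, hq, rfl⟩
    rcases List.mem_append.1 hq with hq | hq
    · obtain ⟨i, s, hs, rfl⟩ := mem_ax q hq
      refine Or.inl ⟨i, ?_, fun j hj => ?_⟩
      · rw [vec_cf, cf_ax, if_pos rfl]
        refine (sg_iff _ _).1 ⟨s, hs, ?_⟩
        simp only [Z.val]; push_cast; ring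
      · rw [vec_cf, cf_ax, if_neg (Ne.symm hj)]
        simp [Z.val, o]
    · obtain ⟨a, ha, b, hb, c, hc, d, hd, rfl⟩ := mem_ev q hq
      refine Or.inr fun i => ?_
      refine (sg_iff _ _).1 ?_
      fin_cases i
      · exact ⟨a, ha, by simp [Q.vec, ev, Z.val]⟩
      · exact ⟨b, hb, by simp [Q.vec, ev, Z.val]⟩
      · exact ⟨c, hc, by simp [Q.vec, ev, Z.val]⟩
      · exact ⟨d, hd, by simp [Q.vec, ev, Z.val]⟩

theorem range_N24 : V24 = Set.range N24 := by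
  ext x
  rw [memV24, ← exists_getD _ 24 (by decide)]
  rfl

theorem phi_inv : Real.goldenRatio⁻¹ = Real.goldenRatio - 1 := by
  refine (eq_inv_of_mul_eq_one_left ?_).symm
  linear_combination Real.goldenRatio_sq

theorem range_N120 : V120 = Set.range N120 := by
  ext x
  have key : x ∈ V120 ↔ ∃ q ∈ L8 ++ L16 ++ L96, q.vec = x := by
    constructor
    · rintro (h | ⟨σ, hσ, h0, h1, h2, h3⟩)
      · obtain ⟨q, hq, hx⟩ := (memV24 x).1 h
        exact ⟨q, List.mem_append_left _ hq, hx⟩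
      · obtain ⟨s, hs, hs2⟩ := (sg_iff _ _).2 h0
        obtain ⟨t, ht, ht2⟩ := (sg_iff _ _).2 h1
        obtain ⟨u, hu, hu2⟩ := (sg_iff _ _).2 h2
        refine ⟨e96 σ s t u, List.mem_append_right _ (e96_mem σ hσ s hs t ht u hu),
          vec_eq fun j => ?_⟩
        rw [cf_e96]
        obtain ⟨m, rfl⟩ := σ.surjective j
        simp only [σ.injective.eq_iff]
        fin_cases m
        · simpa [Z.val] using hs2
        · simpa [Z.val] using ht2
        · simp only [Z.val]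
          rw [phi_inv] at hu2
          simp
          rw [hu2]; ring
        · simpa [Z.val, o] using h3
    · rintro ⟨q, hq, rfl⟩
      rcases List.mem_append.1 hq with hq | hq
      · exact Or.inl ((memV24 _).2 ⟨q, hq, rfl⟩)
      · obtain ⟨σ, hσ, s, hs, t, ht, u, hu, rfl⟩ := mem_e96 q hq
        refine Or.inr ⟨σ, hσ, (sg_iff _ _).1 ⟨s, hs, ?_⟩, (sg_iff _ _).1 ⟨t, ht, ?_⟩,
          (sg_iff _ _).1 ⟨u, hu, ?_⟩, ?_⟩
        · rw [vec_cf, cf_e96, if_pos rfl]; simp [Z.val]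
        · rw [vec_cf, cf_e96]; simp [Z.val, σ.injective.eq_iff]
        · rw [vec_cf, cf_e96, phi_inv]; simp [Z.val, σ.injective.eq_iff]; ring
        · rw [vec_cf, cf_e96]; simp [Z.val, σ.injective.eq_iff, o]
  rw [key, ← exists_getD _ 120 (by decide)]
  rfl

theorem N120_ne {a b : Fin 120} (h : a ≠ b) : N120 a ≠ N120 b := by
  intro he
  have h1 := inner_ne120 h
  rw [he, inner_self120] at h1
  have := Z.phi_hi
  linarith

theorem N120_injective : Function.Injective N120 := fun a b h => by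
  by_contra h2; exact N120_ne h2 h

theorem N24_injective : Function.Injective N24 := by
  have h : ∀ i : Fin 24, q24 i = q120 i := by decide +kernel
  intro i j hij
  have h1 : N120 ⟨i, by omega⟩ = N120 ⟨j, by omega⟩ := by
    rw [N24, N24, h, h] at hij
    exact hij
  have h2 := N120_injective h1
  simp only [Fin.mk.injEq] at h2
  exact Fin.ext h2

theorem set24 : ¬ IsAllNet (fun x : V24 => (x : E)) 2 :=
  of_range N24 N24_injective V24 range_N24 2 not_allNet_24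

theorem set120 : ¬ IsAllNet (fun x : V120 => (x : E)) (4 + 6 * Real.goldenRatio) :=
  of_range N120 N120_injective V120 range_N120 _ not_allNet_120

end Pool.Agent.X160.Nta
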