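import Pool.Agent.X160.Nte
import Pool.Agent.X160.Ntg

set_option autoImplicit false

namespace Pool.Agent.X160.Nta

def V600 : Set E := {x | ∃ a ∈ V120, ∃ b ∈ V120, ∃ c ∈ V120, ∃ d ∈ V120,
  inner ℝ a b = 2 * Real.goldenRatio ∧ inner ℝ a c = 2 * Real.goldenRatio ∧
  inner ℝ a d = 2 * Real.goldenRatio ∧ inner ℝ b c = 2 * Real.goldenRatio ∧
  inner ℝ b d = 2 * Real.goldenRatio ∧ inner ℝ c d = 2 * Real.goldenRatio ∧
  x = a + b + c + d}

theorem ne_of_inner {a b : Fin 120} (h : inner ℝ (N120 a) (N120 b) = 2 * Real.goldenRatio) :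
    a ≠ b := by
  rintro rfl
  rw [inner_self120] at h
  have := Z.phi_hi
  linarith

theorem exists_cell {i j k l : Fin 120} (h : Clq i j k l) : ∃ t : Cell, N600 t = X i j k l := by
  classical
  have hij := ne_of_inner h.ab
  have hik := ne_of_inner h.ac
  have hil := ne_of_inner h.ad
  have hjk := ne_of_inner h.bc
  have hjl := ne_of_inner h.bd
  have hkl := ne_of_inner h.cd
  set s : Finset (Fin 120) := {i, j, k, l} with hs
  have hcard : s.card = 4 := by
    rw [hs, Finset.card_insert_of_notMem (by simp [hij, hik, hil]),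
      Finset.card_insert_of_notMem (by simp [hjk, hjl]),
      Finset.card_insert_of_notMem (by simp [hkl]), Finset.card_singleton]
  have hadj : ∀ x ∈ s, ∀ y ∈ s, x ≠ y →
      inner ℝ (N120 x) (N120 y) = 2 * Real.goldenRatio := by
    have e1 := h.ab
    have e2 := h.ac
    have e3 := h.ad
    have e4 := h.bc
    have e5 := h.bd
    have e6 := h.cd
    have f1 := real_inner_comm (N120 i) (N120 j)
    have f2 := real_inner_comm (N120 i) (N120 k)
    have f3 := real_inner_comm (N120 i) (N120 l)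
    have f4 := real_inner_comm (N120 j) (N120 k)
    have f5 := real_inner_comm (N120 j) (N120 l)
    have f6 := real_inner_comm (N120 k) (N120 l)
    intro x hx y hy hxy
    simp only [hs, Finset.mem_insert, Finset.mem_singleton] at hx hy
    rcases hx with rfl | rfl | rfl | rfl <;> rcases hy with rfl | rfl | rfl | rfl <;>
      first
        | exact absurd rfl hxy
        | linarith
  let f := s.orderEmbOfFin hcard
  have hf : ∀ m, f m ∈ s := fun m => Finset.orderEmbOfFin_mem s hcard m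
  have hlt : ∀ m n : Fin 4, m < n → f m < f n := fun m n hmn => f.strictMono hmn
  have hA : ∀ m n : Fin 4, m ≠ n → inner ℝ (N120 (f m)) (N120 (f n)) = 2 * Real.goldenRatio :=
    fun m n hmn => hadj _ (hf m) _ (hf n) (fun h => hmn (f.injective h))
  refine ⟨⟨(f 0, f 1, f 2, f 3), ⟨hlt 0 1 (by decide), hlt 1 2 (by decide), hlt 2 3 (by decide)⟩,
    hA 0 1 (by decide), hA 0 2 (by decide), hA 0 3 (by decide), hA 1 2 (by decide),
    hA 1 3 (by decide), hA 2 3 (by decide)⟩, ?_⟩
  have h1 : ∑ x ∈ s, N120 x = ∑ m : Fin 4, N120 (f m) := by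
    have h2 : s = Finset.univ.map f.toEmbedding := (Finset.map_orderEmbOfFin_univ s hcard).symm
    rw [h2, Finset.sum_map]
    rfl
  have h3 : ∑ x ∈ s, N120 x = N120 i + (N120 j + (N120 k + N120 l)) := by
    rw [hs, Finset.sum_insert (by simp [hij, hik, hil]), Finset.sum_insert (by simp [hjk, hjl]),
      Finset.sum_insert (by simp [hkl]), Finset.sum_singleton]
  rw [h3, Fin.sum_univ_four] at h1
  change N120 (f 0) + N120 (f 1) + N120 (f 2) + N120 (f 3) = X i j k l
  rw [← h1, X]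
  abel

theorem range_N600 : V600 = Set.range N600 := by
  ext x
  constructor
  · rintro ⟨a, ha, b, hb, c, hc, d, hd, h1, h2, h3, h4, h5, h6, rfl⟩
    rw [range_N120] at ha hb hc hd
    obtain ⟨i, rfl⟩ := ha
    obtain ⟨j, rfl⟩ := hb
    obtain ⟨k, rfl⟩ := hc
    obtain ⟨l, rfl⟩ := hd
    exact exists_cell ⟨h1, h2, h3, h4, h5, h6⟩
  · rintro ⟨t, rfl⟩
    have h := clq t
    have hm : ∀ i, N120 i ∈ V120 := fun i => by rw [range_N120]; exact ⟨i, rfl⟩
    exact ⟨_, hm _, _, hm _, _, hm _, _, hm _, h.ab, h.ac, h.ad, h.bc, h.bd, h.cd, rfl⟩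

theorem N600_injective : Function.Injective N600 := by
  have key : ∀ s t : Cell, N600 s = N600 t → ∀ v, (v = s.1.1 ∨ v = s.1.2.1 ∨ v = s.1.2.2.1 ∨
      v = s.1.2.2.2) → (v = t.1.1 ∨ v = t.1.2.1 ∨ v = t.1.2.2.1 ∨ v = t.1.2.2.2) := by
    intro s t h v hv
    by_contra h1
    push Not at h1
    have h2 := (clq t).lt h1.1 h1.2.1 h1.2.2.1 h1.2.2.2
    rw [← N600_X, ← h, N600_X] at h2
    rcases hv with hv | hv | hv | hv
    · rw [hv, (clq s).eqa] at h2; exact lt_irrefl _ h2
    · rw [hv, (clq s).eqb] at h2; exact lt_irrefl _ h2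
    · rw [hv, (clq s).eqc] at h2; exact lt_irrefl _ h2
    · rw [hv, (clq s).eqd] at h2; exact lt_irrefl _ h2
  intro s t h
  have k1 := key s t h _ (Or.inl rfl)
  have k2 := key s t h _ (Or.inr (Or.inl rfl))
  have k3 := key s t h _ (Or.inr (Or.inr (Or.inl rfl)))
  have k4 := key s t h _ (Or.inr (Or.inr (Or.inr rfl)))
  obtain ⟨⟨a, b, c, d⟩, ⟨hab, hbc, hcd⟩, _⟩ := s
  obtain ⟨⟨a', b', c', d'⟩, ⟨hab', hbc', hcd'⟩, _⟩ := t
  simp only at k1 k2 k3 k4 hab hbc hcd hab' hbc' hcd'
  apply Subtype.ext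
  rw [Fin.lt_def] at hab hbc hcd hab' hbc' hcd'
  simp only [Fin.ext_iff] at k1 k2 k3 k4
  simp only [Prod.mk.injEq, Fin.ext_iff]
  omega

theorem set600 : ¬ IsAllNet (fun x : V600 => (x : E)) (4 + 6 * Real.goldenRatio) :=
  of_range N600 N600_injective V600 range_N600 _ not_allNet_600

end Pool.Agent.X160.Nta
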