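import Mathlib

/-! Five inequalities, with coefficients linear in an irrational parameter `s ∈ (0, 1/2)`, whose
integral solutions are exactly the six vertices of the five-dimensional discrete simplex. -/

namespace Pool.Agent.X160.Rca

set_option maxHeartbeats 400000

theorem irr {s : ℝ} (hs : Irrational s) {m n : ℤ} (h : (m : ℝ) = s * n) : m = 0 ∧ n = 0 := by
  by_cases hn : n = 0
  · subst hn
    simp at h
    exact ⟨h, rfl⟩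
  · exfalso
    have hn' : (n : ℝ) ≠ 0 := by exact_mod_cast hn
    apply hs
    refine ⟨(m : ℚ) / n, ?_⟩
    push_cast
    rw [h]
    field_simp

theorem pos_of_mul {t : ℝ} (ht : 0 < t) {n : ℤ} (h : 0 ≤ t * n) : 0 ≤ n := by
  have : (0 : ℝ) ≤ n := by
    by_contra hc
    push Not at hc
    nlinarith [mul_neg_of_pos_of_neg ht hc]
  exact_mod_cast this

theorem corner {s : ℝ} (h0 : 0 < s) (h1 : s < 1 / 2) {m n : ℤ} (h : (0 : ℝ) ≤ m + s * n) :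
    0 ≤ m ∨ 0 ≤ 2 * m + n := by
  rcases le_or_gt n 0 with hn | hn
  · left
    have hn' : (n : ℝ) ≤ 0 := by exact_mod_cast hn
    have : (0 : ℝ) ≤ m := by nlinarith
    exact_mod_cast this
  · right
    have hn' : (0 : ℝ) < n := by exact_mod_cast hn
    have : (0 : ℝ) ≤ 2 * m + n := by nlinarith
    exact_mod_cast this

theorem enum (a b c : ℤ) (n1 : 0 ≤ a + b + 3 * c) (n2 : 0 ≤ 1 + 3 * a + b + c)
    (n3 : 0 ≤ 3 - a - 3 * b + c) (n6 : 0 ≤ 18 - 13 * a - 15 * b - 5 * c)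
    (n4 : 0 ≤ 3 * (1 - a + b + c) ∨ 0 ≤ 2 * (3 * (1 - a + b + c)) + (3 * a + 5 * b + 5 * c - 3))
    (n5 : 0 ≤ 3 * (9 + a + 3 * b - 9 * c) ∨
      0 ≤ 2 * (3 * (9 + a + 3 * b - 9 * c)) + 5 * (7 * a + 5 * b + c - 1)) :
    (a = 0 ∧ b = 0 ∧ c = 0) ∨ (a = -1 ∧ b = 1 ∧ c = 1) ∨ (a = 0 ∧ b = 1 ∧ c = 0) ∨
      (a = 1 ∧ b = 0 ∧ c = 0) ∨ (a = 0 ∧ b = 0 ∧ c = 1) ∨ (a = 1 ∧ b = 0 ∧ c = 1) := by
  have hc0 : 0 ≤ c := by rcases n4 with n4 | n4 <;> rcases n5 with n5 | n5 <;> omega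
  have hc1 : c ≤ 1 := by rcases n4 with n4 | n4 <;> rcases n5 with n5 | n5 <;> omega
  have ha0 : -1 ≤ a := by rcases n4 with n4 | n4 <;> rcases n5 with n5 | n5 <;> omega
  have ha1 : a ≤ 2 := by rcases n4 with n4 | n4 <;> rcases n5 with n5 | n5 <;> omega
  have hb0 : -1 ≤ b := by rcases n4 with n4 | n4 <;> rcases n5 with n5 | n5 <;> omega
  have hb1 : b ≤ 2 := by rcases n4 with n4 | n4 <;> rcases n5 with n5 | n5 <;> omega
  interval_cases c <;> interval_cases a <;> interval_cases b <;> omega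

theorem core {s : ℝ} (hs : Irrational s) (h0 : 0 < s) (h1 : s < 1 / 2)
    (x1 x2 x3 x4 x5 x6 : ℤ) (hsum : x1 + x2 + x3 + x4 + x5 + x6 = 1)
    (r1 : 0 ≤ (15 - 15 * s) * x1 + (6 - 10 * s) * x2 + 12 * x3)
    (r2 : 0 ≤ (18 + 10 * s) * x4 + (24 + 20 * s) * x5 + (57 + 15 * s) * x6)
    (r3 : 0 ≤ (54 + 30 * s) * x2 + (18 + 10 * s) * x3 + (30 + 10 * s) * x5 + (15 + 25 * s) * x6)
    (r4 : 0 ≤ (12 + 10 * s) * x1 + (24 + 20 * s) * x3 + (30 + 30 * s) * x4 + (3 + 35 * s) * x6)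
    (r5 : 0 ≤ (57 + 15 * s) * x1 + (38 + 10 * s) * x2 + 20 * x4 + 52 * x5) :
    (x2 = 0 ∧ x3 = 0 ∧ x4 = 0 ∧ x5 = 0 ∧ x6 = 0) ∨
    (x2 = 1 ∧ x3 = 0 ∧ x4 = 0 ∧ x5 = 0 ∧ x6 = 0) ∨
    (x2 = 0 ∧ x3 = 1 ∧ x4 = 0 ∧ x5 = 0 ∧ x6 = 0) ∨
    (x2 = 0 ∧ x3 = 0 ∧ x4 = 1 ∧ x5 = 0 ∧ x6 = 0) ∨
    (x2 = 0 ∧ x3 = 0 ∧ x4 = 0 ∧ x5 = 1 ∧ x6 = 0) ∨
    (x2 = 0 ∧ x3 = 0 ∧ x4 = 0 ∧ x5 = 0 ∧ x6 = 1) := by
  obtain ⟨a, ha⟩ : ∃ a : ℤ, a = -x2 + x4 + x6 := ⟨_, rfl⟩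
  obtain ⟨b, hb⟩ : ∃ b : ℤ, b = x2 + x3 := ⟨_, rfl⟩
  obtain ⟨c, hc⟩ : ∃ c : ℤ, c = x2 + x5 + x6 := ⟨_, rfl⟩
  obtain rfl : x3 = b - x2 := by omega
  obtain rfl : x4 = a + x2 - x6 := by omega
  obtain rfl : x5 = c - x2 - x6 := by omega
  obtain rfl : x1 = 1 - a - b - c + x6 := by omega
  clear ha hb hc hsum
  push_cast at r1 r2 r3 r4 r5
  have n1 : 0 ≤ a + b + 3 * c := by
    refine pos_of_mul (t := 18 + 10 * s) (by linarith) ?_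
    push_cast
    nlinarith
  have n2 : 0 ≤ 1 + 3 * a + b + c := by
    refine pos_of_mul (t := 12 + 10 * s) (by linarith) ?_
    push_cast
    nlinarith
  have n3 : 0 ≤ 3 - a - 3 * b + c := by
    refine pos_of_mul (t := 19 + 5 * s) (by linarith) ?_
    push_cast
    nlinarith
  have n6 : 0 ≤ 18 - 13 * a - 15 * b - 5 * c := by
    refine pos_of_mul (t := 4) (by norm_num) ?_
    push_cast
    nlinarith
  have n4 := corner (m := 3 * (1 - a + b + c)) (n := 3 * a + 5 * b + 5 * c - 3) h0 h1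
    (by push_cast; nlinarith)
  have n5 := corner (m := 3 * (9 + a + 3 * b - 9 * c)) (n := 5 * (7 * a + 5 * b + c - 1)) h0 h1
    (by push_cast; nlinarith)
  rcases enum a b c n1 n2 n3 n6 n4 n5 with ⟨rfl, rfl, rfl⟩ | ⟨rfl, rfl, rfl⟩ | ⟨rfl, rfl, rfl⟩ |
    ⟨rfl, rfl, rfl⟩ | ⟨rfl, rfl, rfl⟩ | ⟨rfl, rfl, rfl⟩
  · have := irr hs (m := 15 * x6 - 6 * x2) (n := 15 * x6 + 10 * x2)
      (by push_cast at *; nlinarith)
    omega
  · have := irr hs (m := 15 * x6 - 6 * x2 + 6) (n := 15 * x6 + 10 * x2 - 10)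
      (by push_cast at *; nlinarith)
    omega
  · have := irr hs (m := 15 * x6 - 6 * x2) (n := 15 * x6 + 10 * x2)
      (by push_cast at *; nlinarith)
    omega
  · have := irr hs (m := 15 * x6 - 6 * x2) (n := 15 * x6 + 10 * x2)
      (by push_cast at *; nlinarith)
    omega
  · have := irr hs (m := 15 * x6 - 6 * x2) (n := 15 * x6 + 10 * x2)
      (by push_cast at *; nlinarith)
    omega
  · have := irr hs (m := 15 * x6 - 6 * x2 - 15) (n := 15 * x6 + 10 * x2 - 15)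
      (by push_cast at *; nlinarith)
    omega

end Pool.Agent.X160.Rca
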