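import Pool.Agent.X160.Rca

/-! Relaxation complexity over subfields of `ℝ`: definitions, the upper bound. -/

namespace Pool.Agent.X160.Rcb

set_option maxHeartbeats 1000000

open Pool.Agent.X160.Rca

/-- The set `X ⊆ ℤ^d` is the set of integer points of a polyhedron `{y ∈ ℝ^d : A y ≤ b}` given by
`k` inequalities whose coefficients and right hand sides all lie in the field `F ⊆ ℝ`. -/
def HasRelaxation (F : Subfield ℝ) {d : ℕ} (k : ℕ) (X : Set (Fin d → ℤ)) : Prop :=
  ∃ (A : Fin k → Fin d → F) (b : Fin k → F),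
    ∀ x : Fin d → ℤ, (∀ i, ∑ j, (A i j : ℝ) * (x j : ℝ) ≤ (b i : ℝ)) ↔ x ∈ X

/-- `rc_F(X)`: the least number of inequalities of an `F`-relaxation of `X`. -/
noncomputable def rc (F : Subfield ℝ) {d : ℕ} (X : Set (Fin d → ℤ)) : ℕ :=
  sInf {k | HasRelaxation F k X}

/-- `Δ_d = {0, e_1, …, e_d}`, the zero vector and the standard unit vectors of `ℤ^d`. -/
def discreteSimplex (d : ℕ) : Set (Fin d → ℤ) :=
  {x | x = 0 ∨ ∃ i, x = Pi.single i 1}

theorem mem_rat_of_not_irrational {F : Subfield ℝ} (hF : F ≠ ⊥) : ∃ t ∈ F, Irrational t := by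
  by_contra hc
  push Not at hc
  apply hF
  rw [eq_bot_iff]
  intro t ht
  have := hc t ht
  rw [irrational_iff_ne_rational] at this
  push Not at this
  obtain ⟨a, b, -, hab⟩ := this
  rw [hab]
  exact div_mem (intCast_mem _ a) (intCast_mem _ b)

theorem exists_param {F : Subfield ℝ} (hF : F ≠ ⊥) :
    ∃ s : F, Irrational (s : ℝ) ∧ 0 < (s : ℝ) ∧ (s : ℝ) < 1 / 2 := by
  obtain ⟨t, ht, hti⟩ := mem_rat_of_not_irrational hF
  have hfi : Irrational (Int.fract t) := by
    rw [Int.fract]
    exact hti.sub_intCast _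
  refine ⟨⟨Int.fract t / 2, ?_⟩, ?_, ?_, ?_⟩
  · refine div_mem ?_ ?_
    · rw [Int.fract]
      exact sub_mem ht (intCast_mem _ _)
    · exact_mod_cast natCast_mem F 2
  · have := hfi.div_natCast (m := 2) (by norm_num)
    simpa using this
  · have h1 : 0 ≤ Int.fract t := Int.fract_nonneg t
    have h2 : Int.fract t ≠ 0 := hfi.ne_zero
    have h3 : 0 < Int.fract t := lt_of_le_of_ne h1 (Ne.symm h2)
    simp only
    linarith
  · have := Int.fract_lt_one t
    simp only
    linarith

theorem coe_ofNat' (F : Subfield ℝ) (n : ℕ) [n.AtLeastTwo] :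
    ((ofNat(n) : F) : ℝ) = ofNat(n) := rfl

theorem upper {F : Subfield ℝ} (hF : F ≠ ⊥) : HasRelaxation F 5 (discreteSimplex 5) := by
  obtain ⟨s, hs, h0, h1⟩ := exists_param hF
  refine ⟨![![9 - 5 * s, 3 - 15 * s, 15 - 15 * s, 15 - 15 * s, 15 - 15 * s],
    ![0, 0, -(18 + 10 * s), -(24 + 20 * s), -(57 + 15 * s)],
    ![-(54 + 30 * s), -(18 + 10 * s), 0, -(30 + 10 * s), -(15 + 25 * s)],
    ![12 + 10 * s, -(12 + 10 * s), -(18 + 20 * s), 12 + 10 * s, 9 - 25 * s],
    ![19 + 5 * s, 57 + 15 * s, 37 + 15 * s, 5 + 15 * s, 57 + 15 * s]],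
    ![15 - 15 * s, 0, 0, 12 + 10 * s, 57 + 15 * s], ?_⟩
  intro x
  constructor
  · intro h
    have q1 := h 0
    have q2 := h 1
    have q3 := h 2
    have q4 := h 3
    have q5 := h 4
    simp [Fin.sum_univ_five, coe_ofNat'] at q1 q2 q3 q4 q5
    have key := core hs h0 h1 (1 - x 0 - x 1 - x 2 - x 3 - x 4) (x 0) (x 1) (x 2) (x 3) (x 4)
      (by ring) (by push_cast; nlinarith) (by push_cast; nlinarith) (by push_cast; nlinarith)
      (by push_cast; nlinarith) (by push_cast; nlinarith)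
    rcases key with k | k | k | k | k | k
    · left
      funext j
      fin_cases j <;> simp [k]
    · right
      refine ⟨0, ?_⟩
      funext j
      fin_cases j <;> simp [k]
    · right
      refine ⟨1, ?_⟩
      funext j
      fin_cases j <;> simp [k]
    · right
      refine ⟨2, ?_⟩
      funext j
      fin_cases j <;> simp [k]
    · right
      refine ⟨3, ?_⟩
      funext j
      fin_cases j <;> simp [k]
    · right
      refine ⟨4, ?_⟩
      funext j
      fin_cases j <;> simp [k]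
  · intro hx i
    rcases hx with rfl | ⟨j, rfl⟩
    · fin_cases i <;> simp [coe_ofNat'] <;> nlinarith
    · fin_cases j <;> fin_cases i <;> simp [Fin.sum_univ_five, coe_ofNat'] <;> nlinarith

end Pool.Agent.X160.Rcb
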