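import Pool.Agent.X160.Rcb

/-! Relaxation complexity over real quadratic fields: the lower bound. -/

namespace Pool.Agent.X160.Rcc

open Pool.Agent.X160.Rcb Module

set_option maxHeartbeats 1000000

/-- integer combinations of `1` and an irrational number are dense -/
theorem dense_int {θ : ℝ} (hθ : Irrational θ) {a b : ℝ} (hab : a < b) :
    ∃ p q : ℤ, a < p - q * θ ∧ p - q * θ < b := by
  have hd : Dense (AddSubgroup.closure {θ, 1} : Set ℝ) := by
    rw [dense_addSubgroupClosure_pair_iff]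
    simpa using hθ
  obtain ⟨y, hy, hya, hyb⟩ := hd.exists_between hab
  have hy' : y ∈ AddSubgroup.closure {θ, 1} := hy
  rw [AddSubgroup.mem_closure_pair] at hy'
  obtain ⟨m, n, hmn⟩ := hy'
  refine ⟨n, -m, ?_, ?_⟩
  · rw [← hmn] at hya
    push_cast
    simp at hya
    linarith
  · rw [← hmn] at hyb
    push_cast
    simp at hyb
    linarith

theorem coord_mem {x : Fin 5 → ℤ} (hx : x ∈ discreteSimplex 5) (j : Fin 5) : x j = 0 ∨ x j = 1 := by
  rcases hx with rfl | ⟨i, rfl⟩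
  · left
    rfl
  · by_cases h : j = i
    · subst h
      right
      simp
    · left
      simp [h]

/-- the linear form of a row -/
noncomputable def ev {k : ℕ} (A : Fin k → Fin 5 → ℝ) (i : Fin k) (x : Fin 5 → ℤ) : ℝ :=
  ∑ j, A i j * (x j : ℝ)

theorem ev_add {k : ℕ} (A : Fin k → Fin 5 → ℝ) (i : Fin k) (x y : Fin 5 → ℤ) :
    ev A i (x + y) = ev A i x + ev A i y := by
  unfold ev
  rw [← Finset.sum_add_distrib]
  refine Finset.sum_congr rfl fun j _ => ?_
  simp
  ring

theorem ev_smul {k : ℕ} (A : Fin k → Fin 5 → ℝ) (i : Fin k) (c : ℤ) (x : Fin 5 → ℤ) :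
    ev A i (c • x) = c * ev A i x := by
  unfold ev
  rw [Finset.mul_sum]
  refine Finset.sum_congr rfl fun j _ => ?_
  simp
  ring

theorem ev_zero {k : ℕ} (A : Fin k → Fin 5 → ℝ) (i : Fin k) : ev A i 0 = 0 := by
  simp [ev]

theorem ev_sub {k : ℕ} (A : Fin k → Fin 5 → ℝ) (i : Fin k) (x y : Fin 5 → ℤ) :
    ev A i (x - y) = ev A i x - ev A i y := by
  have := ev_add A i (x - y) y
  rw [sub_add_cancel] at this
  linarith

/-- A real relaxation. -/
def Rel {k : ℕ} (A : Fin k → Fin 5 → ℝ) (b : Fin k → ℝ) : Prop :=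
  ∀ x : Fin 5 → ℤ, (∀ i, ev A i x ≤ b i) ↔ x ∈ discreteSimplex 5

theorem inj {k : ℕ} {A : Fin k → Fin 5 → ℝ} {b : Fin k → ℝ} (h : Rel A b) {z : Fin 5 → ℤ}
    (hz : ∀ i, ev A i z = 0) : z = 0 := by
  have h0 : (0 : Fin 5 → ℤ) ∈ discreteSimplex 5 := Or.inl rfl
  have h0' := (h 0).2 h0
  have h2 : (2 : ℤ) • z ∈ discreteSimplex 5 := by
    rw [← h]
    intro i
    rw [ev_smul, hz i]
    have := h0' i
    rw [ev_zero] at this
    simpa using this
  funext j
  have := coord_mem h2 j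
  simp at this
  simp
  omega

/-- The key step: two integer vectors `r, s` with `A r = -θ A s`, `θ` irrational, such that `r`
points from one of the points of the simplex into the triangle spanned by this and two others. -/
theorem key {k : ℕ} {A : Fin k → Fin 5 → ℝ} {b : Fin k → ℝ} (h : Rel A b) {r s : Fin 5 → ℤ}
    {θ : ℝ} (hθ : Irrational θ) (hrs : ∀ i, ev A i s = -θ * ev A i r) (hr : r ≠ 0)
    {y x x' : Fin 5 → ℤ} (hy : y ∈ discreteSimplex 5) (hx : x ∈ discreteSimplex 5)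
    (hx' : x' ∈ discreteSimplex 5) {u v : ℤ} (huv : 0 ≤ u * v)
    (hruv : r = u • (x - y) + v • (x' - y)) : False := by
  have hS : u + v ≠ 0 := by
    intro hS
    have hv : v = -u := by omega
    subst hv
    have : u = 0 := by nlinarith [sq_nonneg u]
    subst this
    apply hr
    rw [hruv]
    simp
  have hSr : ((u + v : ℤ) : ℝ) ≠ 0 := by exact_mod_cast hS
  -- the sign of the sum
  obtain ⟨σ, hσ, hσS⟩ : ∃ σ : ℝ, (σ = 1 ∨ σ = -1) ∧ 0 < σ * ((u + v : ℤ) : ℝ) := by
    rcases lt_or_gt_of_ne hSr with h1 | h1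
    · exact ⟨-1, Or.inr rfl, by linarith⟩
    · exact ⟨1, Or.inl rfl, by linarith⟩
  have hu : 0 ≤ σ * (u : ℝ) := by
    have h1 : (0 : ℝ) ≤ (u : ℝ) * v := by exact_mod_cast huv
    push_cast at hσS
    by_contra hc
    push Not at hc
    rcases hσ with rfl | rfl <;> nlinarith
  have hv : 0 ≤ σ * (v : ℝ) := by
    have h1 : (0 : ℝ) ≤ (u : ℝ) * v := by exact_mod_cast huv
    push_cast at hσS
    by_contra hc
    push Not at hc
    rcases hσ with rfl | rfl <;> nlinarith
  -- find `t = σ τ` with `0 < 2 τ σ (u+v) < 1`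
  set S : ℝ := σ * ((u + v : ℤ) : ℝ) with hSdef
  obtain ⟨p, q, hpq0, hpq1⟩ : ∃ p q : ℤ, 0 < σ * (p - q * θ) ∧ σ * (p - q * θ) < 1 / (2 * S) := by
    have hpos : 0 < 1 / (2 * S) := by positivity
    rcases hσ with h1 | h1
    · obtain ⟨p, q, h2, h3⟩ := dense_int hθ hpos
      exact ⟨p, q, by rw [h1]; linarith, by rw [h1]; linarith⟩
    · have hneg : -(1 / (2 * S)) < 0 := by linarith
      obtain ⟨p, q, h2, h3⟩ := dense_int hθ hneg
      exact ⟨p, q, by rw [h1]; linarith, by rw [h1]; linarith⟩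
  set τ : ℝ := σ * (p - q * θ) with hτdef
  have hσ2 : σ * σ = 1 := by rcases hσ with h1 | h1 <;> rw [h1] <;> norm_num
  have hτ : (p : ℝ) - q * θ = σ * τ := by
    rw [hτdef, ← mul_assoc, hσ2, one_mul]
  have hτS : 2 * τ * S < 1 := by
    rw [lt_div_iff₀ (by positivity)] at hpq1
    linarith
  -- the new integer point
  have hrev : ∀ i, ev A i r = u * (ev A i x - ev A i y) + v * (ev A i x' - ev A i y) := by
    intro i
    rw [hruv, ev_add, ev_smul, ev_smul, ev_sub, ev_sub]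
  have hz : y + (2 : ℤ) • (p • r + q • s) ∈ discreteSimplex 5 := by
    rw [← h]
    intro i
    rw [ev_add, ev_smul, ev_add, ev_smul, ev_smul, hrs i]
    have e1 : ((2 : ℤ) : ℝ) * ((p : ℝ) * ev A i r + q * (-θ * ev A i r)) =
        2 * (σ * τ) * ev A i r := by
      rw [← hτ]
      push_cast
      ring
    rw [e1, hrev i]
    have b1 := (h y).2 hy i
    have b2 := (h x).2 hx i
    have b3 := (h x').2 hx' i
    have e2 : ev A i y + 2 * (σ * τ) * (u * (ev A i x - ev A i y) + v * (ev A i x' - ev A i y)) =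
        (1 - 2 * τ * S) * ev A i y + (2 * τ * (σ * u)) * ev A i x +
          (2 * τ * (σ * v)) * ev A i x' := by
      rw [hSdef]
      push_cast
      ring
    rw [e2]
    have c1 := mul_le_mul_of_nonneg_left b1 (by linarith : (0 : ℝ) ≤ 1 - 2 * τ * S)
    have c2 := mul_le_mul_of_nonneg_left b2 (by positivity : (0 : ℝ) ≤ 2 * τ * (σ * u))
    have c3 := mul_le_mul_of_nonneg_left b3 (by positivity : (0 : ℝ) ≤ 2 * τ * (σ * v))
    have e3 : (1 - 2 * τ * S) * b i + (2 * τ * (σ * u)) * b i + (2 * τ * (σ * v)) * b i = b i := by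
      rw [hSdef]
      push_cast
      ring
    linarith
  have hw : p • r + q • s = 0 := by
    funext j
    have h1 := coord_mem hy j
    have h2 := coord_mem hz j
    simp at h2
    simp
    omega
  apply hr
  apply inj h
  intro i
  have h1 : ev A i (p • r + q • s) = 0 := by rw [hw, ev_zero]
  rw [ev_add, ev_smul, ev_smul, hrs i] at h1
  have h2 : (σ * τ) * ev A i r = 0 := by
    rw [← hτ]
    linarith
  rcases mul_eq_zero.1 h2 with h3 | h3
  · exfalso
    rcases mul_eq_zero.1 h3 with h4 | h4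
    · rw [h4] at hσ2
      norm_num at hσ2
    · linarith
  · exact h3

/-- One of the three vertices `0, e₁, e₂` sees the direction `α e₁ + β e₂` inside the triangle. -/
theorem plane {k : ℕ} {A : Fin k → Fin 5 → ℝ} {b : Fin k → ℝ} (h : Rel A b) {r s : Fin 5 → ℤ}
    {θ : ℝ} (hθ : Irrational θ) (hrs : ∀ i, ev A i s = -θ * ev A i r) (hr : r ≠ 0)
    (h2 : r 2 = 0) (h3 : r 3 = 0) (h4 : r 4 = 0) : False := by
  have m0 : (0 : Fin 5 → ℤ) ∈ discreteSimplex 5 := Or.inl rfl
  have m1 : (Pi.single 0 1 : Fin 5 → ℤ) ∈ discreteSimplex 5 := Or.inr ⟨0, rfl⟩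
  have m2 : (Pi.single 1 1 : Fin 5 → ℤ) ∈ discreteSimplex 5 := Or.inr ⟨1, rfl⟩
  by_cases c0 : 0 ≤ r 0 * r 1
  · refine key h hθ hrs hr m0 m1 m2 (u := r 0) (v := r 1) c0 ?_
    funext j
    fin_cases j <;> simp [h2, h3, h4]
  · push Not at c0
    by_cases c1 : 0 ≤ -(r 0 + r 1) * r 1
    · refine key h hθ hrs hr m1 m0 m2 (u := -(r 0 + r 1)) (v := r 1) c1 ?_
      funext j
      fin_cases j <;> simp [h2, h3, h4]
    · push Not at c1
      refine key h hθ hrs hr m2 m0 m1 (u := -(r 0 + r 1)) (v := r 0) (by nlinarith) ?_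
      funext j
      fin_cases j <;> simp [h2, h3, h4]

end Pool.Agent.X160.Rcc
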