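import Pool.Agent.X160.Rcc

/-! Relaxation complexity over real quadratic fields: conclusion. -/

namespace Pool.Agent.X160.Rcd

open Pool.Agent.X160.Rcb Pool.Agent.X160.Rcc Module

set_option maxHeartbeats 1000000

theorem common_den {ι : Type} [Fintype ι] (f : ι → ℚ) :
    ∃ D : ℕ, 0 < D ∧ ∃ z : ι → ℤ, ∀ i, (z i : ℚ) = D * f i := by
  refine ⟨∏ i, (f i).den, Finset.prod_pos fun i _ => (f i).den_pos, ?_⟩
  have : ∀ i, ∃ z : ℤ, (z : ℚ) = ((∏ i, (f i).den : ℕ) : ℚ) * f i := by
    intro i
    obtain ⟨e, he⟩ := Finset.dvd_prod_of_mem (fun i => (f i).den) (Finset.mem_univ i)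
    refine ⟨e * (f i).num, ?_⟩
    have he' : (∏ i, (f i).den) = (f i).den * e := he
    rw [he']
    push_cast
    have h1 : (f i) * ((f i).den : ℚ) = (f i).num := Rat.mul_den_eq_num (f i)
    rw [← h1]
    ring
  exact ⟨fun i => (this i).choose, fun i => (this i).choose_spec⟩

theorem caseS {k : ℕ} {A : Fin k → Fin 5 → ℝ} {b : Fin k → ℝ} (h : Rel A b) {u : Fin 5 → ℝ}
    (hu : ∀ i, ∑ j, A i j * u j = -1) : False := by
  obtain ⟨N, hN⟩ := exists_nat_gt (∑ i, (∑ j, |A i j| + 2 * |A i 0| + |b i|))
  set z : Fin 5 → ℤ := fun j => ⌊(N : ℝ) * u j⌋ with hz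
  have hi : ∀ i, (∑ j, |A i j| + 2 * |A i 0| + |b i|) < N := by
    intro i
    refine lt_of_le_of_lt ?_ hN
    exact Finset.single_le_sum (f := fun i => (∑ j, |A i j| + 2 * |A i 0| + |b i|))
      (fun i _ => by positivity) (Finset.mem_univ i)
  have hev : ∀ i, ev A i z ≤ -N + ∑ j, |A i j| := by
    intro i
    have e1 : ev A i z = ∑ j, (A i j * (N * u j) - A i j * Int.fract ((N : ℝ) * u j)) := by
      unfold ev
      refine Finset.sum_congr rfl fun j _ => ?_
      rw [hz, ← mul_sub, Int.self_sub_fract]
    have e2 : ∑ j, A i j * ((N : ℝ) * u j) = -N := by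
      have : ∑ j, A i j * ((N : ℝ) * u j) = N * ∑ j, A i j * u j := by
        rw [Finset.mul_sum]
        refine Finset.sum_congr rfl fun j _ => by ring
      rw [this, hu i]
      ring
    have e3 : -∑ j, A i j * Int.fract ((N : ℝ) * u j) ≤ ∑ j, |A i j| := by
      rw [← Finset.sum_neg_distrib]
      refine Finset.sum_le_sum fun j _ => ?_
      have h1 := Int.fract_nonneg ((N : ℝ) * u j)
      have h2 := (Int.fract_lt_one ((N : ℝ) * u j)).le
      have h3 := neg_abs_le (A i j)
      have h4 := abs_nonneg (A i j)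
      nlinarith
    rw [e1, Finset.sum_sub_distrib, e2]
    linarith
  have hz1 : z ∈ discreteSimplex 5 := by
    rw [← h]
    intro i
    have := hi i
    have h1 := hev i
    have h2 := neg_abs_le (b i)
    have h3 := abs_nonneg (A i 0)
    linarith
  have hz2 : z + (2 : ℤ) • (Pi.single 0 1 : Fin 5 → ℤ) ∈ discreteSimplex 5 := by
    rw [← h]
    intro i
    have := hi i
    have h1 := hev i
    have h2 := neg_abs_le (b i)
    have h3 := le_abs_self (A i 0)
    have h4 : ev A i (Pi.single 0 1) = A i 0 := by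
      unfold ev
      rw [Finset.sum_eq_single 0]
      · simp
      · intro j _ hj
        simp [hj]
      · simp
    rw [ev_add, ev_smul, h4]
    push_cast
    linarith
  have c1 := coord_mem hz1 0
  have c2 := coord_mem hz2 0
  simp at c2
  omega

theorem lower {F : Subfield ℝ} (hF : finrank ℚ F = 2) {k : ℕ} (hk : k < 5) :
    ¬ HasRelaxation F k (discreteSimplex 5) := by
  rintro ⟨A, b, h⟩
  have hR : Rel (fun i j => (A i j : ℝ)) (fun i => (b i : ℝ)) := fun x => h x
  set T : (Fin 5 → F) →ₗ[F] (Fin k → F) := Matrix.mulVecLin (Matrix.of A) with hT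
  have hTa : ∀ v i, T v i = ∑ j, A i j * v j := by
    intro v i
    rw [hT, Matrix.mulVecLin_apply]
    rfl
  by_cases hs : Function.Surjective T
  · obtain ⟨u, hu⟩ := hs (fun _ => -1)
    refine caseS hR (u := fun j => (u j : ℝ)) ?_
    intro i
    have h1 := congrFun hu i
    rw [hTa] at h1
    have h2 := congrArg (fun t : F => (t : ℝ)) h1
    simpa using h2
  · have : FiniteDimensional ℚ F := FiniteDimensional.of_finrank_pos (by omega)
    have r1 : finrank F (LinearMap.range T) < k := by
      have : finrank F (LinearMap.range T) < finrank F (Fin k → F) := by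
        apply Submodule.finrank_lt
        rw [Ne, LinearMap.range_eq_top]
        exact hs
      simpa using this
    have r2 := T.finrank_range_add_finrank_ker
    rw [Module.finrank_fin_fun] at r2
    have r3 : finrank ℚ F * finrank F (LinearMap.ker T) = finrank ℚ (LinearMap.ker T) :=
      Module.finrank_mul_finrank ℚ F (LinearMap.ker T)
    have r4 : 3 < finrank ℚ (LinearMap.ker T) := by
      rw [← r3, hF]
      omega
    let B : Basis (Fin 2) ℚ F := finBasisOfFinrankEq ℚ F hF
    let L : (LinearMap.ker T) →ₗ[ℚ] (Fin 3 → ℚ) :=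
      { toFun := fun v i => B.repr ((v : Fin 5 → F) (Fin.natAdd 2 i)) 0
        map_add' := by
          intro v w
          funext i
          simp
        map_smul' := by
          intro c v
          funext i
          simp }
    have : FiniteDimensional ℚ (LinearMap.ker T) := FiniteDimensional.of_finrank_pos (by omega)
    have hker : LinearMap.ker L ≠ ⊥ := by
      apply LinearMap.ker_ne_bot_of_finrank_lt
      simpa using r4
    obtain ⟨v, hv, hv0⟩ := Submodule.exists_mem_ne_zero_of_ne_bot hker
    have hvL : ∀ i : Fin 3, B.repr ((v : Fin 5 → F) (Fin.natAdd 2 i)) 0 = 0 := by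
      intro i
      have := congrFun (LinearMap.mem_ker.1 hv) i
      exact this
    have hvT : ∀ i, ∑ j, A i j * (v : Fin 5 → F) j = 0 := by
      intro i
      rw [← hTa]
      have := LinearMap.mem_ker.1 v.2
      rw [this]
      rfl
    have hrep : ∀ j, ((v : Fin 5 → F) j : ℝ) =
        (B.repr ((v : Fin 5 → F) j) 0 : ℝ) * (B 0 : ℝ) +
          (B.repr ((v : Fin 5 → F) j) 1 : ℝ) * (B 1 : ℝ) := by
      intro j
      have h1 := B.sum_repr ((v : Fin 5 → F) j)
      rw [Fin.sum_univ_two] at h1
      have h2 := congrArg (fun t : F => (t : ℝ)) h1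
      simp only [Subfield.coe_add, Rat.smul_def] at h2
      rw [← h2]
      push_cast
      rfl
    obtain ⟨D, hD, zz, hzz⟩ := common_den
      (fun t : Fin 5 × Fin 2 => B.repr ((v : Fin 5 → F) t.1) t.2)
    have hDr : (0 : ℝ) < D := by exact_mod_cast hD
    have hzr : ∀ t : Fin 5 × Fin 2, (zz t : ℝ) = D * (B.repr ((v : Fin 5 → F) t.1) t.2 : ℝ) := by
      intro t
      have := hzz t
      exact_mod_cast this
    have f0 : (B 0 : ℝ) ≠ 0 := by
      have := B.ne_zero 0
      simpa using this
    have f1 : (B 1 : ℝ) ≠ 0 := by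
      have := B.ne_zero 1
      simpa using this
    have hθ : Irrational ((B 0 : ℝ) / (B 1 : ℝ)) := by
      rintro ⟨q, hq⟩
      have h1 : (B 0 : ℝ) = q * (B 1 : ℝ) := by
        rw [hq]
        field_simp
      have h2 : B 0 = q • B 1 := by
        apply Subtype.ext
        rw [h1, Rat.smul_def]
        push_cast
        rfl
      have h3 := congrArg (fun t => B.repr t 0) h2
      simp at h3
    set r : Fin 5 → ℤ := fun j => zz (j, 0) with hr
    set s : Fin 5 → ℤ := fun j => zz (j, 1) with hs'
    have hrs : ∀ i, ev (fun i j => (A i j : ℝ)) i s =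
        -((B 0 : ℝ) / (B 1 : ℝ)) * ev (fun i j => (A i j : ℝ)) i r := by
      intro i
      have h1 := congrArg (fun t : F => (t : ℝ)) (hvT i)
      have h2 : ∑ j, (A i j : ℝ) * ((v : Fin 5 → F) j : ℝ) = 0 := by simpa using h1
      have h3 : ev (fun i j => (A i j : ℝ)) i r * (B 0 : ℝ) +
          ev (fun i j => (A i j : ℝ)) i s * (B 1 : ℝ) = 0 := by
        have : ev (fun i j => (A i j : ℝ)) i r * (B 0 : ℝ) +
          ev (fun i j => (A i j : ℝ)) i s * (B 1 : ℝ) =
            D * ∑ j, (A i j : ℝ) * ((v : Fin 5 → F) j : ℝ) := by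
          unfold ev
          rw [Finset.sum_mul, Finset.sum_mul, ← Finset.sum_add_distrib, Finset.mul_sum]
          refine Finset.sum_congr rfl fun j _ => ?_
          rw [hr, hs', hrep j]
          simp only
          rw [hzr, hzr]
          ring
        rw [this, h2, mul_zero]
      field_simp
      linarith
    have hr0 : r ≠ 0 := by
      intro h0
      have hs0 : s = 0 := by
        apply inj hR
        intro i
        rw [hrs i, h0, ev_zero, mul_zero]
      apply hv0
      apply Subtype.ext
      funext j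
      apply Subtype.ext
      rw [hrep j]
      have e0 := hzr (j, 0)
      have e1 := hzr (j, 1)
      have z0 : zz (j, 0) = 0 := congrFun h0 j
      have z1 : zz (j, 1) = 0 := congrFun hs0 j
      rw [z0] at e0
      rw [z1] at e1
      have e0' : (B.repr ((v : Fin 5 → F) j) 0 : ℝ) = 0 := by
        simp only [Int.cast_zero] at e0
        rcases mul_eq_zero.1 e0.symm with h5 | h5
        · exact absurd h5 hDr.ne'
        · exact h5
      have e1' : (B.repr ((v : Fin 5 → F) j) 1 : ℝ) = 0 := by
        simp only [Int.cast_zero] at e1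
        rcases mul_eq_zero.1 e1.symm with h5 | h5
        · exact absurd h5 hDr.ne'
        · exact h5
      rw [e0', e1']
      simp
    have hr2 : ∀ i : Fin 3, r (Fin.natAdd 2 i) = 0 := by
      intro i
      have e0 := hzr (Fin.natAdd 2 i, 0)
      simp only [hvL i] at e0
      simpa using e0
    exact plane hR hθ hrs hr0 (hr2 0) (hr2 1) (hr2 2)

theorem rc_eq {F : Subfield ℝ} (hF : finrank ℚ F = 2) : rc F (discreteSimplex 5) = 5 := by
  have hne : F ≠ ⊥ := by
    rintro rfl
    have h1 : finrank ℚ (⊥ : Subfield ℝ) ≤ 1 := by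
      refine finrank_le_one 1 fun w => ?_
      have hw : (w : ℝ) ∈ (algebraMap ℚ ℝ).fieldRange := (bot_le : (⊥ : Subfield ℝ) ≤ _) w.2
      obtain ⟨q, hq⟩ := hw
      refine ⟨q, ?_⟩
      apply Subtype.ext
      rw [Rat.smul_def]
      push_cast
      simpa using hq
    omega
  have hmem : (5 : ℕ) ∈ {k | HasRelaxation F k (discreteSimplex 5)} := upper hne
  refine le_antisymm (Nat.sInf_le hmem) ?_
  have hin := Nat.sInf_mem (Set.nonempty_of_mem hmem)
  by_contra hc
  push Not at hc
  exact lower hF hc hin

end Pool.Agent.X160.Rcd
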